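import Mathlib

/-!
# The digamma function: Gauss limit and asymptotics in the right half-plane
-/

open Complex Metric Set Filter Topology MeasureTheory

namespace Pool.Agent.Hadamard

/-- Pointwise bounded convergence of holomorphic functions implies convergence of derivatives. -/
lemma tendsto_deriv_of_bounded {f : ℕ → ℂ → ℂ} {g : ℂ → ℂ} {c : ℂ} {r M : ℝ} (hr : 0 < r)
    (hf : ∀ n, DifferentiableOn ℂ (f n) (closedBall c r))
    (hg : DifferentiableOn ℂ g (closedBall c r))
    (hb : ∀ n, ∀ z ∈ sphere c r, ‖f n z‖ ≤ M)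
    (hlim : ∀ z ∈ sphere c r, Tendsto (fun n => f n z) atTop (𝓝 (g z))) :
    Tendsto (fun n => deriv (f n) c) atTop (𝓝 (deriv g c)) := by
  have hpi : (2 * Real.pi * I : ℂ) ≠ 0 := by simp
  have h1 : ∀ n, deriv (f n) c = (2 * Real.pi * I : ℂ)⁻¹ *
      ∮ z in C(c, r), (1 / (z - c) ^ 2) • f n z := by
    intro n
    rw [(hf n).deriv_eq_smul_circleIntegral hr, smul_eq_mul, inv_mul_cancel_left₀ hpi]
  have h2 : deriv g c = (2 * Real.pi * I : ℂ)⁻¹ *
      ∮ z in C(c, r), (1 / (z - c) ^ 2) • g z := by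
    rw [hg.deriv_eq_smul_circleIntegral hr, smul_eq_mul, inv_mul_cancel_left₀ hpi]
  rw [h2]
  simp_rw [h1]
  refine Tendsto.const_mul _ ?_
  unfold circleIntegral
  have hcm : ∀ θ : ℝ, circleMap c r θ ∈ sphere c r := fun θ => circleMap_mem_sphere c hr.le θ
  refine intervalIntegral.tendsto_integral_filter_of_dominated_convergence
    (fun _ => r * ((1 / r ^ 2) * M)) ?_ ?_ ?_ ?_
  · refine Eventually.of_forall fun n => ?_
    refine (Continuous.aestronglyMeasurable ?_)
    have hc1 : Continuous (fun θ : ℝ => f n (circleMap c r θ)) := by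
      have := (hf n).continuousOn
      refine this.comp_continuous (continuous_circleMap c r) fun θ => ?_
      exact sphere_subset_closedBall (hcm θ)
    have hc2 : Continuous (fun θ : ℝ => 1 / (circleMap c r θ - c) ^ 2) := by
      refine continuous_const.div (by fun_prop) fun θ => ?_
      refine pow_ne_zero _ ?_
      simp [circleMap_sub_center, hr.ne']
    have hc3 : Continuous (fun θ : ℝ => deriv (circleMap c r) θ) := by
      simp only [deriv_circleMap]
      fun_prop
    exact hc3.smul (hc2.smul hc1)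
  · refine Eventually.of_forall fun n => Eventually.of_forall fun θ _ => ?_
    rw [norm_smul, norm_smul, deriv_circleMap]
    have e1 : ‖circleMap 0 r θ * I‖ = r := by simp [abs_of_pos hr]
    have e2 : ‖1 / (circleMap c r θ - c) ^ 2‖ = 1 / r ^ 2 := by
      rw [norm_div, norm_pow, norm_one]
      congr 2
      simp [circleMap_sub_center, abs_of_pos hr]
    rw [e1, e2]
    have := hb n _ (hcm θ)
    gcongr
  · exact intervalIntegrable_const
  · refine Eventually.of_forall fun θ _ => ?_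
    exact ((hlim _ (hcm θ)).const_smul _).const_smul _

lemma norm_GammaSeq_le {s : ℂ} (hs : 0 < s.re) {n : ℕ} (hn : n ≠ 0) :
    ‖Complex.GammaSeq s n‖ ≤ Real.Gamma s.re := by
  rw [Complex.GammaSeq_eq_approx_Gamma_integral hs hn,
    intervalIntegral.integral_of_le (Nat.cast_nonneg n), Real.Gamma_eq_integral hs]
  have hint := Real.GammaIntegral_convergent hs
  refine (norm_integral_le_of_norm_le (g := fun x : ℝ => Real.exp (-x) * x ^ (s.re - 1))
    (hint.mono_set Ioc_subset_Ioi_self) ?_).trans ?_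
  · refine (ae_restrict_iff' measurableSet_Ioc).mpr (Eventually.of_forall fun x hx => ?_)
    have hx0 : 0 < x := hx.1
    have hxn : x ≤ n := hx.2
    rw [norm_mul, Complex.norm_cpow_eq_rpow_re_of_pos hx0, sub_re, one_re]
    have hnn : 0 ≤ 1 - x / n := by
      have : x / n ≤ 1 := div_le_one_of_le₀ hxn (Nat.cast_nonneg n)
      linarith
    rw [Complex.norm_real, Real.norm_eq_abs, abs_of_nonneg (pow_nonneg hnn n)]
    gcongr
    exact Real.one_sub_div_pow_le_exp_neg hxn
  · refine setIntegral_mono_set hint ?_ (Ioc_subset_Ioi_self.eventuallyLE)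
    refine (ae_restrict_iff' measurableSet_Ioi).mpr (Eventually.of_forall fun x hx => ?_)
    have hx0 : 0 < x := hx
    positivity

lemma GammaSeq_differentiableAt {s : ℂ} (hs : 0 < s.re) {n : ℕ} (hn : n ≠ 0) :
    DifferentiableAt ℂ (fun s => Complex.GammaSeq s n) s := by
  unfold Complex.GammaSeq
  have hn' : (n : ℂ) ≠ 0 := Nat.cast_ne_zero.mpr hn
  have h1 : DifferentiableAt ℂ (fun s : ℂ => (n : ℂ) ^ s) s :=
    (hasDerivAt_id s).const_cpow (Or.inl hn') |>.differentiableAt
  have h2 : DifferentiableAt ℂ (fun s : ℂ => ∏ j ∈ Finset.range (n + 1), (s + j)) s :=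
    DifferentiableAt.fun_finsetProd fun j _ => by fun_prop
  refine (h1.mul_const _).div h2 ?_
  refine Finset.prod_ne_zero_iff.mpr fun j _ h => ?_
  have : (s + j).re = 0 := by rw [h]; simp
  simp at this
  have : (0:ℝ) ≤ j := by positivity
  linarith

lemma logDeriv_GammaSeq {s : ℂ} (hs : 0 < s.re) {n : ℕ} (hn : n ≠ 0) :
    logDeriv (fun s => Complex.GammaSeq s n) s =
      Real.log n - ∑ j ∈ Finset.range (n + 1), 1 / (s + j) := by
  have hn' : (n : ℂ) ≠ 0 := Nat.cast_ne_zero.mpr hn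
  have hj : ∀ j ∈ Finset.range (n + 1), s + (j:ℂ) ≠ 0 := by
    intro j _ h
    have : (s + j).re = 0 := by rw [h]; simp
    simp at this
    have : (0:ℝ) ≤ j := by positivity
    linarith
  have h1 : HasDerivAt (fun s : ℂ => (n : ℂ) ^ s) ((n:ℂ) ^ s * Complex.log n) s := by
    simpa using (hasDerivAt_id s).const_cpow (Or.inl hn')
  have h2 : DifferentiableAt ℂ (fun s : ℂ => ∏ j ∈ Finset.range (n + 1), (s + j)) s :=
    DifferentiableAt.fun_finsetProd fun j _ => by fun_prop
  have hfac : (n.factorial : ℂ) ≠ 0 := by exact_mod_cast n.factorial_ne_zero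
  have hpow : (n:ℂ) ^ s ≠ 0 := by rw [Complex.cpow_def_of_ne_zero hn']; exact exp_ne_zero _
  have hGS : (fun s => Complex.GammaSeq s n) = fun s : ℂ =>
      ((n : ℂ) ^ s * n.factorial) / (∏ j ∈ Finset.range (n + 1), (s + j)) := rfl
  rw [hGS, logDeriv_div (f := fun s : ℂ => (n : ℂ) ^ s * n.factorial) s (mul_ne_zero hpow hfac)
    (Finset.prod_ne_zero_iff.mpr hj) (h1.differentiableAt.mul_const _) h2,
    logDeriv_mul_const (f := fun s : ℂ => (n : ℂ) ^ s) s _ hfac]
  rw [logDeriv_prod (f := fun (j : ℕ) (s : ℂ) => s + (j:ℂ)) hj (fun j _ => by fun_prop)]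
  congr 1
  · rw [logDeriv_apply, h1.deriv, mul_div_cancel_left₀ _ hpow]
    rw [← Complex.ofReal_natCast, Complex.ofReal_log (Nat.cast_nonneg n)]
  · refine Finset.sum_congr rfl fun j _ => ?_
    rw [logDeriv_apply]
    simp

/-- Gauss limit formula for the digamma function in the right half-plane. -/
lemma tendsto_digamma {s : ℂ} (hs : 0 < s.re) :
    Tendsto (fun n : ℕ => (Real.log n : ℂ) - ∑ j ∈ Finset.range (n + 1), 1 / (s + j)) atTop
      (𝓝 (logDeriv Complex.Gamma s)) := by
  set r := s.re / 2 with hr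
  have hrpos : 0 < r := by positivity
  have hre : ∀ z ∈ closedBall s r, r ≤ z.re ∧ z.re ≤ 3 * r := by
    intro z hz
    have h1 : ‖z - s‖ ≤ r := by simpa [dist_eq_norm] using hz
    have h2 : |(z - s).re| ≤ r := (abs_re_le_norm _).trans h1
    rw [sub_re, abs_le] at h2
    constructor <;> linarith
  -- bound of Real.Gamma on compact interval
  have hcont : ContinuousOn Real.Gamma (Icc r (3 * r)) := by
    intro x hx
    refine (Real.differentiableAt_Gamma ?_).continuousAt.continuousWithinAt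
    intro m h
    have : (0:ℝ) ≤ m := by positivity
    have := hx.1
    linarith
  obtain ⟨M, hM⟩ := isCompact_Icc.exists_bound_of_continuousOn hcont
  have hGd : DifferentiableOn ℂ Complex.Gamma (closedBall s r) := by
    intro z hz
    refine (differentiableAt_Gamma _ fun m h => ?_).differentiableWithinAt
    have h1 := (hre z hz).1
    rw [h] at h1
    simp at h1
    have : (0:ℝ) ≤ m := by positivity
    linarith
  have key := tendsto_deriv_of_bounded (f := fun n z => Complex.GammaSeq z (n + 1))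
    (g := Complex.Gamma) (c := s) (r := r) (M := M) hrpos
    (fun n z hz => (GammaSeq_differentiableAt (by linarith [(hre z hz).1])
      (Nat.succ_ne_zero n)).differentiableWithinAt) hGd
    (fun n z hz => by
      have hz' := sphere_subset_closedBall hz
      have h1 := hre z hz'
      refine (norm_GammaSeq_le (by linarith [h1.1]) (Nat.succ_ne_zero n)).trans ?_
      exact (le_abs_self _).trans (hM z.re ⟨h1.1, h1.2⟩))
    (fun z _ => (Complex.GammaSeq_tendsto_Gamma z).comp (tendsto_add_atTop_nat 1))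
  have hval : Tendsto (fun n : ℕ => Complex.GammaSeq s (n + 1)) atTop (𝓝 (Complex.Gamma s)) :=
    (Complex.GammaSeq_tendsto_Gamma s).comp (tendsto_add_atTop_nat 1)
  have hdiv := key.div hval (Complex.Gamma_ne_zero_of_re_pos hs)
  rw [← tendsto_add_atTop_iff_nat 1]
  refine (hdiv.congr fun n => ?_)
  rw [← logDeriv_GammaSeq hs (Nat.succ_ne_zero n), logDeriv_apply]
  rfl

/-- The local error. -/
lemma norm_log_add_one_sub {w : ℂ} (hw : 0 < w.re) :
    ‖Complex.log (w + 1) - Complex.log w - 1 / w‖ ≤ 1 / ‖w‖ ^ 2 := by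
  have hw0 : w ≠ 0 := by rintro rfl; simp at hw
  have hwpos : 0 < ‖w‖ := norm_pos_iff.mpr hw0
  have hder : ∀ x ∈ Icc (0:ℝ) 1, HasDerivWithinAt
      (fun x : ℝ => Complex.log (w + x) - x / w) (1 / (w + x) - 1 / w) (Icc (0:ℝ) 1) x := by
    intro x hx
    have hslit : w + x ∈ slitPlane := by
      refine Or.inl ?_
      simp; linarith [hx.1]
    have h1 : HasDerivAt (fun x : ℝ => w + (x:ℂ)) 1 x := by
      simpa using (Complex.ofRealCLM.hasDerivAt (x := x)).const_add w
    have h2 := h1.clog_real hslit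
    have h3 : HasDerivAt (fun x : ℝ => (x:ℂ) / w) (1 / w) x := by
      simpa using (Complex.ofRealCLM.hasDerivAt (x := x)).div_const w
    exact (h2.sub h3).hasDerivWithinAt
  have hbound : ∀ x ∈ Ico (0:ℝ) 1, ‖1 / (w + (x:ℂ)) - 1 / w‖ ≤ 1 / ‖w‖ ^ 2 := by
    intro x hx
    have hwx : ‖w‖ ≤ ‖w + x‖ := by
      rw [← sq_le_sq₀ (norm_nonneg _) (norm_nonneg _), Complex.sq_norm, Complex.sq_norm,
        Complex.normSq_apply, Complex.normSq_apply]
      simp
      nlinarith [hx.1]
    have hwx0 : w + x ≠ 0 := by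
      intro h; rw [h, norm_zero] at hwx; linarith
    have e1 : 1 / (w + (x:ℂ)) - 1 / w = -x / (w * (w + x)) := by
      field_simp; ring
    rw [e1, norm_div, norm_neg, norm_mul, Complex.norm_real, Real.norm_eq_abs,
      abs_of_nonneg hx.1]
    rw [div_le_div_iff₀ (by positivity) (by positivity)]
    have : x ≤ 1 := hx.2.le
    nlinarith [mul_le_mul_of_nonneg_left hwx hwpos.le, hx.1, sq_nonneg ‖w‖]
  have := norm_image_sub_le_of_norm_deriv_le_segment_01' hder hbound
  simpa [sub_sub, add_comm] using this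

lemma norm_add_natCast_sq {z : ℂ} (hz : 0 < z.re) (j : ℕ) :
    (‖z‖ + j) ^ 2 / 2 ≤ ‖z + j‖ ^ 2 := by
  have h1 : ‖z + j‖ ^ 2 = ‖z‖ ^ 2 + 2 * z.re * j + j ^ 2 := by
    rw [Complex.sq_norm, Complex.sq_norm, Complex.normSq_apply, Complex.normSq_apply]
    simp; ring
  rw [h1]
  have : (0:ℝ) ≤ j := by positivity
  have h2 : 0 ≤ z.re * j := by positivity
  nlinarith [sq_nonneg (‖z‖ - j)]

lemma sum_inv_sq_le {a : ℝ} (ha : 0 < a) (n : ℕ) :
    ∑ j ∈ Finset.range (n + 1), 1 / (a + j) ^ 2 ≤ 1 / a ^ 2 + (1 / a - 1 / (a + n)) := by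
  induction n with
  | zero => simp
  | succ n ih =>
    rw [Finset.sum_range_succ]
    have h1 : 1 / (a + ((n + 1 : ℕ) : ℝ)) ^ 2 ≤ 1 / (a + n) - 1 / (a + ((n + 1 : ℕ) : ℝ)) := by
      push_cast
      have h2 : 0 < a + n := by positivity
      have h3 : 0 < a + (n + 1) := by positivity
      rw [div_sub_div _ _ h2.ne' h3.ne', div_le_div_iff₀ (by positivity) (by positivity)]
      nlinarith
    linarith

lemma norm_sum_error_le {z : ℂ} (hz : 0 < z.re) (n : ℕ) :
    ‖∑ j ∈ Finset.range (n + 1), (Complex.log (z + j + 1) - Complex.log (z + j) - 1 / (z + j))‖ ≤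
      2 / ‖z‖ ^ 2 + 2 / ‖z‖ := by
  have hz0 : z ≠ 0 := by rintro rfl; simp at hz
  have hzpos : 0 < ‖z‖ := norm_pos_iff.mpr hz0
  refine (norm_sum_le _ _).trans ?_
  have h1 : ∀ j ∈ Finset.range (n + 1),
      ‖Complex.log (z + j + 1) - Complex.log (z + j) - 1 / (z + j)‖ ≤
        2 * (1 / (‖z‖ + j) ^ 2) := by
    intro j _
    have hjpos : (0:ℝ) ≤ j := by positivity
    have hre : 0 < (z + j).re := by simp; linarith
    refine (norm_log_add_one_sub hre).trans ?_
    have h2 := norm_add_natCast_sq hz j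
    have h3 : 0 < (‖z‖ + j) ^ 2 / 2 := by positivity
    calc 1 / ‖z + j‖ ^ 2 ≤ 1 / ((‖z‖ + j) ^ 2 / 2) := one_div_le_one_div_of_le h3 h2
      _ = 2 * (1 / (‖z‖ + j) ^ 2) := by field_simp
  refine (Finset.sum_le_sum h1).trans ?_
  rw [← Finset.mul_sum]
  have h2 := sum_inv_sq_le hzpos n
  have h3 : 0 ≤ 1 / (‖z‖ + n) := by positivity
  calc 2 * ∑ j ∈ Finset.range (n + 1), 1 / (‖z‖ + j) ^ 2 ≤ 2 * (1 / ‖z‖ ^ 2 + 1 / ‖z‖) := by
        linarith
    _ = _ := by ring

/-- **Asymptotics of the digamma function** in the right half-plane. -/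
theorem norm_digamma_sub_log_le {z : ℂ} (hz : 0 < z.re) :
    ‖logDeriv Complex.Gamma z - Complex.log z‖ ≤ 2 / ‖z‖ ^ 2 + 2 / ‖z‖ := by
  have hlim := tendsto_digamma hz
  have htel : ∀ n : ℕ, ∑ j ∈ Finset.range (n + 1),
      (Complex.log (z + j + 1) - Complex.log (z + j)) = Complex.log (z + n + 1) - Complex.log z := by
    intro n
    have := Finset.sum_range_sub (fun j : ℕ => Complex.log (z + j)) (n + 1)
    simpa [add_assoc] using this
  -- log (z+n+1) - log n → 0
  have hlog : Tendsto (fun n : ℕ => Complex.log (z + n + 1) - Real.log n) atTop (𝓝 0) := by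
    have h1 : Tendsto (fun n : ℕ => Complex.log ((z + 1) / n + 1)) atTop (𝓝 (Complex.log 1)) := by
      have h2 : Tendsto (fun n : ℕ => (z + 1) / (n:ℂ) + 1) atTop (𝓝 1) := by
        have := (tendsto_const_div_atTop_nhds_zero_nat (𝕜 := ℂ) (z + 1)).add_const 1
        simpa using this
      exact (continuousAt_clog (by simp)).tendsto.comp h2
    rw [Complex.log_one] at h1
    refine h1.congr' ?_
    filter_upwards [eventually_ge_atTop 1] with n hn
    have hn0 : (0:ℝ) < n := by exact_mod_cast hn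
    have hnC : (n:ℂ) ≠ 0 := by exact_mod_cast hn0.ne'
    have h2 : z + n + 1 = ((n:ℝ):ℂ) * ((z + 1) / n + 1) := by
      push_cast; field_simp; ring
    have h3 : (z + 1) / (n:ℂ) + 1 ≠ 0 := by
      intro h
      have h4 : z + n + 1 = 0 := by rw [h2, h, mul_zero]
      have h5 : (z + n + 1).re = 0 := by rw [h4]; simp
      simp at h5; linarith
    rw [h2, Complex.log_ofReal_mul hn0 h3]
    ring
  have hnorm : Tendsto (fun n : ℕ => ‖((Real.log n : ℂ) - ∑ j ∈ Finset.range (n + 1), 1 / (z + j))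
      - Complex.log z + (Complex.log (z + n + 1) - Real.log n)‖) atTop
      (𝓝 ‖logDeriv Complex.Gamma z - Complex.log z‖) := by
    have := ((hlim.sub_const (Complex.log z)).add hlog).norm
    simpa using this
  refine le_of_tendsto' hnorm fun n => ?_
  have h1 := norm_sum_error_le hz n
  rw [Finset.sum_sub_distrib, htel n] at h1
  refine le_trans (le_of_eq ?_) h1
  congr 1
  ring

/-- R2. -/
theorem re_digamma_half : ∃ C : ℝ, 0 < C ∧ ∀ σ t : ℝ, 1 ≤ σ → σ ≤ 3 → 1 ≤ |t| →
    |(logDeriv Complex.Gamma (((σ : ℂ) + t * I) / 2)).re - Real.log (|t| / 2)| ≤ C / |t| := by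
  refine ⟨17, by norm_num, fun σ t hσ hσ3 ht => ?_⟩
  set z : ℂ := ((σ : ℂ) + t * I) / 2 with hzdef
  have hre : z.re = σ / 2 := by simp [hzdef]
  have him : z.im = t / 2 := by simp [hzdef]
  have hz : 0 < z.re := by rw [hre]; linarith
  have htpos : 0 < |t| := by linarith
  have hnormsq : ‖z‖ ^ 2 = (σ ^ 2 + t ^ 2) / 4 := by
    rw [Complex.sq_norm, Complex.normSq_apply, hre, him]; ring
  have hnorm : |t| / 2 ≤ ‖z‖ := by
    have := abs_im_le_norm z
    rw [him, abs_div] at this
    simpa using this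
  have hzpos : 0 < ‖z‖ := by linarith
  have h1 := norm_digamma_sub_log_le hz
  have h2 : |(logDeriv Complex.Gamma z - Complex.log z).re| ≤ 2 / ‖z‖ ^ 2 + 2 / ‖z‖ :=
    (abs_re_le_norm _).trans h1
  rw [sub_re, Complex.log_re] at h2
  have h3 : 2 / ‖z‖ ^ 2 + 2 / ‖z‖ ≤ 12 / |t| := by
    have e1 : 2 / ‖z‖ ≤ 4 / |t| := by
      rw [div_le_div_iff₀ hzpos htpos]; linarith
    have e2 : 2 / ‖z‖ ^ 2 ≤ 8 / |t| := by
      rw [div_le_div_iff₀ (by positivity) htpos]
      nlinarith [pow_le_pow_left₀ (by positivity) hnorm 2]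
    have e3 : 4 / |t| + 8 / |t| = 12 / |t| := by ring
    linarith
  have h4 : |Real.log ‖z‖ - Real.log (|t| / 2)| ≤ 5 / |t| := by
    have hge : 0 ≤ Real.log ‖z‖ - Real.log (|t| / 2) := by
      have := Real.log_le_log (by positivity) hnorm
      linarith
    rw [abs_of_nonneg hge, ← Real.log_div hzpos.ne' (by positivity)]
    have hsq : (‖z‖ / (|t| / 2)) ^ 2 = 1 + σ ^ 2 / t ^ 2 := by
      rw [div_pow, hnormsq, div_pow, sq_abs]
      have ht0 : t ≠ 0 := by
        intro h; rw [h, abs_zero] at htpos; exact lt_irrefl _ htpos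
      field_simp
      ring
    have h5 : 2 * Real.log (‖z‖ / (|t| / 2)) = Real.log (1 + σ ^ 2 / t ^ 2) := by
      rw [← hsq, Real.log_pow]; norm_num
    have h6 : Real.log (1 + σ ^ 2 / t ^ 2) ≤ σ ^ 2 / t ^ 2 := by
      have := Real.log_le_sub_one_of_pos (show 0 < 1 + σ ^ 2 / t ^ 2 by positivity)
      linarith
    have h7 : σ ^ 2 / t ^ 2 ≤ 9 / |t| := by
      rw [← sq_abs t, div_le_div_iff₀ (by positivity) htpos]
      nlinarith [mul_le_mul hσ3 hσ3 (by linarith) (by linarith), sq_nonneg σ]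
    have h8 : (9 / |t|) / 2 ≤ 5 / |t| := by
      rw [div_div, div_le_div_iff₀ (by positivity) htpos]
      nlinarith
    linarith
  calc |(logDeriv Complex.Gamma z).re - Real.log (|t| / 2)|
      ≤ |(logDeriv Complex.Gamma z).re - Real.log ‖z‖| +
        |Real.log ‖z‖ - Real.log (|t| / 2)| := abs_sub_le _ _ _
    _ ≤ 12 / |t| + 5 / |t| := add_le_add (h2.trans h3) h4
    _ = 17 / |t| := by ring

end Pool.Agent.Hadamard
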