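import Pool.Agent.Lib.Hadamard.Xi
import Mathlib.NumberTheory.Harmonic.ZetaAsymp

/-!
# Conjugation symmetry of the zeros of zeta, with multiplicity
-/

open Complex Filter Topology
open scoped ComplexConjugate

namespace Pool.Agent.Hadamard

lemma analyticAt_conj_conj {g : ℂ → ℂ} {z : ℂ} (hg : AnalyticAt ℂ g z) :
    AnalyticAt ℂ (fun w => conj (g (conj w))) (conj z) := by
  have h1 := hg.eventually_analyticAt
  have h2 : ∀ᶠ w in 𝓝 (conj z), AnalyticAt ℂ g (conj w) := by
    have hc : Tendsto (fun w : ℂ => conj w) (𝓝 (conj z)) (𝓝 z) := by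
      have := Complex.continuous_conj.tendsto (conj z)
      simpa using this
    exact hc.eventually h1
  rw [Complex.analyticAt_iff_eventually_differentiableAt]
  filter_upwards [h2] with w hw
  exact differentiableAt_conj_conj_iff.mpr hw.differentiableAt

lemma ntz_conj {ρ : ℂ} : conj ρ ∈ ntz ↔ ρ ∈ ntz := by
  unfold ntz
  simp only [Set.mem_ofPred_eq, riemannZeta_conj, map_eq_zero, conj_re]

lemma analyticOrderAt_conj {ρ : ℂ} (h : AnalyticAt ℂ riemannZeta ρ)
    (hft : analyticOrderAt riemannZeta ρ ≠ ⊤) :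
    analyticOrderAt riemannZeta (conj ρ) = analyticOrderAt riemannZeta ρ := by
  obtain ⟨n, hn⟩ := ENat.ne_top_iff_exists.mp hft
  rw [← hn]
  have h1 := (h.analyticOrderAt_eq_natCast).mp hn.symm
  obtain ⟨g, hg, hg0, hev⟩ := h1
  have hconjan : AnalyticAt ℂ riemannZeta (conj ρ) := by
    have := analyticAt_conj_conj h
    refine this.congr (Eventually.of_forall fun w => ?_)
    simp only [riemannZeta_conj, Complex.conj_conj]
  rw [hconjan.analyticOrderAt_eq_natCast]
  refine ⟨fun w => conj (g (conj w)), analyticAt_conj_conj hg, ?_, ?_⟩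
  · simpa using hg0
  · have hc : Tendsto (fun w : ℂ => conj w) (𝓝 (conj ρ)) (𝓝 ρ) := by
      have := Complex.continuous_conj.tendsto (conj ρ)
      simpa using this
    filter_upwards [hc.eventually hev] with w hw
    have h2 : riemannZeta w = conj (riemannZeta (conj w)) := by
      simp only [riemannZeta_conj, Complex.conj_conj]
    rw [h2, hw]
    simp

lemma order_zeta_ne_top {ρ : ℂ} (h : ρ ∈ ntz) : analyticOrderAt riemannZeta ρ ≠ ⊤ := by
  rw [← order_xiF_eq h.2.1 (by rintro rfl; simpa using h.2.2)]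
  exact order_ne_top xiF_differentiable (w := 0) (by rw [xiF_zero]; exact one_ne_zero) ρ

lemma mult_conj {ρ : ℂ} (h : ρ ∈ ntz) : mult (conj ρ) = mult ρ := by
  unfold mult analyticOrderNatAt
  rw [analyticOrderAt_conj (zeta_analyticAt (by rintro rfl; simpa using h.2.2))
    (order_zeta_ne_top h)]

/-- The involution `ρ ↦ 1 - conj ρ`. -/
noncomputable def ntzRefl : ntz ≃ ntz where
  toFun ρ := ⟨1 - conj (ρ:ℂ), ntz_one_sub.mpr (ntz_conj.mpr ρ.2)⟩
  invFun ρ := ⟨1 - conj (ρ:ℂ), ntz_one_sub.mpr (ntz_conj.mpr ρ.2)⟩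
  left_inv ρ := by simp
  right_inv ρ := by simp

lemma ntzRefl_re (ρ : ntz) : ((ntzRefl ρ : ntz) : ℂ).re = 1 - (ρ:ℂ).re := by
  simp [ntzRefl]

lemma ntzRefl_im (ρ : ntz) : ((ntzRefl ρ : ntz) : ℂ).im = (ρ:ℂ).im := by
  simp [ntzRefl]

lemma mult_ntzRefl (ρ : ntz) : mult (ntzRefl ρ : ntz) = mult ρ := by
  show mult (1 - conj (ρ:ℂ)) = mult ρ
  rw [mult_one_sub (ntz_conj.mpr ρ.2), mult_conj ρ.2]

instance countable_ntz : Countable ntz := by
  have h := summable_mult.countable_support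
  have h2 : Function.support (fun ρ : ntz => (mult ρ : ℝ) / (1 + ‖(ρ:ℂ)‖ ^ 2)) = Set.univ := by
    ext ρ
    simp only [Function.mem_support, Set.mem_univ, iff_true]
    have h1 : (0:ℝ) < mult ρ := by exact_mod_cast mult_pos ρ.2
    positivity
  rw [h2] at h
  exact Set.countable_univ_iff.mp h

end Pool.Agent.Hadamard
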