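import Pool.Agent.Lib.Hadamard.Quot

/-!
# Entire functions of order less than two: partial fractions of the logarithmic derivative
-/

open Complex Metric Set Filter Topology

namespace Pool.Agent.Hadamard

/-- Existence of a holomorphic logarithm on a disc with a bound of its second derivative. -/
lemma norm_logDeriv_sub_le_of_zero_free {g : ℂ → ℂ} (hg : Differentiable ℂ g) {r A : ℝ}
    (hr : 0 < r) (hA : 0 < A) (hne : ∀ z, ‖z‖ < r → g z ≠ 0)
    (hM : ∀ z, ‖z‖ < r → ‖g z‖ ≤ ‖g 0‖ * Real.exp A) {z w : ℂ} (hz : ‖z‖ ≤ r / 8)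
    (hw : ‖w‖ ≤ r / 8) :
    ‖logDeriv g z - logDeriv g w‖ ≤ 64 * A / r ^ 2 * ‖z - w‖ := by
  have hg0 : g 0 ≠ 0 := hne 0 (by simpa using hr)
  have hdiff : DifferentiableOn ℂ (fun z => deriv g z / g z) (ball 0 r) := by
    intro x hx
    have hx' : ‖x‖ < r := by simpa using hx
    exact ((hg.differentiableOn.deriv isOpen_univ).differentiableAt
      (isOpen_univ.mem_nhds (mem_univ x)) |>.div (hg x) (hne x hx')).differentiableWithinAt
  obtain ⟨h, hh0, hh⟩ := (hdiff.isExactOn_ball).with_val_at 0 0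
  have hhd : DifferentiableOn ℂ h (ball 0 r) :=
    fun x hx => (hh x hx).differentiableAt.differentiableWithinAt
  -- g = g 0 * exp h
  have hconst : ∀ x ∈ ball (0:ℂ) r, g x * exp (-h x) = g 0 := by
    intro x hx
    have hd : ∀ y ∈ ball (0:ℂ) r, HasDerivAt (fun y => g y * exp (-h y)) 0 y := by
      intro y hy
      have hy' : ‖y‖ < r := by simpa using hy
      have h1 := ((hg y).hasDerivAt).mul ((hh y hy).neg.cexp)
      convert! h1 using 1
      have := hne y hy'
      simp only [Pi.neg_apply]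
      field_simp
      ring
    have hcon := (isOpen_ball (x := (0:ℂ)) (ε := r)).is_const_of_deriv_eq_zero
      (convex_ball (0:ℂ) r).isPreconnected
      (fun y hy => (hd y hy).differentiableAt.differentiableWithinAt)
      (fun y hy => (hd y hy).deriv) hx (mem_ball_self hr)
    simpa [hh0] using hcon
  have hexp : ∀ x ∈ ball (0:ℂ) r, g x = g 0 * exp (h x) := by
    intro x hx
    rw [← hconst x hx, mul_assoc, ← exp_add]; simp
  have hre : MapsTo h (ball 0 r) {z | z.re ≤ A} := by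
    intro x hx
    have hx' : ‖x‖ < r := by simpa using hx
    have h1 := hM x hx'
    rw [hexp x hx, norm_mul, norm_exp] at h1
    have h2 := le_of_mul_le_mul_left h1 (norm_pos_iff.mpr hg0)
    exact Real.exp_le_exp.mp h2
  have hbound : ∀ x, ‖x‖ ≤ r / 2 → ‖h x‖ ≤ 2 * A := by
    intro x hx
    have hxr : x ∈ ball (0:ℂ) r := by simp; linarith
    refine (borelCaratheodory_zero hA hhd hre hr hxr hh0).trans ?_
    rw [div_le_iff₀ (by linarith)]
    nlinarith
  have hderiv : ∀ x ∈ ball (0:ℂ) r, deriv h x = logDeriv g x := by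
    intro x hx
    rw [(hh x hx).deriv, logDeriv_apply]
  have hopen : IsOpen (ball (0:ℂ) r) := isOpen_ball
  have hhan : ∀ x ∈ ball (0:ℂ) r, DifferentiableAt ℂ (deriv h) x := fun x hx =>
    (hhd.deriv hopen).differentiableAt (hopen.mem_nhds hx)
  have hb1 : ∀ x, ‖x‖ ≤ r / 4 → ‖deriv h x‖ ≤ 8 * A / r := by
    intro x hx
    have hsub : closedBall x (r/4) ⊆ ball 0 r := by
      intro y hy
      have : ‖y - x‖ ≤ r / 4 := by simpa [dist_eq_norm] using hy
      have h3 : ‖y‖ ≤ ‖x‖ + ‖y - x‖ := by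
        have := norm_add_le x (y - x); simpa using this
      simp; linarith
    have h1 := Complex.norm_deriv_le_of_forall_mem_sphere_norm_le (c := x) (R := r/4) (C := 2 * A)
      (f := h) (by linarith) ((hhd.mono hsub).diffContOnCl_ball (fun y hy => hy)) (by
        intro y hy
        apply hbound
        have : ‖y - x‖ = r / 4 := by simpa [dist_eq_norm] using hy
        have h3 : ‖y‖ ≤ ‖x‖ + ‖y - x‖ := by
          have := norm_add_le x (y - x); simpa using this
        linarith)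
    refine h1.trans (le_of_eq ?_)
    field_simp; ring
  have hb2 : ∀ x, ‖x‖ ≤ r / 8 → ‖deriv (deriv h) x‖ ≤ 64 * A / r ^ 2 := by
    intro x hx
    have hsub : closedBall x (r/8) ⊆ ball 0 r := by
      intro y hy
      have : ‖y - x‖ ≤ r / 8 := by simpa [dist_eq_norm] using hy
      have h3 : ‖y‖ ≤ ‖x‖ + ‖y - x‖ := by
        have := norm_add_le x (y - x); simpa using this
      simp; linarith
    have h1 := Complex.norm_deriv_le_of_forall_mem_sphere_norm_le (c := x) (R := r/8)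
      (C := 8 * A / r)
      (f := deriv h) (by linarith)
      (((hhd.deriv hopen).mono hsub).diffContOnCl_ball (fun y hy => hy)) (by
        intro y hy
        apply hb1
        have : ‖y - x‖ = r / 8 := by simpa [dist_eq_norm] using hy
        have h3 : ‖y‖ ≤ ‖x‖ + ‖y - x‖ := by
          have := norm_add_le x (y - x); simpa using this
        linarith)
    refine h1.trans (le_of_eq ?_)
    field_simp; ring
  have hzb : z ∈ ball (0:ℂ) r := by simp; linarith
  have hwb : w ∈ ball (0:ℂ) r := by simp; linarith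
  rw [← hderiv z hzb, ← hderiv w hwb]
  have hconv : Convex ℝ (closedBall (0:ℂ) (r/8)) := convex_closedBall _ _
  exact hconv.norm_image_sub_le_of_norm_deriv_le (f := deriv h)
    (fun x hx => hhan x (by
      have : ‖x‖ ≤ r / 8 := by simpa using hx
      simp; linarith))
    (fun x hx => hb2 x (by simpa using hx)) (by simpa using hw) (by simpa using hz)

lemma logDeriv_one_sub_div {a z : ℂ} (ha : a ≠ 0) (hza : z ≠ a) :
    logDeriv (fun z : ℂ => 1 - z / a) z = 1 / (z - a) := by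
  have h1 : HasDerivAt (fun z : ℂ => 1 - z / a) (-(1 / a)) z := by
    have := ((hasDerivAt_id z).div_const a).const_sub 1
    simpa using this
  rw [logDeriv_apply, h1.deriv]
  have h2 : z - a ≠ 0 := sub_ne_zero.mpr hza
  have h3 : a - z ≠ 0 := sub_ne_zero.mpr hza.symm
  have h4 : (1:ℂ) - z / a = (a - z) / a := by field_simp
  rw [h4]
  field_simp
  ring

/-- Bounds on the quotient. -/
lemma norm_quot_le {f g : ℂ → ℂ} (hg : Differentiable ℂ g) {R M : ℝ}
    (hR : 0 < R) {T : Finset ℂ} (hT : ∀ a ∈ T, a ≠ 0 ∧ ‖a‖ ≤ R) {κ : ℝ} (hκ : 2 ≤ κ)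
    {m : ℂ → ℕ} (hfg : ∀ z, f z = (∏ a ∈ T, (1 - z / a) ^ (m a)) * g z)
    (hM : ∀ z, ‖z‖ = κ * R → ‖f z‖ ≤ M) {z : ℂ} (hz : ‖z‖ ≤ κ * R) :
    (κ - 1) ^ (∑ a ∈ T, m a) * ‖g z‖ ≤ M := by
  have hκR : 0 < κ * R := by positivity
  have hκ1 : (1:ℝ) ≤ κ - 1 := by linarith
  have hpow : (0:ℝ) < (κ - 1) ^ (∑ a ∈ T, m a) := by positivity
  have hfac : ∀ w : ℂ, ‖w‖ = κ * R → (κ - 1) ^ (∑ a ∈ T, m a) * ‖g w‖ ≤ M := by
    intro w hw
    refine le_trans ?_ (hM w hw)
    rw [hfg w, norm_mul]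
    refine mul_le_mul_of_nonneg_right ?_ (norm_nonneg _)
    rw [norm_prod, ← Finset.prod_pow_eq_pow_sum]
    refine Finset.prod_le_prod (fun a _ => by positivity) fun a ha => ?_
    rw [norm_pow]
    refine pow_le_pow_left₀ (by linarith) ?_ _
    obtain ⟨ha0, haR⟩ := hT a ha
    have hapos : 0 < ‖a‖ := norm_pos_iff.mpr ha0
    have h1 : ‖w / a‖ - ‖(1:ℂ)‖ ≤ ‖1 - w / a‖ := by
      have := norm_sub_norm_le (w / a) 1
      rwa [norm_sub_rev] at this
    have h2 : κ ≤ ‖w / a‖ := by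
      rw [norm_div, hw, le_div_iff₀ hapos]
      nlinarith
    have h3 : ‖(1:ℂ)‖ = 1 := norm_one
    linarith
  have hmax := Complex.norm_le_of_forall_mem_frontier_norm_le (U := ball (0:ℂ) (κ * R))
    (f := g) (C := M / (κ - 1) ^ (∑ a ∈ T, m a)) isBounded_ball hg.diffContOnCl (by
      intro w hw
      rw [frontier_ball _ hκR.ne'] at hw
      have hw' : ‖w‖ = κ * R := by simpa using hw
      rw [le_div_iff₀ hpow, mul_comm]
      exact hfac w hw') (z := z) (by
      rw [closure_ball _ hκR.ne']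
      simpa using hz)
  rw [le_div_iff₀ hpow, mul_comm] at hmax
  exact hmax

/-- Counting zeros. -/
lemma zero_count {f : ℂ → ℂ} (hf : Differentiable ℂ f) (h0 : f 0 ≠ 0) {R A : ℝ} (hR : 0 < R)
    (hM : ∀ z, ‖z‖ = 3 * R → ‖f z‖ ≤ ‖f 0‖ * Real.exp A) (T : Finset ℂ)
    (hT : ∀ a ∈ T, f a = 0 ∧ ‖a‖ ≤ R) :
    ((∑ a ∈ T, analyticOrderNatAt f a : ℕ) : ℝ) * Real.log 2 ≤ A := by
  have hT0 : (0:ℂ) ∉ T := fun h => h0 (hT 0 h).1
  obtain ⟨g, hg, -, hfg⟩ := exists_factor_finset hf h0 T hT0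
  have hg0 : g 0 = f 0 := by
    have := hfg 0
    simp at this
    exact this.symm
  have h1 := norm_quot_le (κ := 3) hg hR (T := T)
    (fun a ha => ⟨by rintro rfl; exact hT0 ha, (hT a ha).2⟩) (by norm_num) hfg hM (z := 0)
    (by simp; positivity)
  rw [hg0, mul_comm] at h1
  have h2 := le_of_mul_le_mul_left h1 (norm_pos_iff.mpr h0)
  have h3 : ((3:ℝ) - 1) = 2 := by norm_num
  rw [h3] at h2
  have h4 := Real.log_le_log (by positivity) h2
  rwa [Real.log_pow, Real.log_exp] at h4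

/-- The main local estimate. -/
lemma norm_logDeriv_sub_sum_le {f : ℂ → ℂ} (hf : Differentiable ℂ f) (h0 : f 0 ≠ 0)
    {R r A : ℝ} (hr : 0 < r) (hrR : r ≤ R) (hA : 0 < A)
    (hM : ∀ z, ‖z‖ = 2 * R → ‖f z‖ ≤ ‖f 0‖ * Real.exp A) (T : Finset ℂ)
    (hT : ∀ a ∈ T, f a = 0 ∧ ‖a‖ ≤ R) (hT1 : ∀ a, f a = 0 → ‖a‖ < r → a ∈ T)
    {z w : ℂ} (hz : ‖z‖ ≤ r / 8) (hw : ‖w‖ ≤ r / 8) (hfz : f z ≠ 0) (hfw : f w ≠ 0) :
    ‖(logDeriv f z - logDeriv f w) -
      ∑ a ∈ T, (analyticOrderNatAt f a : ℂ) * (1 / (z - a) - 1 / (w - a))‖ ≤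
      64 * A / r ^ 2 * ‖z - w‖ := by
  have hR : 0 < R := lt_of_lt_of_le hr hrR
  have hT0 : (0:ℂ) ∉ T := fun h => h0 (hT 0 h).1
  obtain ⟨g, hg, hgT, hfg⟩ := exists_factor_finset hf h0 T hT0
  have hg0 : g 0 = f 0 := by
    have := hfg 0
    simp at this
    exact this.symm
  have hgM : ∀ z, ‖z‖ < r → ‖g z‖ ≤ ‖g 0‖ * Real.exp A := by
    intro x hx
    have h1 := norm_quot_le (κ := 2) hg hR (T := T)
      (fun a ha => ⟨by rintro rfl; exact hT0 ha, (hT a ha).2⟩) le_rfl hfg hM (z := x)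
      (by linarith)
    rw [hg0]
    have h3 : ((2:ℝ) - 1) = 1 := by norm_num
    rwa [h3, one_pow, one_mul] at h1
  have hgne : ∀ z, ‖z‖ < r → g z ≠ 0 := by
    intro x hx h
    have hfx : f x = 0 := by rw [hfg x, h, mul_zero]
    exact hgT x (hT1 x hfx hx) h
  have key := norm_logDeriv_sub_le_of_zero_free hg hr hA hgne hgM hz hw
  have hlog : ∀ x, f x ≠ 0 → logDeriv f x =
      (∑ a ∈ T, (analyticOrderNatAt f a : ℂ) * (1 / (x - a))) + logDeriv g x := by
    intro x hx
    have hfx := hfg x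
    have hne : (∏ a ∈ T, (1 - x / a) ^ (analyticOrderNatAt f a)) ≠ 0 := by
      intro h; apply hx; rw [hfx, h, zero_mul]
    have hgx : g x ≠ 0 := by
      intro h; apply hx; rw [hfx, h, mul_zero]
    have hfeq : f = fun x => (∏ a ∈ T, (1 - x / a) ^ (analyticOrderNatAt f a)) * g x :=
      funext hfg
    have hd : ∀ a ∈ T, DifferentiableAt ℂ
        (fun x : ℂ => (1 - x / a) ^ (analyticOrderNatAt f a)) x := fun a _ => by fun_prop
    have hfa : ∀ a ∈ T, (1 - x / a) ^ (analyticOrderNatAt f a) ≠ 0 :=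
      Finset.prod_ne_zero_iff.mp hne
    conv_lhs => rw [hfeq]
    rw [logDeriv_mul (f := fun x => ∏ a ∈ T, (1 - x / a) ^ (analyticOrderNatAt f a)) x hne hgx
      (DifferentiableAt.fun_finsetProd hd) (hg x)]
    congr 1
    rw [logDeriv_prod (f := fun a x => (1 - x / a) ^ (analyticOrderNatAt f a)) hfa hd]
    refine Finset.sum_congr rfl fun a ha => ?_
    have hfa0 : f a = 0 := (hT a ha).1
    have hxa : x ≠ a := by rintro rfl; exact hx hfa0
    have ha0 : a ≠ 0 := by rintro rfl; exact hT0 ha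
    rw [logDeriv_fun_pow (by fun_prop), logDeriv_one_sub_div ha0 hxa]
  rw [hlog z hfz, hlog w hfw]
  have : (∑ a ∈ T, (analyticOrderNatAt f a : ℂ) * (1 / (z - a))) + logDeriv g z -
      ((∑ a ∈ T, (analyticOrderNatAt f a : ℂ) * (1 / (w - a))) + logDeriv g w) -
      ∑ a ∈ T, (analyticOrderNatAt f a : ℂ) * (1 / (z - a) - 1 / (w - a)) =
      logDeriv g z - logDeriv g w := by
    simp only [mul_sub, Finset.sum_sub_distrib]
    ring
  rw [this]
  exact key

end Pool.Agent.Hadamard
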