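import Mathlib

/-!
# Fejer-type weight with compactly supported Fourier transform, exact mean value theorem
-/

open Complex Set Filter Topology MeasureTheory
open scoped FourierTransform RealInnerProductSpace

namespace Pool.Agent.Hadamard

/-- The triangle function. -/
noncomputable def tri (x : ℝ) : ℝ := max 0 (1 - |x|)

lemma tri_nonneg (x : ℝ) : 0 ≤ tri x := le_max_left _ _

lemma tri_continuous : Continuous tri := by
  unfold tri; fun_prop

lemma tri_zero : tri 0 = 1 := by simp [tri]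

lemma tri_eq_zero {x : ℝ} (hx : 1 ≤ |x|) : tri x = 0 := by
  unfold tri; rw [max_eq_left]; linarith

lemma tri_neg (x : ℝ) : tri (-x) = tri x := by simp [tri]

lemma tri_le_one (x : ℝ) : tri x ≤ 1 := by
  unfold tri
  exact max_le zero_le_one (by linarith [abs_nonneg x])

lemma tri_hasCompactSupport : HasCompactSupport tri := by
  refine HasCompactSupport.intro (isCompact_Icc (a := (-1:ℝ)) (b := 1)) fun x hx => ?_
  refine tri_eq_zero ?_
  by_contra h
  push Not at h
  exact hx ⟨by linarith [(abs_lt.mp h).1], by linarith [(abs_lt.mp h).2]⟩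

lemma triC_integrable : Integrable (fun x : ℝ => (tri x : ℂ)) := by
  have h1 : Integrable tri := tri_continuous.integrable_of_hasCompactSupport tri_hasCompactSupport
  exact h1.ofReal

/-- The Fourier transform of the triangle function. -/
lemma fourier_tri (ξ : ℝ) :
    𝓕 (fun x : ℝ => (tri x : ℂ)) ξ = ((Real.sinc (Real.pi * ξ) ^ 2 : ℝ) : ℂ) := by
  rw [Real.fourier_real_eq_integral_exp_smul]
  -- reduce to the interval [-1,1]
  have hsupp : ∀ x : ℝ, x ∉ Ioc (-1:ℝ) 1 →
      Complex.exp (↑(-2 * Real.pi * x * ξ) * I) • (tri x : ℂ) = 0 := by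
    intro x hx
    have : tri x = 0 := by
      refine tri_eq_zero ?_
      by_contra h
      push Not at h
      exact hx ⟨by linarith [(abs_lt.mp h).1], by linarith [(abs_lt.mp h).2]⟩
    rw [this]; simp
  rw [← setIntegral_eq_integral_of_forall_compl_eq_zero (s := Ioc (-1:ℝ) 1) hsupp,
    ← intervalIntegral.integral_of_le (by norm_num)]
  set c : ℂ := -(2 * Real.pi * ξ) * I with hc
  have hcont : Continuous fun x : ℝ => Complex.exp (↑(-2 * Real.pi * x * ξ) * I) • (tri x : ℂ) := by
    have := tri_continuous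
    fun_prop
  rw [← intervalIntegral.integral_add_adjacent_intervals (b := 0)
    (hcont.intervalIntegrable _ _) (hcont.intervalIntegrable _ _)]
  have e1 : ∫ x in (-1:ℝ)..0, Complex.exp (↑(-2 * Real.pi * x * ξ) * I) • (tri x : ℂ) =
      ∫ x in (-1:ℝ)..0, Complex.exp (c * x) * (1 + x) := by
    refine intervalIntegral.integral_congr fun x hx => ?_
    rw [uIcc_of_le (by norm_num)] at hx
    have ht : tri x = 1 + x := by
      unfold tri
      rw [abs_of_nonpos hx.2, max_eq_right] <;> linarith [hx.1]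
    simp only [smul_eq_mul]
    rw [ht, hc]
    push_cast
    ring_nf
  have e2 : ∫ x in (0:ℝ)..1, Complex.exp (↑(-2 * Real.pi * x * ξ) * I) • (tri x : ℂ) =
      ∫ x in (0:ℝ)..1, Complex.exp (c * x) * (1 - x) := by
    refine intervalIntegral.integral_congr fun x hx => ?_
    rw [uIcc_of_le (by norm_num)] at hx
    have ht : tri x = 1 - x := by
      unfold tri
      rw [abs_of_nonneg hx.1, max_eq_right] ; linarith [hx.2]
    simp only [smul_eq_mul]
    rw [ht, hc]
    push_cast
    ring_nf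
  rw [e1, e2]
  by_cases hξ : ξ = 0
  · have hc0 : c = 0 := by rw [hc, hξ]; simp
    rw [hc0, hξ]
    simp only [zero_mul, Complex.exp_zero, one_mul, mul_zero, Real.sinc_zero, one_pow]
    have f1 : ∫ x in (-1:ℝ)..0, (1 + (x:ℂ)) = 1 / 2 := by
      have : ∫ x in (-1:ℝ)..0, (1 + (x:ℂ)) = ((∫ x in (-1:ℝ)..0, (1 + x) : ℝ) : ℂ) := by
        rw [← intervalIntegral.integral_ofReal]; push_cast; rfl
      rw [this, intervalIntegral.integral_add (by simp) (by simp)]
      simp; norm_num
    have f2 : ∫ x in (0:ℝ)..1, (1 - (x:ℂ)) = 1 / 2 := by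
      have : ∫ x in (0:ℝ)..1, (1 - (x:ℂ)) = ((∫ x in (0:ℝ)..1, (1 - x) : ℝ) : ℂ) := by
        rw [← intervalIntegral.integral_ofReal]; push_cast; rfl
      rw [this, intervalIntegral.integral_sub (by simp) (by simp)]
      simp; norm_num
    rw [f1, f2]
    norm_num
  · have hpi : (Real.pi : ℂ) ≠ 0 := by exact_mod_cast Real.pi_ne_zero
    have hξC : (ξ : ℂ) ≠ 0 := by exact_mod_cast hξ
    have hc0 : c ≠ 0 := by
      rw [hc]
      simp only [ne_eq, mul_eq_zero, neg_eq_zero, not_or]
      exact ⟨⟨⟨two_ne_zero, hpi⟩, hξC⟩, I_ne_zero⟩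
    have hexp : ∀ x : ℝ, HasDerivAt (fun x : ℝ => Complex.exp (c * x)) (c * Complex.exp (c * x)) x := by
      intro x
      have h1 : HasDerivAt (fun x : ℝ => c * (x:ℂ)) (c * 1) x :=
        (Complex.ofRealCLM.hasDerivAt (x := x)).const_mul c
      have h2 := h1.cexp
      convert h2 using 1; ring
    have hid : ∀ x : ℝ, HasDerivAt (fun x : ℝ => (x:ℂ)) 1 x := fun x =>
      Complex.ofRealCLM.hasDerivAt (x := x)
    have g1 : ∫ x in (-1:ℝ)..0, Complex.exp (c * x) * (1 + x) =
        1 / c - 1 / c ^ 2 + Complex.exp (-c) / c ^ 2 := by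
      have hd : ∀ x ∈ uIcc (-1:ℝ) 0, HasDerivAt
          (fun x : ℝ => Complex.exp (c * x) * ((1 + x) / c - 1 / c ^ 2))
          (Complex.exp (c * x) * (1 + x)) x := by
        intro x _
        have h3 : HasDerivAt (fun x : ℝ => ((1 + (x:ℂ)) / c - 1 / c ^ 2)) (1 / c) x := by
          simpa using (((hid x).const_add 1).div_const c).sub_const (1 / c ^ 2)
        have h4 := (hexp x).mul h3
        refine h4.congr_deriv ?_
        field_simp
        ring
      rw [intervalIntegral.integral_eq_sub_of_hasDerivAt hd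
        (Continuous.intervalIntegrable (by fun_prop) _ _)]
      push_cast
      simp only [mul_zero, Complex.exp_zero, mul_neg, mul_one]
      field_simp
      ring
    have g2 : ∫ x in (0:ℝ)..1, Complex.exp (c * x) * (1 - x) =
        Complex.exp c / c ^ 2 - 1 / c - 1 / c ^ 2 := by
      have hd : ∀ x ∈ uIcc (0:ℝ) 1, HasDerivAt
          (fun x : ℝ => Complex.exp (c * x) * ((1 - x) / c + 1 / c ^ 2))
          (Complex.exp (c * x) * (1 - x)) x := by
        intro x _
        have h3 : HasDerivAt (fun x : ℝ => ((1 - (x:ℂ)) / c + 1 / c ^ 2)) (-1 / c) x := by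
          simpa using (((hid x).const_sub 1).div_const c).add_const (1 / c ^ 2)
        have h4 := (hexp x).mul h3
        refine h4.congr_deriv ?_
        field_simp
        ring
      rw [intervalIntegral.integral_eq_sub_of_hasDerivAt hd
        (Continuous.intervalIntegrable (by fun_prop) _ _)]
      push_cast
      simp only [mul_zero, Complex.exp_zero, mul_one]
      field_simp
      ring
    rw [g1, g2]
    have hpx : Real.pi * ξ ≠ 0 := mul_ne_zero Real.pi_ne_zero hξ
    rw [Real.sinc_of_ne_zero hpx]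
    have hexpc : Complex.exp c + Complex.exp (-c) = 2 * Complex.cos (2 * (Real.pi * ξ)) := by
      rw [Complex.cos, hc]
      ring_nf
    have hcos : Complex.cos (2 * (Real.pi * ξ)) = 1 - 2 * Complex.sin (Real.pi * ξ) ^ 2 := by
      rw [Complex.cos_two_mul, Complex.cos_sq']; ring
    have hc2 : c ^ 2 = - (4 * (Real.pi * ξ) ^ 2) := by
      rw [hc, mul_pow, I_sq]; ring
    have hsum : 1 / c - 1 / c ^ 2 + Complex.exp (-c) / c ^ 2 +
        (Complex.exp c / c ^ 2 - 1 / c - 1 / c ^ 2) =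
        (Complex.exp c + Complex.exp (-c) - 2) / c ^ 2 := by
      field_simp; ring
    rw [hsum, hexpc, hcos, hc2]
    push_cast
    field_simp
    ring

lemma sinc_sq_le (x : ℝ) : Real.sinc x ^ 2 ≤ 2 * (1 + x ^ 2)⁻¹ := by
  by_cases hx : x = 0
  · rw [hx]; simp
  rw [← div_eq_mul_inv, le_div_iff₀ (by positivity)]
  have h1 : Real.sinc x ^ 2 ≤ 1 := by
    have := Real.abs_sinc_le_one x
    rw [← sq_abs]; exact pow_le_one₀ (abs_nonneg _) this
  have h2 : Real.sinc x ^ 2 * x ^ 2 ≤ 1 := by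
    rw [Real.sinc_of_ne_zero hx, div_pow, div_mul_cancel₀ _ (pow_ne_zero 2 hx)]
    exact Real.sin_sq_le_one x
  nlinarith

lemma sinc_sq_integrable {c : ℝ} (hc : c ≠ 0) : Integrable (fun x : ℝ => Real.sinc (c * x) ^ 2) := by
  have h1 : Integrable (fun x : ℝ => 2 * (1 + (c * x) ^ 2)⁻¹) :=
    ((integrable_inv_one_add_sq.comp_mul_left' hc).const_mul 2)
  refine h1.mono' ?_ ?_
  · have := Real.continuous_sinc
    exact (Continuous.aestronglyMeasurable (by fun_prop))
  · refine Eventually.of_forall fun x => ?_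
    rw [Real.norm_eq_abs, abs_of_nonneg (by positivity)]
    exact sinc_sq_le (c * x)

/-- Fourier inversion for the triangle function. -/
lemma integral_exp_sinc_sq (v : ℝ) :
    ∫ ξ : ℝ, Complex.exp ((2 * Real.pi * (ξ * v) : ℝ) * I) * ((Real.sinc (Real.pi * ξ) ^ 2 : ℝ) : ℂ) =
      (tri v : ℂ) := by
  have hFT : 𝓕 (fun x : ℝ => (tri x : ℂ)) = fun ξ : ℝ => ((Real.sinc (Real.pi * ξ) ^ 2 : ℝ) : ℂ) :=
    funext fourier_tri
  have hint : Integrable (𝓕 (fun x : ℝ => (tri x : ℂ))) := by
    rw [hFT]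
    exact (sinc_sq_integrable Real.pi_ne_zero).ofReal
  have hcont : Continuous (fun x : ℝ => (tri x : ℂ)) := by
    have := tri_continuous; fun_prop
  have h := congrFun (hcont.fourierInv_fourier_eq triC_integrable hint) v
  rw [hFT, Real.fourierInv_eq'] at h
  rw [← h]
  refine integral_congr_ae (Eventually.of_forall fun ξ => ?_)
  simp only [smul_eq_mul]
  congr 3
  simp [mul_comm]

/-- The weight `5/4 * sinc(t/2)^2`. -/
noncomputable def fejerW (t : ℝ) : ℝ := 5 / 4 * Real.sinc (t / 2) ^ 2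

lemma fejerW_nonneg (t : ℝ) : 0 ≤ fejerW t := by unfold fejerW; positivity

lemma fejerW_continuous : Continuous fejerW := by
  have := Real.continuous_sinc
  unfold fejerW; fun_prop

lemma fejerW_integrable : Integrable fejerW := by
  unfold fejerW
  have h := (sinc_sq_integrable (c := 1 / 2) (by norm_num)).const_mul (5 / 4)
  refine h.congr (Eventually.of_forall fun x => ?_)
  simp only
  congr 3; ring

lemma fejerW_ge_one {t : ℝ} (ht : |t| ≤ 1) : 1 ≤ fejerW t := by
  unfold fejerW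
  have key : 23 / 24 ≤ Real.sinc (t / 2) := by
    by_cases h0 : t = 0
    · rw [h0]; simp; norm_num
    have hpos : 0 < |t / 2| := abs_pos.mpr (by
      intro h; apply h0; linarith)
    have hle : |t / 2| ≤ 1 / 2 := by
      rw [abs_div]; norm_num; linarith
    have hs : Real.sinc (t / 2) = Real.sinc |t / 2| := by
      rcases abs_cases (t / 2) with h | h
      · rw [h.1]
      · rw [h.1, Real.sinc_neg]
    rw [hs, Real.sinc_of_ne_zero hpos.ne', le_div_iff₀ hpos]
    have h1 := Real.sin_gt_sub_cube hpos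
    nlinarith [pow_le_pow_left₀ hpos.le hle 2]
  nlinarith

/-- The Fourier transform of the weight. -/
lemma integral_exp_fejerW (v : ℝ) :
    ∫ t : ℝ, Complex.exp ((t * v : ℝ) * I) * (fejerW t : ℂ) =
      ((5 / 2 * Real.pi * tri v : ℝ) : ℂ) := by
  have h := integral_exp_sinc_sq v
  have h2 := Measure.integral_comp_mul_left
    (fun t : ℝ => Complex.exp ((t * v : ℝ) * I) * ((Real.sinc (t / 2) ^ 2 : ℝ) : ℂ)) (2 * Real.pi)
  have h3 : (∫ x : ℝ, Complex.exp ((2 * Real.pi * x * v : ℝ) * I) *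
      ((Real.sinc (2 * Real.pi * x / 2) ^ 2 : ℝ) : ℂ)) = (tri v : ℂ) := by
    rw [← h]
    refine integral_congr_ae (Eventually.of_forall fun ξ => ?_)
    simp only
    congr 3
    · congr 1; ring
    · congr 2; ring
  rw [h3] at h2
  have hpi : (2 * Real.pi) ≠ 0 := by positivity
  have h4 : ∫ t : ℝ, Complex.exp ((t * v : ℝ) * I) * ((Real.sinc (t / 2) ^ 2 : ℝ) : ℂ) =
      ((2 * Real.pi * tri v : ℝ) : ℂ) := by
    rw [abs_of_pos (by positivity)] at h2
    rw [Complex.real_smul] at h2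
    rw [Complex.ofReal_mul, h2, ← mul_assoc, ← Complex.ofReal_mul, mul_inv_cancel₀ hpi,
      Complex.ofReal_one, one_mul]
  have h5 : ∫ t : ℝ, Complex.exp ((t * v : ℝ) * I) * (fejerW t : ℂ) =
      (5 / 4 : ℂ) * ∫ t : ℝ, Complex.exp ((t * v : ℝ) * I) * ((Real.sinc (t / 2) ^ 2 : ℝ) : ℂ) := by
    rw [← integral_const_mul]
    refine integral_congr_ae (Eventually.of_forall fun ξ => ?_)
    simp only [fejerW]
    push_cast
    ring
  rw [h5, h4]
  push_cast
  ring

lemma integral_fejerW : ∫ t : ℝ, fejerW t = 5 / 2 * Real.pi := by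
  have h := integral_exp_fejerW 0
  simp only [mul_zero, ofReal_zero, zero_mul, Complex.exp_zero, one_mul, tri_zero, mul_one] at h
  rw [integral_complex_ofReal] at h
  exact_mod_cast h

lemma integral_exp_fejerW_scaled {T : ℝ} (hT : 0 < T) (v : ℝ) :
    ∫ t : ℝ, Complex.exp ((t * v : ℝ) * I) * (fejerW (t / T) : ℂ) =
      ((5 / 2 * Real.pi * T * tri (T * v) : ℝ) : ℂ) := by
  have h := Measure.integral_comp_div
    (fun t : ℝ => Complex.exp ((t * (T * v) : ℝ) * I) * (fejerW t : ℂ)) T
  rw [integral_exp_fejerW, abs_of_pos hT, Complex.real_smul] at h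
  have h2 : ∀ t : ℝ, t / T * (T * v) = t * v := by
    intro t; field_simp
  simp only [h2] at h
  rw [h]
  push_cast
  ring

lemma exp_fejerW_integrable {T : ℝ} (hT : 0 < T) (v : ℝ) :
    Integrable (fun t : ℝ => Complex.exp ((t * v : ℝ) * I) * (fejerW (t / T) : ℂ)) := by
  have h1 : Integrable (fun t : ℝ => fejerW (t / T)) := by
    have := fejerW_integrable.comp_div hT.ne'
    exact this
  refine h1.mono' ?_ ?_
  · have := fejerW_continuous
    exact Continuous.aestronglyMeasurable (by fun_prop)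
  · refine Eventually.of_forall fun t => ?_
    rw [norm_mul, Complex.norm_exp_ofReal_mul_I, one_mul, Complex.norm_real, Real.norm_eq_abs,
      abs_of_nonneg (fejerW_nonneg _)]

section MeanValue

variable {ι : Type*} (S : Finset ι) (lam : ι → ℝ) (a : ι → ℂ)

lemma normSq_sum_expand (t : ℝ) :
    ((‖∑ k ∈ S, a k * Complex.exp (-(lam k * t : ℝ) * I)‖ ^ 2 : ℝ) : ℂ) =
      ∑ j ∈ S, ∑ k ∈ S, (a k * (starRingEnd ℂ) (a j)) *
        Complex.exp ((t * (lam j - lam k) : ℝ) * I) := by
  have h1 : ∀ z : ℂ, ((‖z‖ ^ 2 : ℝ) : ℂ) = (starRingEnd ℂ) z * z := by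
    intro z
    rw [← Complex.normSq_eq_norm_sq, Complex.normSq_eq_conj_mul_self]
  rw [h1, map_sum, Finset.sum_mul_sum]
  refine Finset.sum_congr rfl fun j _ => Finset.sum_congr rfl fun k _ => ?_
  rw [map_mul, ← Complex.exp_conj]
  have h2 : (starRingEnd ℂ) (-(lam j * t : ℝ) * I) = (lam j * t : ℝ) * I := by
    rw [map_mul, map_neg, Complex.conj_I, Complex.conj_ofReal]; ring
  rw [h2]
  have h3 : Complex.exp ((t * (lam j - lam k) : ℝ) * I) =
      Complex.exp ((lam j * t : ℝ) * I) * Complex.exp (-(lam k * t : ℝ) * I) := by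
    rw [← Complex.exp_add]; congr 1; push_cast; ring
  rw [h3]; ring

/-- Exact evaluation of the weighted mean square of an exponential polynomial. -/
theorem fejer_mean_value_general {T : ℝ} (hT : 0 < T) :
    ((∫ t : ℝ, ‖∑ k ∈ S, a k * Complex.exp (-(lam k * t : ℝ) * I)‖ ^ 2 * fejerW (t / T) : ℝ) : ℂ) =
      ∑ j ∈ S, ∑ k ∈ S, (a k * (starRingEnd ℂ) (a j)) *
        ((5 / 2 * Real.pi * T * tri (T * (lam j - lam k)) : ℝ) : ℂ) := by
  rw [← integral_complex_ofReal]
  have h1 : ∀ t : ℝ, ((‖∑ k ∈ S, a k * Complex.exp (-(lam k * t : ℝ) * I)‖ ^ 2 *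
      fejerW (t / T) : ℝ) : ℂ) = ∑ j ∈ S, ∑ k ∈ S, (a k * (starRingEnd ℂ) (a j)) *
        (Complex.exp ((t * (lam j - lam k) : ℝ) * I) * (fejerW (t / T) : ℂ)) := by
    intro t
    rw [Complex.ofReal_mul, normSq_sum_expand, Finset.sum_mul]
    refine Finset.sum_congr rfl fun j _ => ?_
    rw [Finset.sum_mul]
    refine Finset.sum_congr rfl fun k _ => ?_
    ring
  simp only [h1]
  rw [integral_finsetSum _ fun j _ => integrable_finsetSum _ fun k _ =>
    (exp_fejerW_integrable hT _).const_mul _]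
  refine Finset.sum_congr rfl fun j _ => ?_
  rw [integral_finsetSum _ fun k _ => (exp_fejerW_integrable hT _).const_mul _]
  refine Finset.sum_congr rfl fun k _ => ?_
  rw [integral_const_mul, integral_exp_fejerW_scaled hT]

lemma fejer_integrable {T : ℝ} (hT : 0 < T) :
    Integrable (fun t : ℝ => ‖∑ k ∈ S, a k * Complex.exp (-(lam k * t : ℝ) * I)‖ ^ 2 *
      fejerW (t / T)) := by
  have h1 : Integrable (fun t : ℝ => fejerW (t / T)) := fejerW_integrable.comp_div hT.ne'
  have h2 := h1.const_mul ((∑ k ∈ S, ‖a k‖) ^ 2)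
  refine h2.mono' ?_ ?_
  · have := fejerW_continuous
    exact Continuous.aestronglyMeasurable (by fun_prop)
  · refine Eventually.of_forall fun t => ?_
    rw [Real.norm_eq_abs, abs_of_nonneg (mul_nonneg (by positivity) (fejerW_nonneg _))]
    refine mul_le_mul_of_nonneg_right ?_ (fejerW_nonneg _)
    refine pow_le_pow_left₀ (norm_nonneg _) ?_ 2
    refine (norm_sum_le _ _).trans (Finset.sum_le_sum fun k _ => ?_)
    rw [norm_mul]
    have : ‖Complex.exp (-(lam k * t : ℝ) * I)‖ = 1 := by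
      rw [show (-((lam k * t : ℝ) : ℂ)) = ((-(lam k * t) : ℝ) : ℂ) by push_cast; ring]
      exact Complex.norm_exp_ofReal_mul_I _
    rw [this, mul_one]

/-- **Mean value theorem** for well-spaced frequencies. -/
theorem fejer_mean_value {T : ℝ} (hT : 0 < T)
    (hsep : ∀ j ∈ S, ∀ k ∈ S, j ≠ k → 1 ≤ T * |lam j - lam k|) :
    ∫ t : ℝ, ‖∑ k ∈ S, a k * Complex.exp (-(lam k * t : ℝ) * I)‖ ^ 2 * fejerW (t / T) =
      5 / 2 * Real.pi * T * ∑ k ∈ S, ‖a k‖ ^ 2 := by
  classical
  have h := fejer_mean_value_general S lam a hT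
  have h2 : ∑ j ∈ S, ∑ k ∈ S, (a k * (starRingEnd ℂ) (a j)) *
        ((5 / 2 * Real.pi * T * tri (T * (lam j - lam k)) : ℝ) : ℂ) =
      ((5 / 2 * Real.pi * T * ∑ k ∈ S, ‖a k‖ ^ 2 : ℝ) : ℂ) := by
    rw [Finset.mul_sum]
    push_cast
    refine Finset.sum_congr rfl fun j hj => ?_
    rw [Finset.sum_eq_single j]
    · rw [sub_self, mul_zero, tri_zero]
      have h3 : a j * (starRingEnd ℂ) (a j) = ((‖a j‖ ^ 2 : ℝ) : ℂ) := by
        rw [Complex.mul_conj, Complex.normSq_eq_norm_sq]
      rw [h3]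
      push_cast
      ring
    · intro k hk hkj
      have h4 : tri (T * (lam j - lam k)) = 0 := by
        refine tri_eq_zero ?_
        rw [abs_mul, abs_of_pos hT]
        exact hsep j hj k hk hkj.symm
      rw [h4]; simp
    · intro h; exact absurd hj h
  rw [h2] at h
  exact_mod_cast h

end MeanValue

/-- The logarithms of the integers up to `N` are `1/N`-separated. -/
lemma one_le_mul_log_sub {N : ℕ} {T : ℝ} (hNT : (N : ℝ) ≤ T) {m n : ℕ} (hm : m ∈ Finset.Icc 1 N)
    (hn : n ∈ Finset.Icc 1 N) (hmn : m ≠ n) : 1 ≤ T * |Real.log m - Real.log n| := by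
  wlog h : m < n generalizing m n
  · have := this hn hm hmn.symm (lt_of_le_of_ne (not_lt.mp h) hmn.symm)
    rwa [abs_sub_comm] at this
  rw [Finset.mem_Icc] at hm hn
  have hm0 : (0:ℝ) < m := by exact_mod_cast hm.1
  have hn0 : (0:ℝ) < n := by exact_mod_cast hn.1
  have hnN : (n:ℝ) ≤ N := by exact_mod_cast hn.2
  have h1 : 1 / (n:ℝ) ≤ Real.log n - Real.log m := by
    rw [← Real.log_div hn0.ne' hm0.ne']
    have h2 := Real.one_sub_inv_le_log_of_pos (show 0 < (n:ℝ) / m by positivity)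
    refine le_trans ?_ h2
    rw [inv_div]
    have h3 : (m:ℝ) + 1 ≤ n := by exact_mod_cast h
    rw [div_le_iff₀ hn0, sub_mul, one_mul, div_mul_cancel₀ _ hn0.ne']
    linarith
  have h4 : Real.log n - Real.log m ≤ |Real.log m - Real.log n| := by
    rw [abs_sub_comm]; exact le_abs_self _
  have hT : 0 < T := by linarith
  calc (1:ℝ) = n * (1 / n) := by field_simp
    _ ≤ T * |Real.log m - Real.log n| := by
        refine mul_le_mul (by linarith) (by linarith) (by positivity) hT.le

/-- **Mean value theorem for Dirichlet polynomials**. -/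
theorem dirichlet_mean_value {N : ℕ} {T : ℝ} (hT : 0 < T) (hNT : (N : ℝ) ≤ T) (a : ℕ → ℂ) :
    ∫ t : ℝ, ‖∑ n ∈ Finset.Icc 1 N, a n * (n : ℂ) ^ (-(t * I) : ℂ)‖ ^ 2 * fejerW (t / T) =
      5 / 2 * Real.pi * T * ∑ n ∈ Finset.Icc 1 N, ‖a n‖ ^ 2 := by
  rw [← fejer_mean_value (Finset.Icc 1 N) (fun n => Real.log n) a hT
    (fun j hj k hk hjk => one_le_mul_log_sub hNT hj hk hjk)]
  refine integral_congr_ae (Eventually.of_forall fun t => ?_)
  simp only
  congr 3
  refine Finset.sum_congr rfl fun n hn => ?_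
  have hn0 : (n:ℂ) ≠ 0 := by
    have := (Finset.mem_Icc.mp hn).1
    exact_mod_cast (by omega : n ≠ 0)
  rw [Complex.cpow_def_of_ne_zero hn0, ← Complex.ofReal_natCast,
    ← Complex.ofReal_log (Nat.cast_nonneg n)]
  congr 2
  push_cast
  ring

end Pool.Agent.Hadamard
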