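import Pool.Agent.Lib.Hadamard.Entire

/-!
# Hadamard partial fractions for entire functions of order less than two
-/

open Complex Metric Set Filter Topology

namespace Pool.Agent.Hadamard

lemma exists_dyadic {x : ℝ} (_ : 0 ≤ x) : ∃ k : ℕ, x ≤ 2 ^ k ∧ (4:ℝ) ^ k ≤ 4 * (1 + x ^ 2) := by
  rcases le_total x 1 with h | h
  · exact ⟨0, by simpa using h, by nlinarith⟩
  · obtain ⟨n, hn1, hn2⟩ := exists_nat_pow_near h (one_lt_two (α := ℝ))
    refine ⟨n + 1, hn2.le, ?_⟩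
    have h4 : (4:ℝ) ^ (n+1) = 4 * (2 ^ n) ^ 2 := by
      rw [← pow_mul, mul_comm n 2, pow_mul, pow_succ]; norm_num; ring
    rw [h4]
    have : ((2:ℝ) ^ n) ^ 2 ≤ x ^ 2 := pow_le_pow_left₀ (by positivity) hn1 2
    linarith

/-- Counting zeros in `‖a‖ ≤ R`, `R ≥ 1`. -/
lemma zero_count_rpow {f : ℂ → ℂ} (hf : Differentiable ℂ f) (h0 : f 0 ≠ 0) {C p : ℝ}
    (hC : 0 < C) (hp0 : 0 ≤ p)
    (hgr : ∀ z, ‖f z‖ ≤ ‖f 0‖ * Real.exp (C * (1 + ‖z‖) ^ p)) {R : ℝ} (hR : 1 ≤ R)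
    (T : Finset ℂ) (hT : ∀ a ∈ T, f a = 0 ∧ ‖a‖ ≤ R) :
    ((∑ a ∈ T, analyticOrderNatAt f a : ℕ) : ℝ) ≤ C * 4 ^ p / Real.log 2 * R ^ p := by
  have hl : 0 < Real.log 2 := Real.log_pos (by norm_num)
  have h1 := zero_count hf h0 (R := R) (A := C * (4 * R) ^ p) (by linarith) (by
    intro z hz
    refine (hgr z).trans ?_
    gcongr
    rw [hz]; linarith) T hT
  rw [Real.mul_rpow (by norm_num) (by linarith)] at h1
  rw [div_mul_eq_mul_div, le_div_iff₀ hl]
  linarith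

theorem summable_zeros {f : ℂ → ℂ} (hf : Differentiable ℂ f) (h0 : f 0 ≠ 0) {C p : ℝ}
    (hC : 0 < C) (hp0 : 0 ≤ p) (hp : p < 2)
    (hgr : ∀ z, ‖f z‖ ≤ ‖f 0‖ * Real.exp (C * (1 + ‖z‖) ^ p)) :
    Summable (fun a : {a : ℂ // f a = 0} =>
      (analyticOrderNatAt f a : ℝ) / (1 + ‖(a:ℂ)‖ ^ 2)) := by
  classical
  have hl : 0 < Real.log 2 := Real.log_pos (by norm_num)
  set K : ℝ := C * 4 ^ p / Real.log 2 with hK
  have hKpos : 0 < K := by positivity
  set q : ℝ := 2 ^ p / 4 with hq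
  have hqpos : 0 < q := by positivity
  have hq1 : q < 1 := by
    rw [hq, div_lt_one (by norm_num)]
    calc (2:ℝ) ^ p < 2 ^ (2:ℝ) := Real.rpow_lt_rpow_of_exponent_lt (by norm_num) hp
      _ = 4 := by norm_num
  choose kk hkk1 hkk2 using fun a : {a : ℂ // f a = 0} => exists_dyadic (norm_nonneg (a:ℂ))
  refine summable_of_sum_le (c := 4 * K * (1 - q)⁻¹) (fun a => by positivity) fun S => ?_
  set N : ℕ := S.sup kk + 1 with hN
  have step1 : ∀ a ∈ S, (analyticOrderNatAt f a : ℝ) / (1 + ‖(a:ℂ)‖ ^ 2) ≤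
      ∑ k ∈ Finset.range N, (if ‖(a:ℂ)‖ ≤ 2 ^ k then
        (analyticOrderNatAt f a : ℝ) * (4 / 4 ^ k) else 0) := by
    intro a ha
    have hmem : kk a ∈ Finset.range N := by
      rw [Finset.mem_range, hN]
      exact Nat.lt_succ_of_le (Finset.le_sup ha)
    refine le_trans ?_ (Finset.single_le_sum (f := fun k => (if ‖(a:ℂ)‖ ≤ 2 ^ k then
        (analyticOrderNatAt f a : ℝ) * (4 / 4 ^ k) else 0)) (fun k _ => by
          split_ifs <;> positivity) hmem)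
    simp only [hkk1 a, if_true]
    rw [div_eq_mul_inv]
    refine mul_le_mul_of_nonneg_left ?_ (by positivity)
    rw [← one_div, div_le_div_iff₀ (by positivity) (by positivity)]
    linarith [hkk2 a]
  refine (Finset.sum_le_sum step1).trans ?_
  rw [Finset.sum_comm]
  have step2 : ∀ k ∈ Finset.range N, ∑ a ∈ S, (if ‖(a:ℂ)‖ ≤ 2 ^ k then
        (analyticOrderNatAt f a : ℝ) * (4 / 4 ^ k) else 0) ≤ 4 * K * q ^ k := by
    intro k _
    rw [← Finset.sum_filter, ← Finset.sum_mul]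
    set T : Finset ℂ := (S.filter (fun a : {a : ℂ // f a = 0} => ‖(a:ℂ)‖ ≤ 2 ^ k)).map
      (Function.Embedding.subtype _) with hT
    have hTp : ∀ a ∈ T, f a = 0 ∧ ‖a‖ ≤ 2 ^ k := by
      intro a ha
      rw [hT, Finset.mem_map] at ha
      obtain ⟨b, hb, rfl⟩ := ha
      exact ⟨b.2, (Finset.mem_filter.mp hb).2⟩
    have hcount := zero_count_rpow hf h0 hC hp0 hgr (R := 2 ^ k) (one_le_pow₀ (by norm_num)) T hTp
    have hsum : ((∑ a ∈ T, analyticOrderNatAt f a : ℕ) : ℝ) =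
        ∑ a ∈ S.filter (fun a : {a : ℂ // f a = 0} => ‖(a:ℂ)‖ ≤ 2 ^ k),
          (analyticOrderNatAt f a : ℝ) := by
      rw [hT, Finset.sum_map]
      push_cast
      rfl
    rw [hsum] at hcount
    have h2k : ((2:ℝ) ^ k) ^ p = (2 ^ p) ^ k := by
      rw [← Real.rpow_natCast, ← Real.rpow_natCast, ← Real.rpow_mul (by norm_num),
        ← Real.rpow_mul (by norm_num), mul_comm]
    calc _ ≤ K * ((2:ℝ) ^ k) ^ p * (4 / 4 ^ k) :=
          mul_le_mul_of_nonneg_right hcount (by positivity)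
      _ = 4 * K * q ^ k := by
          rw [h2k, hq, div_pow]; field_simp
  refine (Finset.sum_le_sum step2).trans ?_
  rw [← Finset.mul_sum]
  refine mul_le_mul_of_nonneg_left ?_ (by positivity)
  rw [← tsum_geometric_of_lt_one hqpos.le hq1]
  exact (summable_geometric_of_lt_one hqpos.le hq1).sum_le_tsum _ (fun _ _ => by positivity)

lemma exists_zero_dist {f : ℂ → ℂ} (hf : Differentiable ℂ f) {z : ℂ} (hz : f z ≠ 0) :
    ∃ c : ℝ, 0 < c ∧ ∀ a, f a = 0 → 1 + ‖a‖ ≤ c * ‖z - a‖ := by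
  have hev : ∀ᶠ x in 𝓝 z, f x ≠ 0 := hf.continuous.continuousAt.eventually_ne hz
  obtain ⟨δ, hδ, hball⟩ := Metric.eventually_nhds_iff_ball.mp hev
  refine ⟨(1 + ‖z‖) / δ + 1, by positivity, fun a ha => ?_⟩
  have h1 : δ ≤ ‖z - a‖ := by
    by_contra hlt
    push Not at hlt
    refine hball a ?_ ha
    rw [mem_ball, dist_eq_norm, norm_sub_rev]
    exact hlt
  have h2 : ‖a‖ ≤ ‖z‖ + ‖z - a‖ := by
    have := norm_sub_le z (z - a)
    simpa using this
  have h3 : 1 + ‖z‖ ≤ (1 + ‖z‖) / δ * ‖z - a‖ := by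
    rw [div_mul_eq_mul_div, le_div_iff₀ hδ]
    exact mul_le_mul_of_nonneg_left h1 (by positivity)
  linarith

/-- Absolute convergence of the partial fractions. -/
theorem summable_partialFrac {f : ℂ → ℂ} (hf : Differentiable ℂ f) (h0 : f 0 ≠ 0) {C p : ℝ}
    (hC : 0 < C) (hp0 : 0 ≤ p) (hp : p < 2)
    (hgr : ∀ z, ‖f z‖ ≤ ‖f 0‖ * Real.exp (C * (1 + ‖z‖) ^ p)) {z w : ℂ}
    (hz : f z ≠ 0) (hw : f w ≠ 0) :
    Summable (fun a : {a : ℂ // f a = 0} =>
      (analyticOrderNatAt f a : ℂ) * (1 / (z - a) - 1 / (w - a))) := by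
  obtain ⟨c1, hc1, hb1⟩ := exists_zero_dist hf hz
  obtain ⟨c2, hc2, hb2⟩ := exists_zero_dist hf hw
  refine Summable.of_norm_bounded (g := fun a : {a : ℂ // f a = 0} =>
    (c1 * c2 * ‖w - z‖) * ((analyticOrderNatAt f a : ℝ) / (1 + ‖(a:ℂ)‖ ^ 2)))
    ((summable_zeros hf h0 hC hp0 hp hgr).mul_left _) fun a => ?_
  have hza : z - a ≠ 0 := by
    intro h; apply hz; rw [sub_eq_zero.mp h]; exact a.2
  have hwa : w - a ≠ 0 := by
    intro h; apply hw; rw [sub_eq_zero.mp h]; exact a.2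
  have h1 : 1 / (z - a) - 1 / (w - (a:ℂ)) = (w - z) / ((z - a) * (w - a)) := by
    field_simp; ring
  rw [h1, norm_mul, norm_div, norm_mul, Complex.norm_natCast]
  have hza' : 0 < ‖z - a‖ := norm_pos_iff.mpr hza
  have hwa' : 0 < ‖w - a‖ := norm_pos_iff.mpr hwa
  have e1 := hb1 a a.2
  have e2 := hb2 a a.2
  have e3 : 1 + ‖(a:ℂ)‖ ^ 2 ≤ (c1 * ‖z - a‖) * (c2 * ‖w - a‖) := by
    calc 1 + ‖(a:ℂ)‖ ^ 2 ≤ (1 + ‖(a:ℂ)‖) * (1 + ‖(a:ℂ)‖) := by nlinarith [norm_nonneg (a:ℂ)]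
      _ ≤ _ := by gcongr
  calc (analyticOrderNatAt f a : ℝ) * (‖w - z‖ / (‖z - a‖ * ‖w - a‖))
      = (analyticOrderNatAt f a : ℝ) * ‖w - z‖ * (1 / (‖z - a‖ * ‖w - a‖)) := by ring
    _ ≤ (analyticOrderNatAt f a : ℝ) * ‖w - z‖ * (c1 * c2 / (1 + ‖(a:ℂ)‖ ^ 2)) := by
        refine mul_le_mul_of_nonneg_left ?_ (by positivity)
        rw [div_le_div_iff₀ (by positivity) (by positivity)]
        nlinarith
    _ = _ := by ring

/-- **Hadamard partial fractions** for entire functions of order less than two. -/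
theorem hasSum_logDeriv_sub {f : ℂ → ℂ} (hf : Differentiable ℂ f) (h0 : f 0 ≠ 0) {C p : ℝ}
    (hC : 0 < C) (hp0 : 0 ≤ p) (hp : p < 2)
    (hgr : ∀ z, ‖f z‖ ≤ ‖f 0‖ * Real.exp (C * (1 + ‖z‖) ^ p)) {z w : ℂ}
    (hz : f z ≠ 0) (hw : f w ≠ 0) :
    HasSum (fun a : {a : ℂ // f a = 0} =>
      (analyticOrderNatAt f a : ℂ) * (1 / (z - a) - 1 / (w - a)))
      (logDeriv f z - logDeriv f w) := by
  classical
  have hs := summable_partialFrac hf h0 hC hp0 hp hgr hz hw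
  -- finite sets of zeros
  have hfin : ∀ n : ℕ, {z : ℂ | f z = 0 ∧ z ∈ closedBall (0:ℂ) n}.Finite := fun n =>
    finite_zeros hf h0 0 n
  set T : ℕ → Finset ℂ := fun n => (hfin n).toFinset with hT
  have hTmem : ∀ n a, a ∈ T n ↔ f a = 0 ∧ ‖a‖ ≤ n := by
    intro n a; simp [hT]
  set S : ℕ → Finset {a : ℂ // f a = 0} := fun n => (T n).subtype (fun a => f a = 0) with hS
  have hSmono : Monotone S := by
    intro m n hmn a ha
    simp only [hS, Finset.mem_subtype, hTmem] at ha ⊢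
    exact ⟨ha.1, ha.2.trans (by exact_mod_cast hmn)⟩
  have hStop : Tendsto S atTop atTop := by
    refine tendsto_atTop_finset_of_monotone hSmono fun a => ?_
    obtain ⟨n, hn⟩ := exists_nat_ge ‖(a:ℂ)‖
    refine ⟨n, ?_⟩
    simp only [hS, Finset.mem_subtype, hTmem]
    exact ⟨a.2, hn⟩
  have hlim1 := hs.hasSum.comp hStop
  have hsum : ∀ n, (∑ a ∈ S n, (analyticOrderNatAt f a : ℂ) * (1 / (z - a) - 1 / (w - a))) =
      ∑ a ∈ T n, (analyticOrderNatAt f a : ℂ) * (1 / (z - a) - 1 / (w - a)) := by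
    intro n
    rw [hS]
    simp only
    rw [Finset.sum_subtype_eq_sum_filter (f := fun a : ℂ =>
      (analyticOrderNatAt f a : ℂ) * (1 / (z - a) - 1 / (w - a)))]
    congr 1
    refine Finset.filter_true_of_mem fun a ha => ((hTmem n a).mp ha).1
  have hlim2 : Tendsto (fun n => ∑ a ∈ S n, (analyticOrderNatAt f a : ℂ) *
      (1 / (z - a) - 1 / (w - a))) atTop (𝓝 (logDeriv f z - logDeriv f w)) := by
    rw [tendsto_iff_norm_sub_tendsto_zero]
    have hev : ∀ᶠ n : ℕ in atTop, ‖(∑ a ∈ S n, (analyticOrderNatAt f a : ℂ) *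
        (1 / (z - a) - 1 / (w - a))) - (logDeriv f z - logDeriv f w)‖ ≤
        (64 * (C * 3 ^ p) * ‖z - w‖) * (n:ℝ) ^ (p - 2) := by
      have h1 : ∀ᶠ n : ℕ in atTop, ‖z‖ ≤ (n:ℝ) / 8 := by
        have := (tendsto_natCast_atTop_atTop (R := ℝ)).eventually (eventually_ge_atTop (8 * ‖z‖))
        filter_upwards [this] with n hn; linarith
      have h2 : ∀ᶠ n : ℕ in atTop, ‖w‖ ≤ (n:ℝ) / 8 := by
        have := (tendsto_natCast_atTop_atTop (R := ℝ)).eventually (eventually_ge_atTop (8 * ‖w‖))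
        filter_upwards [this] with n hn; linarith
      filter_upwards [h1, h2, eventually_ge_atTop 1] with n hn1 hn2 hn3
      have hn3' : (1:ℝ) ≤ n := by exact_mod_cast hn3
      have hn0 : (0:ℝ) < n := by linarith
      have key := norm_logDeriv_sub_sum_le hf h0 (R := n) (r := n) (A := C * (3 * n) ^ p)
        hn0 le_rfl (by positivity) (by
          intro x hx
          refine (hgr x).trans ?_
          gcongr
          rw [hx]; linarith) (T n) (fun a ha => (hTmem n a).mp ha)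
        (fun a ha hlt => (hTmem n a).mpr ⟨ha, hlt.le⟩) hn1 hn2 hz hw
      rw [hsum n, norm_sub_rev]
      refine key.trans (le_of_eq ?_)
      rw [Real.mul_rpow (by norm_num) hn0.le, Real.rpow_sub hn0]
      have : (n:ℝ) ^ (2:ℝ) = n ^ 2 := by norm_num
      rw [this]
      ring
    have hz0 : Tendsto (fun n : ℕ => (64 * (C * 3 ^ p) * ‖z - w‖) * (n:ℝ) ^ (p - 2)) atTop
        (𝓝 0) := by
      have h1 : Tendsto (fun x : ℝ => x ^ (p - 2)) atTop (𝓝 0) := by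
        have := tendsto_rpow_neg_atTop (y := 2 - p) (by linarith)
        simpa using this
      have h2 := (h1.comp (tendsto_natCast_atTop_atTop (R := ℝ))).const_mul
        (64 * (C * 3 ^ p) * ‖z - w‖)
      simpa using h2
    exact squeeze_zero' (Eventually.of_forall fun n => norm_nonneg _) hev hz0
  have huniq := tendsto_nhds_unique hlim1 hlim2
  rw [← huniq]
  exact hs.hasSum

end Pool.Agent.Hadamard
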