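import Mathlib

/-!
# Dividing an entire function by finitely many of its zeros
-/

open Complex Metric Set Filter Topology

namespace Pool.Agent.Hadamard

/-- An entire function of finite order `n` at `a` is `(z - a)^n` times an entire function that
does not vanish at `a`. -/
lemma exists_factor_pow {f : ℂ → ℂ} (hf : Differentiable ℂ f) (a : ℂ) (n : ℕ)
    (h : analyticOrderAt f a = n) :
    ∃ g : ℂ → ℂ, Differentiable ℂ g ∧ g a ≠ 0 ∧ ∀ z, f z = (z - a) ^ n * g z := by
  obtain ⟨h0, hh, hh0, hev⟩ := ((hf.analyticAt a).analyticOrderAt_eq_natCast).mp h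
  classical
  set g : ℂ → ℂ := fun z => if z = a then h0 a else f z / (z - a) ^ n with hg
  have hgev : g =ᶠ[𝓝 a] h0 := by
    filter_upwards [hev] with z hz
    by_cases hza : z = a
    · simp [hg, hza]
    · have hne : (z - a) ^ n ≠ 0 := pow_ne_zero _ (sub_ne_zero.mpr hza)
      simp only [hg, hza, if_false]
      rw [hz, smul_eq_mul, mul_div_cancel_left₀ _ hne]
  refine ⟨g, ?_, by simpa [hg] using hh0, ?_⟩
  · intro z
    by_cases hza : z = a
    · subst hza
      exact (hh.congr hgev.symm).differentiableAt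
    · have h1 : g =ᶠ[𝓝 z] fun z => f z / (z - a) ^ n := by
        filter_upwards [isOpen_ne.mem_nhds hza] with w hw
        simp [hg, (show w ≠ a from hw)]
      refine DifferentiableAt.congr_of_eventuallyEq ?_ h1
      exact (hf z).div (by fun_prop) (pow_ne_zero _ (sub_ne_zero.mpr hza))
  · intro z
    by_cases hza : z = a
    · subst hza
      have := hev.self_of_nhds
      simpa [hg] using this
    · have hne : (z - a) ^ n ≠ 0 := pow_ne_zero _ (sub_ne_zero.mpr hza)
      simp only [hg, hza, if_false]
      field_simp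

lemma order_ne_top {f : ℂ → ℂ} (hf : Differentiable ℂ f) {w : ℂ} (h0 : f w ≠ 0) (a : ℂ) :
    analyticOrderAt f a ≠ ⊤ := by
  intro h
  have h1 := (AnalyticOnNhd.analyticOrderAt_eq_top_iff_eq_zero a (f := f)
    (fun z => hf.analyticAt z)).mp h
  exact h0 (congrFun h1 w)

/-- Entire quotient by a finite set of zeros. -/
lemma exists_factor_finset {f : ℂ → ℂ} (hf : Differentiable ℂ f) {w : ℂ} (h0 : f w ≠ 0)
    (T : Finset ℂ) (hT : (0 : ℂ) ∉ T) :
    ∃ g : ℂ → ℂ, Differentiable ℂ g ∧ (∀ a ∈ T, g a ≠ 0) ∧
      ∀ z, f z = (∏ a ∈ T, (1 - z / a) ^ (analyticOrderNatAt f a)) * g z := by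
  classical
  induction T using Finset.induction_on with
  | empty => exact ⟨f, hf, by simp, by simp⟩
  | insert a T ha ih =>
    have ha0 : a ≠ 0 := by
      rintro rfl; exact hT (Finset.mem_insert_self _ _)
    have hT' : (0 : ℂ) ∉ T := fun h => hT (Finset.mem_insert_of_mem h)
    obtain ⟨g, hg, hgT, hfg⟩ := ih hT'
    set P : ℂ → ℂ := fun z => ∏ b ∈ T, (1 - z / b) ^ (analyticOrderNatAt f b) with hP
    have hPd : Differentiable ℂ P := by
      have hPf : P = fun z => ∏ b ∈ T, (1 - z / b) ^ (analyticOrderNatAt f b) := rfl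
      rw [hPf]
      refine Differentiable.fun_finsetProd fun b _ => ?_
      fun_prop
    have hPa : P a ≠ 0 := by
      simp only [hP]
      refine Finset.prod_ne_zero_iff.mpr fun b hb => pow_ne_zero _ ?_
      have hb0 : b ≠ 0 := by rintro rfl; exact hT' hb
      have hab : a ≠ b := by rintro rfl; exact ha hb
      intro h
      apply hab
      have : a / b = 1 := (sub_eq_zero.mp h).symm
      exact (div_eq_one_iff_eq hb0).mp this
    have hfP : f = P * g := by
      funext z; simpa [hP] using hfg z
    have hord : analyticOrderAt f a = analyticOrderAt g a := by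
      conv_lhs => rw [hfP]
      rw [analyticOrderAt_mul (hPd.analyticAt a) (hg.analyticAt a),
        (hPd.analyticAt a).analyticOrderAt_eq_zero.mpr hPa, zero_add]
    have hft := order_ne_top hf h0 a
    have hordn : analyticOrderAt g a = (analyticOrderNatAt f a : ℕ) := by
      rw [← hord, Nat.cast_analyticOrderNatAt hft]
    obtain ⟨k, hk, hka, hgk⟩ := exists_factor_pow hg a _ hordn
    refine ⟨fun z => (-a) ^ (analyticOrderNatAt f a) * k z, hk.const_mul _, ?_, ?_⟩
    · intro b hb
      refine mul_ne_zero (pow_ne_zero _ (neg_ne_zero.mpr ha0)) ?_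
      rcases Finset.mem_insert.mp hb with rfl | hb
      · exact hka
      · intro h
        exact hgT b hb (by rw [hgk b, h, mul_zero])
    · intro z
      rw [Finset.prod_insert ha, hfg z, hgk z]
      have h1 : (z - a) ^ analyticOrderNatAt f a =
          (1 - z / a) ^ analyticOrderNatAt f a * (-a) ^ analyticOrderNatAt f a := by
        rw [← mul_pow]; congr 1; field_simp; ring
      rw [h1]; ring

/-- The zeros of an entire function in a closed ball form a finite set. -/
lemma finite_zeros {f : ℂ → ℂ} (hf : Differentiable ℂ f) {w : ℂ} (h0 : f w ≠ 0) (c : ℂ) (R : ℝ) :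
    {z : ℂ | f z = 0 ∧ z ∈ closedBall c R}.Finite := by
  by_contra hinf
  have hinf : {z : ℂ | f z = 0 ∧ z ∈ closedBall c R}.Infinite := hinf
  obtain ⟨x, hx, hacc⟩ := hinf.exists_accPt_of_subset_isCompact (isCompact_closedBall c R)
    (fun z hz => hz.2)
  have hfr : ∃ᶠ z in 𝓝[≠] x, f z = 0 := by
    have := accPt_iff_frequently_nhdsNE.mp hacc
    exact this.mono fun z hz => hz.1
  have := (show AnalyticOnNhd ℂ f univ from fun z _ => hf.analyticAt z).eqOn_zero_of_preconnected_of_frequently_eq_zero
    isPreconnected_univ (mem_univ x) hfr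
  exact h0 (this (mem_univ w))

end Pool.Agent.Hadamard
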