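import Pool.Agent.Lib.Hadamard.RvMInt

/-!
# The Riemann-von Mangoldt formula
-/

open Complex Filter Topology MeasureTheory

namespace Pool.Agent.Hadamard

lemma arctan_ge {y : ℝ} (hy : 0 ≤ y) : y / (1 + y ^ 2) ≤ Real.arctan y := by
  have hder : ∀ x : ℝ, HasDerivAt (fun x => Real.arctan x - x / (1 + x ^ 2))
      (2 * x ^ 2 / (1 + x ^ 2) ^ 2) x := by
    intro x
    have h0 : (1 + x ^ 2) ≠ 0 := by positivity
    have h1 := Real.hasDerivAt_arctan x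
    have h2a : HasDerivAt (fun x : ℝ => 1 + x ^ 2) (2 * x) x := by
      have := ((hasDerivAt_id x).pow 2).const_add 1
      simpa using this
    have h2 : HasDerivAt (fun x : ℝ => x / (1 + x ^ 2))
        ((1 * (1 + x ^ 2) - x * (2 * x)) / (1 + x ^ 2) ^ 2) x :=
      (hasDerivAt_id x).div h2a h0
    have h3 : HasDerivAt (fun x => Real.arctan x - x / (1 + x ^ 2))
        (1 / (1 + x ^ 2) - (1 * (1 + x ^ 2) - x * (2 * x)) / (1 + x ^ 2) ^ 2) x := h1.sub h2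
    have e : 1 / (1 + x ^ 2) - (1 * (1 + x ^ 2) - x * (2 * x)) / (1 + x ^ 2) ^ 2 =
        2 * x ^ 2 / (1 + x ^ 2) ^ 2 := by
      field_simp
      ring
    rw [e] at h3
    exact h3
  have hmono : Monotone (fun x => Real.arctan x - x / (1 + x ^ 2)) :=
    monotone_of_deriv_nonneg (fun x => (hder x).differentiableAt)
      (fun x => by rw [(hder x).deriv]; positivity)
  have := hmono hy
  simp at this
  exact this

lemma arctan_le {y : ℝ} (hy : 0 ≤ y) : Real.arctan y ≤ y := by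
  have hder : ∀ x : ℝ, HasDerivAt (fun x => x - Real.arctan x)
      (x ^ 2 / (1 + x ^ 2)) x := by
    intro x
    have h0 : (1 + x ^ 2) ≠ 0 := by positivity
    have h3 : HasDerivAt (fun x => x - Real.arctan x) (1 - 1 / (1 + x ^ 2)) x :=
      (hasDerivAt_id x).sub (Real.hasDerivAt_arctan x)
    have e : 1 - 1 / (1 + x ^ 2) = x ^ 2 / (1 + x ^ 2) := by
      field_simp
      ring
    rw [e] at h3
    exact h3
  have hmono : Monotone (fun x => x - Real.arctan x) :=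
    monotone_of_deriv_nonneg (fun x => (hder x).differentiableAt)
      (fun x => by rw [(hder x).deriv]; positivity)
  have := hmono hy
  simp at this
  exact this

lemma sign_arctan_pos {δ x : ℝ} (h1 : 1 ≤ δ) (h2 : δ ≤ 2) (hx : 0 < x) :
    |Real.pi / 2 - Real.arctan (x / δ) - δ * (x / (1 + x ^ 2))| ≤ 4 / (1 + x ^ 2) := by
  have hδ : 0 < δ := by linarith
  have h3 : Real.arctan (δ / x) = Real.pi / 2 - Real.arctan (x / δ) := by
    have := Real.arctan_inv_of_pos (x := x / δ) (by positivity)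
    rw [inv_div] at this
    exact this
  rw [← h3]
  have hy : 0 ≤ δ / x := by positivity
  have hlow := arctan_ge hy
  have e1 : δ / x / (1 + (δ / x) ^ 2) = δ * x / (x ^ 2 + δ ^ 2) := by field_simp
  rw [e1] at hlow
  have hx1 : 0 < 1 + x ^ 2 := by positivity
  rw [abs_le]
  constructor
  · have e2 : δ * x / (x ^ 2 + δ ^ 2) - δ * (x / (1 + x ^ 2)) ≥ -(4 / (1 + x ^ 2)) := by
      have e3 : δ * x / (x ^ 2 + δ ^ 2) - δ * (x / (1 + x ^ 2)) =
          -((δ * x * (δ ^ 2 - 1) / (x ^ 2 + δ ^ 2)) / (1 + x ^ 2)) := by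
        field_simp
        ring
      rw [e3, ge_iff_le, neg_le_neg_iff]
      refine div_le_div_of_nonneg_right ?_ hx1.le
      rw [div_le_iff₀ (by positivity)]
      have e4 : δ ^ 2 - 1 ≤ 3 := by nlinarith
      have e5 : 0 ≤ δ ^ 2 - 1 := by nlinarith
      have e6 : δ * x * (δ ^ 2 - 1) ≤ δ * x * 3 := mul_le_mul_of_nonneg_left e4 (by positivity)
      nlinarith [sq_nonneg (x - δ)]
    linarith
  · rcases le_or_gt 1 x with h | h
    · have e2 : Real.arctan (δ / x) ≤ δ / x := arctan_le hy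
      have e3 : δ / x - δ * (x / (1 + x ^ 2)) = (δ / x) / (1 + x ^ 2) := by
        field_simp
        ring
      have e4 : (δ / x) / (1 + x ^ 2) ≤ 4 / (1 + x ^ 2) := by
        refine div_le_div_of_nonneg_right ?_ hx1.le
        rw [div_le_iff₀ hx]
        linarith
      linarith
    · have e2 : Real.arctan (δ / x) ≤ Real.pi / 2 := (Real.arctan_lt_pi_div_two _).le
      have e3 : 0 ≤ δ * (x / (1 + x ^ 2)) := by positivity
      have e4 : 2 ≤ 4 / (1 + x ^ 2) := by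
        rw [le_div_iff₀ hx1]; nlinarith
      linarith [Real.pi_lt_d2]

lemma sign_arctan {δ : ℝ} (h1 : 1 ≤ δ) (h2 : δ ≤ 2) (x : ℝ) :
    |Real.pi / 2 * Real.sign x - Real.arctan (x / δ) - δ * (x / (1 + x ^ 2))| ≤
      4 / (1 + x ^ 2) := by
  rcases lt_trichotomy x 0 with hx | hx | hx
  · have h := sign_arctan_pos h1 h2 (neg_pos.mpr hx)
    rw [Real.sign_of_neg hx]
    rw [neg_sq, neg_div, Real.arctan_neg, neg_div] at h
    have : Real.pi / 2 * -1 - Real.arctan (x / δ) - δ * (x / (1 + x ^ 2)) =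
        -(Real.pi / 2 - -Real.arctan (x / δ) - δ * -(x / (1 + x ^ 2))) := by ring
    rw [this, abs_neg]
    exact h
  · rw [hx]; simp
  · rw [Real.sign_of_pos hx, mul_one]
    exact sign_arctan_pos h1 h2 hx

lemma p_diff {δ : ℝ} (h1 : 1 ≤ δ) (h2 : δ ≤ 2) (x : ℝ) :
    |x / (1 + x ^ 2) - x / (δ ^ 2 + x ^ 2)| ≤ 2 / (1 + x ^ 2) := by
  have hx1 : 0 < 1 + x ^ 2 := by positivity
  have hx2 : 0 < δ ^ 2 + x ^ 2 := by positivity
  have e : x / (1 + x ^ 2) - x / (δ ^ 2 + x ^ 2) =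
      (x * (δ ^ 2 - 1) / (δ ^ 2 + x ^ 2)) / (1 + x ^ 2) := by
    field_simp
    ring
  rw [e, abs_div, abs_of_pos hx1]
  refine div_le_div_of_nonneg_right ?_ hx1.le
  rw [abs_div, abs_of_pos hx2, div_le_iff₀ hx2, abs_mul, abs_of_nonneg (show 0 ≤ δ ^ 2 - 1 by nlinarith)]
  have h3 : |x| * (δ ^ 2 - 1) ≤ |x| * 3 := mul_le_mul_of_nonneg_left (by nlinarith) (abs_nonneg x)
  have h4 : x ^ 2 = |x| ^ 2 := (sq_abs x).symm
  rw [h4]
  nlinarith [sq_nonneg (|x| - 1), abs_nonneg x]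

/-- The indicator of `0 < γ ≤ T`. -/
noncomputable def ind (T g : ℝ) : ℝ := if 0 < g ∧ g ≤ T then 1 else 0

lemma ind_sign {T : ℝ} (hT : 0 < T) (g : ℝ) :
    |ind T g - (Real.sign (T - g) + Real.sign g) / 2| ≤ 1 / (1 + (T - g) ^ 2) + 1 / (1 + g ^ 2) := by
  have ha : 0 ≤ 1 / (1 + (T - g) ^ 2) := by positivity
  have hb : 0 ≤ 1 / (1 + g ^ 2) := by positivity
  unfold ind
  rcases lt_trichotomy g 0 with hg | hg | hg
  · rw [if_neg (by rintro ⟨h, _⟩; linarith), Real.sign_of_pos (by linarith), Real.sign_of_neg hg]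
    norm_num
    positivity
  · subst hg
    rw [if_neg (by rintro ⟨h, _⟩; linarith), Real.sign_of_pos (by linarith), Real.sign_zero]
    have : (1:ℝ) / (1 + 0 ^ 2) = 1 := by norm_num
    rw [this]
    norm_num
    have h5 : 0 ≤ (1 + T ^ 2)⁻¹ := by positivity
    linarith
  · rcases lt_trichotomy g T with h | h | h
    · rw [if_pos ⟨hg, h.le⟩, Real.sign_of_pos (by linarith), Real.sign_of_pos hg]
      norm_num
      positivity
    · rw [if_pos ⟨hg, h.le⟩, h, sub_self, Real.sign_zero, Real.sign_of_pos hT]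
      have : (1:ℝ) / (1 + 0 ^ 2) = 1 := by norm_num
      rw [this]
      have hb' : 0 ≤ 1 / (1 + T ^ 2) := by positivity
      norm_num
      rw [one_div] at hb'
      linarith
    · rw [if_neg (by rintro ⟨_, h'⟩; linarith), Real.sign_of_neg (by linarith), Real.sign_of_pos hg]
      norm_num
      positivity

lemma term_bound {δ T g : ℝ} (h1 : 1 ≤ δ) (h2 : δ ≤ 2) (hT : 0 < T) :
    |(Real.arctan ((T - g) / δ) + Real.arctan (g / δ)) - Real.pi * ind T g +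
      δ * ((T - g) / (1 + (T - g) ^ 2) + g / (1 + g ^ 2))| ≤
      8 * (1 / (1 + (T - g) ^ 2) + 1 / (1 + g ^ 2)) := by
  have e1 := sign_arctan h1 h2 (T - g)
  have e2 := sign_arctan h1 h2 g
  have e3 := ind_sign hT g
  have ha : 0 ≤ 1 / (1 + (T - g) ^ 2) := by positivity
  have hb : 0 ≤ 1 / (1 + g ^ 2) := by positivity
  have hpi := Real.pi_lt_d2
  have hpi0 := Real.pi_pos
  have e4 : |Real.pi * (ind T g - (Real.sign (T - g) + Real.sign g) / 2)| ≤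
      4 * (1 / (1 + (T - g) ^ 2) + 1 / (1 + g ^ 2)) := by
    rw [abs_mul, abs_of_pos hpi0]
    calc Real.pi * |ind T g - (Real.sign (T - g) + Real.sign g) / 2| ≤
        4 * |ind T g - (Real.sign (T - g) + Real.sign g) / 2| :=
          mul_le_mul_of_nonneg_right (by linarith) (abs_nonneg _)
      _ ≤ _ := mul_le_mul_of_nonneg_left e3 (by norm_num)
  rw [show (4:ℝ) / (1 + (T - g) ^ 2) = 4 * (1 / (1 + (T - g) ^ 2)) by ring] at e1
  rw [show (4:ℝ) / (1 + g ^ 2) = 4 * (1 / (1 + g ^ 2)) by ring] at e2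
  rw [abs_le] at e1 e2 e4 ⊢
  constructor <;> nlinarith [e1.1, e1.2, e2.1, e2.2, e4.1, e4.2]

section Sums

variable (T : ℝ)

/-- `p(T-γ) + p(γ)`. -/
noncomputable def qq' (g : ℝ) : ℝ := (T - g) / (1 + (T - g) ^ 2) + g / (1 + g ^ 2)

/-- The error weight. -/
noncomputable def ew (ρ : ntz) : ℝ := (mult ρ : ℝ) *
  (1 / (1 + (T - (ρ:ℂ).im) ^ 2) + 1 / (1 + (ρ:ℂ).im ^ 2))

lemma hasSum_ew : HasSum (ew T) (∑' ρ : ntz, (mult ρ : ℝ) / (1 + (T - (ρ:ℂ).im) ^ 2) +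
    ∑' ρ : ntz, (mult ρ : ℝ) / (1 + (0 - (ρ:ℂ).im) ^ 2)) := by
  have h := (summable_weight T).hasSum.add (summable_weight 0).hasSum
  have heq : (fun ρ : ntz => (mult ρ : ℝ) / (1 + (T - (ρ:ℂ).im) ^ 2) +
      (mult ρ : ℝ) / (1 + (0 - (ρ:ℂ).im) ^ 2)) = ew T := by
    funext ρ
    unfold ew
    rw [zero_sub, neg_sq]
    ring
  rw [heq] at h
  exact h

/-- `k_ρ(T)`. -/
noncomputable def kk (ρ : ntz) : ℝ := (T - (ρ:ℂ).im) / ((2 - (ρ:ℂ).re) ^ 2 + (T - (ρ:ℂ).im) ^ 2) +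
      (ρ:ℂ).im / ((2 - (ρ:ℂ).re) ^ 2 + (ρ:ℂ).im ^ 2)

lemma qq_sub_kk (ρ : ntz) : |(mult ρ : ℝ) * qq' T (ρ:ℂ).im - (mult ρ : ℝ) * kk T ρ| ≤
    2 * ew T ρ := by
  have h1 : 1 ≤ 2 - (ρ:ℂ).re := by have := ρ.2.2.2; linarith
  have h2 : 2 - (ρ:ℂ).re ≤ 2 := by have := ρ.2.2.1; linarith
  have e1 := p_diff h1 h2 (T - (ρ:ℂ).im)
  have e2 := p_diff h1 h2 (ρ:ℂ).im
  have hm : (0:ℝ) ≤ mult ρ := Nat.cast_nonneg _
  unfold qq' kk ew
  rw [← mul_sub, abs_mul, abs_of_nonneg hm]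
  rw [show 2 * ((mult ρ : ℝ) * (1 / (1 + (T - (ρ:ℂ).im) ^ 2) + 1 / (1 + (ρ:ℂ).im ^ 2))) =
    (mult ρ : ℝ) * (2 / (1 + (T - (ρ:ℂ).im) ^ 2) + 2 / (1 + (ρ:ℂ).im ^ 2)) by ring]
  refine mul_le_mul_of_nonneg_left ?_ hm
  refine le_trans ?_ (add_le_add e1 e2)
  refine le_trans (le_of_eq ?_) (abs_add_le _ _)
  congr 1
  ring

lemma summable_kk : Summable (fun ρ : ntz => (mult ρ : ℝ) * kk T ρ) := (hasSum_im T).summable

lemma summable_qq : Summable (fun ρ : ntz => (mult ρ : ℝ) * qq' T (ρ:ℂ).im) := by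
  have h1 : Summable (fun ρ : ntz => (mult ρ : ℝ) * qq' T (ρ:ℂ).im - (mult ρ : ℝ) * kk T ρ) := by
    refine Summable.of_norm_bounded ((hasSum_ew T).summable.mul_left 2) fun ρ => ?_
    rw [Real.norm_eq_abs]
    exact qq_sub_kk T ρ
  have h2 := h1.add (summable_kk T)
  refine h2.congr fun ρ => ?_
  ring

lemma summable_dqq : Summable (fun ρ : ntz => (mult ρ : ℝ) *
    ((2 - (ρ:ℂ).re) * qq' T (ρ:ℂ).im)) := by
  have h1 := (summable_qq T).norm.mul_left 2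
  refine Summable.of_norm_bounded h1 fun ρ => ?_
  have h2 : 0 ≤ 2 - (ρ:ℂ).re := by have := ρ.2.2.2; linarith
  have h3 : 2 - (ρ:ℂ).re ≤ 2 := by have := ρ.2.2.1; linarith
  rw [Real.norm_eq_abs, Real.norm_eq_abs, abs_mul, abs_mul, abs_mul, abs_of_nonneg h2]
  have h4 : 0 ≤ |(mult ρ : ℝ)| * |qq' T (ρ:ℂ).im| := by positivity
  nlinarith

lemma tsum_dqq : ∑' ρ : ntz, (mult ρ : ℝ) * ((2 - (ρ:ℂ).re) * qq' T (ρ:ℂ).im) =
    3 / 2 * ∑' ρ : ntz, (mult ρ : ℝ) * qq' T (ρ:ℂ).im := by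
  have h1 := ntzRefl.tsum_eq (fun ρ : ntz => (mult ρ : ℝ) * ((2 - (ρ:ℂ).re) * qq' T (ρ:ℂ).im))
  have h2 : ∀ ρ : ntz, (mult (ntzRefl ρ : ntz) : ℝ) *
      ((2 - ((ntzRefl ρ : ntz):ℂ).re) * qq' T ((ntzRefl ρ : ntz):ℂ).im) =
      3 * ((mult ρ : ℝ) * qq' T (ρ:ℂ).im) - (mult ρ : ℝ) * ((2 - (ρ:ℂ).re) * qq' T (ρ:ℂ).im) := by
    intro ρ
    rw [mult_ntzRefl, ntzRefl_re, ntzRefl_im]
    ring
  rw [tsum_congr h2, ((summable_qq T).mul_left 3).tsum_sub (summable_dqq T), tsum_mul_left] at h1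
  linarith

/-- The number of zeros with `0 < γ ≤ T`, with multiplicity. -/
noncomputable def zc : ℝ := ∑' ρ : ntz, (mult ρ : ℝ) * ind T (ρ:ℂ).im

lemma ind_le (g : ℝ) : |ind T g| ≤ (1 + T ^ 2) * (1 / (1 + g ^ 2)) := by
  unfold ind
  split_ifs with h
  · rw [abs_one, mul_one_div, le_div_iff₀ (by positivity)]
    nlinarith [h.1, h.2]
  · rw [abs_zero]; positivity

lemma summable_ind : Summable (fun ρ : ntz => (mult ρ : ℝ) * ind T (ρ:ℂ).im) := by
  refine Summable.of_norm_bounded ((summable_weight 0).mul_left (1 + T ^ 2)) fun ρ => ?_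
  have hm : (0:ℝ) ≤ mult ρ := Nat.cast_nonneg _
  rw [Real.norm_eq_abs, abs_mul, abs_of_nonneg hm, zero_sub, neg_sq]
  calc (mult ρ : ℝ) * |ind T (ρ:ℂ).im| ≤ (mult ρ : ℝ) * ((1 + T ^ 2) * (1 / (1 + (ρ:ℂ).im ^ 2))) :=
        mul_le_mul_of_nonneg_left (ind_le T _) hm
    _ = _ := by ring

end Sums

/-- **Riemann-von Mangoldt formula** (tsum form). -/
theorem riemann_von_mangoldt : ∃ C : ℝ, 0 < C ∧ ∀ T : ℝ, 2 ≤ T →
    |zc T - T / (2 * Real.pi) * Real.log (T / (2 * Real.pi * Real.exp 1))| ≤ C * Real.log T := by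
  obtain ⟨C1, hC1, h1⟩ := integral_Rt_bound
  obtain ⟨C2, hC2, h2⟩ := tsum_weight_le
  obtain ⟨C3, hC3, h3⟩ := im_logDeriv_xiF_bound
  refine ⟨3 * C1 + 33 * C2 + 6 * C3, by positivity, fun T hT => ?_⟩
  have hT0 : 0 < T := by linarith
  have hlogT : 1 / 2 ≤ Real.log T := by
    have := Real.log_le_log (by norm_num) hT
    linarith [Real.log_two_gt_d9]
  -- error weights
  have hE : ∑' ρ, ew T ρ ≤ 3 * C2 * Real.log T := by
    rw [(hasSum_ew T).tsum_eq]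
    have e1 := h2 T
    have e2 := h2 0
    rw [abs_of_pos hT0] at e1
    rw [abs_zero, zero_add] at e2
    have e3 : Real.log (T + 2) ≤ 2 * Real.log T := by
      rw [← Real.log_rpow hT0]
      refine Real.log_le_log (by linarith) ?_
      norm_num
      nlinarith
    have e4 : Real.log 2 ≤ Real.log T := Real.log_le_log (by norm_num) hT
    nlinarith
  have hE0 : 0 ≤ ∑' ρ, ew T ρ := tsum_nonneg fun ρ => by unfold ew; positivity
  -- total sum
  have hV := hasSum_integral_Rt hT0.le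
  have hI := summable_ind T
  have hD := summable_dqq T
  have htot : HasSum (fun ρ : ntz => (mult ρ : ℝ) *
      (Real.arctan ((T - (ρ:ℂ).im) / (2 - (ρ:ℂ).re)) + Real.arctan ((ρ:ℂ).im / (2 - (ρ:ℂ).re))) -
      Real.pi * ((mult ρ : ℝ) * ind T (ρ:ℂ).im) +
      (mult ρ : ℝ) * ((2 - (ρ:ℂ).re) * qq' T (ρ:ℂ).im))
      ((∫ t in (0:ℝ)..T, Rt t) - Real.pi * zc T +
        ∑' ρ : ntz, (mult ρ : ℝ) * ((2 - (ρ:ℂ).re) * qq' T (ρ:ℂ).im)) :=
    (hV.sub (hI.hasSum.mul_left Real.pi)).add hD.hasSum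
  have hbound : |(∫ t in (0:ℝ)..T, Rt t) - Real.pi * zc T +
        ∑' ρ : ntz, (mult ρ : ℝ) * ((2 - (ρ:ℂ).re) * qq' T (ρ:ℂ).im)| ≤ 8 * ∑' ρ, ew T ρ := by
    rw [← htot.tsum_eq, ← tsum_mul_left, ← Real.norm_eq_abs]
    refine tsum_of_norm_bounded ((hasSum_ew T).summable.mul_left 8).hasSum fun ρ => ?_
    have hm : (0:ℝ) ≤ mult ρ := Nat.cast_nonneg _
    have b1 : 1 ≤ 2 - (ρ:ℂ).re := by have := ρ.2.2.2; linarith
    have b2 : 2 - (ρ:ℂ).re ≤ 2 := by have := ρ.2.2.1; linarith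
    have b3 := term_bound (g := (ρ:ℂ).im) b1 b2 hT0
    rw [Real.norm_eq_abs]
    have b4 : (mult ρ : ℝ) * (Real.arctan ((T - (ρ:ℂ).im) / (2 - (ρ:ℂ).re)) +
        Real.arctan ((ρ:ℂ).im / (2 - (ρ:ℂ).re))) - Real.pi * ((mult ρ : ℝ) * ind T (ρ:ℂ).im) +
        (mult ρ : ℝ) * ((2 - (ρ:ℂ).re) * qq' T (ρ:ℂ).im) =
        (mult ρ : ℝ) * ((Real.arctan ((T - (ρ:ℂ).im) / (2 - (ρ:ℂ).re)) +
        Real.arctan ((ρ:ℂ).im / (2 - (ρ:ℂ).re))) - Real.pi * ind T (ρ:ℂ).im +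
        (2 - (ρ:ℂ).re) * qq' T (ρ:ℂ).im) := by ring
    rw [b4, abs_mul, abs_of_nonneg hm]
    unfold ew
    calc (mult ρ : ℝ) * _ ≤ (mult ρ : ℝ) *
        (8 * (1 / (1 + (T - (ρ:ℂ).im) ^ 2) + 1 / (1 + (ρ:ℂ).im ^ 2))) :=
          mul_le_mul_of_nonneg_left b3 hm
      _ = _ := by ring
  rw [tsum_dqq] at hbound
  -- the sum of qq'
  have hkk : |∑' ρ : ntz, (mult ρ : ℝ) * kk T ρ| ≤ 2 * C3 := by
    have := (hasSum_im T).tsum_eq
    have e1 : ∑' ρ : ntz, (mult ρ : ℝ) * kk T ρ =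
        (logDeriv xiF (pt 0)).im - (logDeriv xiF (pt T)).im := this
    rw [e1]
    have a1 := h3 0
    have a2 := h3 T
    rw [abs_le] at a1 a2 ⊢
    constructor <;> linarith [a1.1, a1.2, a2.1, a2.2]
  have hqk : |∑' ρ : ntz, (mult ρ : ℝ) * qq' T (ρ:ℂ).im - ∑' ρ : ntz, (mult ρ : ℝ) * kk T ρ| ≤
      2 * ∑' ρ, ew T ρ := by
    rw [← (summable_qq T).tsum_sub (summable_kk T), ← tsum_mul_left, ← Real.norm_eq_abs]
    refine tsum_of_norm_bounded ((hasSum_ew T).summable.mul_left 2).hasSum fun ρ => ?_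
    rw [Real.norm_eq_abs]
    exact qq_sub_kk T ρ
  have hI2 := h1 T (by linarith)
  have hmain : T / (2 * Real.pi) * Real.log (T / (2 * Real.pi * Real.exp 1)) =
      (T / 2 * Real.log (T / (2 * Real.pi)) - T / 2) / Real.pi := by
    have hpi := Real.pi_pos
    rw [show T / (2 * Real.pi * Real.exp 1) = T / (2 * Real.pi) / Real.exp 1 by field_simp,
      Real.log_div (by positivity) (Real.exp_pos 1).ne', Real.log_exp]
    field_simp
  rw [hmain]
  have hpi3 := Real.pi_gt_three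
  have hpi0 := Real.pi_pos
  have hfin : |Real.pi * (zc T - (T / 2 * Real.log (T / (2 * Real.pi)) - T / 2) / Real.pi)| ≤
      C1 * (1 + Real.log T) + 8 * (3 * C2 * Real.log T) +
        3 / 2 * (2 * C3 + 2 * (3 * C2 * Real.log T)) := by
    have : Real.pi * (zc T - (T / 2 * Real.log (T / (2 * Real.pi)) - T / 2) / Real.pi) =
        Real.pi * zc T - (T / 2 * Real.log (T / (2 * Real.pi)) - T / 2) := by field_simp
    rw [this]
    rw [abs_le] at hbound hkk hqk hI2 ⊢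
    constructor <;> linarith [hbound.1, hbound.2, hkk.1, hkk.2, hqk.1, hqk.2, hI2.1, hI2.2]
  rw [abs_mul, abs_of_pos hpi0] at hfin
  have h0 := abs_nonneg (zc T - (T / 2 * Real.log (T / (2 * Real.pi)) - T / 2) / Real.pi)
  have hlast : C1 * (1 + Real.log T) + 8 * (3 * C2 * Real.log T) +
        3 / 2 * (2 * C3 + 2 * (3 * C2 * Real.log T)) ≤
        (3 * C1 + 33 * C2 + 6 * C3) * Real.log T := by
    have k1 : C1 ≤ C1 * (2 * Real.log T) := by nlinarith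
    have k2 : C3 ≤ C3 * (2 * Real.log T) := by nlinarith
    nlinarith
  nlinarith

end Pool.Agent.Hadamard
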