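import Pool.Agent.Lib.Hadamard.RvMSums

/-!
# The integral of `Re ξ'/ξ(2+it)`
-/

open Complex Filter Topology MeasureTheory

namespace Pool.Agent.Hadamard

lemma peetre (t g : ℝ) : 1 + g ^ 2 ≤ 2 * (1 + t ^ 2) * (1 + (t - g) ^ 2) := by
  nlinarith [sq_nonneg (t * (t - g)), sq_nonneg (t + (t - g)), sq_nonneg (t - (t - g)),
    sq_nonneg g, sq_nonneg t, sq_nonneg (t - g)]

lemma hasDerivAt_arctan_shift {δ g : ℝ} (hδ : 0 < δ) (t : ℝ) :
    HasDerivAt (fun t => Real.arctan ((t - g) / δ)) (δ / (δ ^ 2 + (t - g) ^ 2)) t := by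
  have h1 : HasDerivAt (fun t : ℝ => (t - g) / δ) (1 / δ) t :=
    ((hasDerivAt_id t).sub_const g).div_const δ
  have h2 := h1.arctan
  convert h2 using 1
  have : δ ^ 2 + (t - g) ^ 2 ≠ 0 := by positivity
  have : (1:ℝ) + ((t - g) / δ) ^ 2 ≠ 0 := by positivity
  field_simp

lemma integral_term {δ g T : ℝ} (hδ : 0 < δ) :
    ∫ t in (0:ℝ)..T, δ / (δ ^ 2 + (t - g) ^ 2) = Real.arctan ((T - g) / δ) + Real.arctan (g / δ) := by
  rw [intervalIntegral.integral_eq_sub_of_hasDerivAt (fun t _ => hasDerivAt_arctan_shift (g := g) hδ t)]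
  · rw [zero_sub, neg_div, Real.arctan_neg]; ring
  · refine Continuous.intervalIntegrable ?_ _ _
    refine Continuous.div continuous_const (by fun_prop) fun t => ?_
    positivity

/-- The zero sum for the integral. -/
theorem hasSum_integral_Rt {T : ℝ} (hT : 0 ≤ T) : HasSum (fun ρ : ntz => (mult ρ : ℝ) *
    (Real.arctan ((T - (ρ:ℂ).im) / (2 - (ρ:ℂ).re)) + Real.arctan ((ρ:ℂ).im / (2 - (ρ:ℂ).re))))
    (∫ t in (0:ℝ)..T, Rt t) := by
  have hδ : ∀ ρ : ntz, 0 < 2 - (ρ:ℂ).re := fun ρ => by have := ρ.2.2.2; linarith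
  have h1 : ∀ ρ : ntz, (mult ρ : ℝ) *
      (Real.arctan ((T - (ρ:ℂ).im) / (2 - (ρ:ℂ).re)) + Real.arctan ((ρ:ℂ).im / (2 - (ρ:ℂ).re))) =
      ∫ t in (0:ℝ)..T, (mult ρ : ℝ) *
        ((2 - (ρ:ℂ).re) / ((2 - (ρ:ℂ).re) ^ 2 + (t - (ρ:ℂ).im) ^ 2)) := by
    intro ρ
    rw [intervalIntegral.integral_const_mul, integral_term (hδ ρ)]
  simp_rw [h1]
  refine intervalIntegral.hasSum_integral_of_dominated_convergence
    (fun ρ _ => 4 * (1 + T ^ 2) * ((mult ρ : ℝ) / (1 + (0 - (ρ:ℂ).im) ^ 2))) ?_ ?_ ?_ ?_ ?_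
  · intro ρ
    refine Continuous.aestronglyMeasurable ?_
    refine Continuous.mul continuous_const (Continuous.div continuous_const (by fun_prop) fun t => ?_)
    have := hδ ρ
    positivity
  · intro ρ
    refine Eventually.of_forall fun t ht => ?_
    rw [Set.uIoc_of_le hT] at ht
    have h2 := hδ ρ
    have h3 := ρ.2.2.1
    have h4 := ρ.2.2.2
    have hm : (0:ℝ) ≤ mult ρ := Nat.cast_nonneg _
    rw [Real.norm_of_nonneg (by positivity)]
    have h5 : (2 - (ρ:ℂ).re) / ((2 - (ρ:ℂ).re) ^ 2 + (t - (ρ:ℂ).im) ^ 2) ≤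
        4 * (1 + T ^ 2) * (1 / (1 + (0 - (ρ:ℂ).im) ^ 2)) := by
      rw [mul_one_div, div_le_div_iff₀ (by positivity) (by positivity)]
      have h6 := peetre t (ρ:ℂ).im
      have h7 : t ^ 2 ≤ T ^ 2 := pow_le_pow_left₀ ht.1.le ht.2 2
      have h8 : 1 + (t - (ρ:ℂ).im) ^ 2 ≤ (2 - (ρ:ℂ).re) ^ 2 + (t - (ρ:ℂ).im) ^ 2 := by nlinarith
      have h9 : 2 * (1 + t ^ 2) * (1 + (t - (ρ:ℂ).im) ^ 2) ≤
          2 * (1 + T ^ 2) * ((2 - (ρ:ℂ).re) ^ 2 + (t - (ρ:ℂ).im) ^ 2) := by
        apply mul_le_mul _ h8 (by positivity) (by positivity)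
        linarith
      have h10 : 1 + (0 - (ρ:ℂ).im) ^ 2 ≤
          2 * (1 + T ^ 2) * ((2 - (ρ:ℂ).re) ^ 2 + (t - (ρ:ℂ).im) ^ 2) := by
        rw [zero_sub, neg_sq]; exact h6.trans h9
      calc (2 - (ρ:ℂ).re) * (1 + (0 - (ρ:ℂ).im) ^ 2) ≤ 2 * (1 + (0 - (ρ:ℂ).im) ^ 2) := by
            apply mul_le_mul_of_nonneg_right _ (by positivity)
            linarith
        _ ≤ 2 * (2 * (1 + T ^ 2) * ((2 - (ρ:ℂ).re) ^ 2 + (t - (ρ:ℂ).im) ^ 2)) := by linarith
        _ = _ := by ring
    calc (mult ρ : ℝ) * ((2 - (ρ:ℂ).re) / ((2 - (ρ:ℂ).re) ^ 2 + (t - (ρ:ℂ).im) ^ 2)) ≤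
        (mult ρ : ℝ) * (4 * (1 + T ^ 2) * (1 / (1 + (0 - (ρ:ℂ).im) ^ 2))) :=
          mul_le_mul_of_nonneg_left h5 hm
      _ = _ := by ring
  · exact Eventually.of_forall fun t _ => (summable_weight 0).mul_left _
  · exact intervalIntegrable_const
  · exact Eventually.of_forall fun t _ => hasSum_Rt t

/-! ### Primitives -/

lemma hasDerivAt_pt (t : ℝ) : HasDerivAt pt I t := by
  unfold pt
  have h1 : HasDerivAt (fun t : ℝ => (t:ℂ) * I) (1 * I) t :=
    (Complex.ofRealCLM.hasDerivAt).mul_const I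
  simpa using h1.const_add 2

lemma hasDerivAt_im {f : ℝ → ℂ} {f' : ℂ} {t : ℝ} (h : HasDerivAt f f' t) :
    HasDerivAt (fun t => (f t).im) f'.im t :=
  (Complex.imCLM.hasFDerivAt.comp_hasDerivAt t h)

lemma zeta_pt_ne (t : ℝ) : riemannZeta (pt t) ≠ 0 :=
  riemannZeta_ne_zero_of_one_le_re (by simp)

lemma primitive_zeta (t : ℝ) : HasDerivAt (fun t => (Complex.log (riemannZeta (pt t))).im)
    (logDeriv riemannZeta (pt t)).re t := by
  have h1 : HasDerivAt riemannZeta (deriv riemannZeta (pt t)) (pt t) :=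
    (differentiableAt_riemannZeta (pt_ne_one t)).hasDerivAt
  have h2 : HasDerivAt (fun t => riemannZeta (pt t)) (deriv riemannZeta (pt t) * I) t :=
    h1.comp t (hasDerivAt_pt t)
  have h3 := hasDerivAt_im (h2.clog_real (zeta_two_slit t))
  convert h3 using 1
  rw [logDeriv_apply, mul_div_right_comm, Complex.mul_I_im]

lemma primitive_pt (t : ℝ) : HasDerivAt (fun t => (Complex.log (pt t)).im) (1 / pt t).re t := by
  have h3 := hasDerivAt_im ((hasDerivAt_pt t).clog_real (Or.inl (by simp)))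
  convert h3 using 1
  rw [show I / pt t = (1 / pt t) * I by ring, Complex.mul_I_im]

lemma primitive_pt_sub (t : ℝ) :
    HasDerivAt (fun t => (Complex.log (pt t - 1)).im) (1 / (pt t - 1)).re t := by
  have h3 := hasDerivAt_im (((hasDerivAt_pt t).sub_const 1).clog_real (Or.inl (by simp)))
  convert h3 using 1
  rw [show I / (pt t - 1) = (1 / (pt t - 1)) * I by ring, Complex.mul_I_im]

/-- The digamma part. -/
noncomputable def Dt (t : ℝ) : ℝ := (logDeriv Complex.Gamma (pt t / 2)).re

lemma continuous_pt : Continuous pt := by unfold pt; fun_prop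

lemma continuousAt_logDeriv {f : ℂ → ℂ} {z : ℂ} (hf : AnalyticAt ℂ f z) (hz : f z ≠ 0) :
    ContinuousAt (logDeriv f) z := by
  have : logDeriv f = fun z => deriv f z / f z := by funext w; exact logDeriv_apply f w
  rw [this]
  exact hf.deriv.continuousAt.div hf.continuousAt hz

lemma continuous_Dt : Continuous Dt := by
  unfold Dt
  rw [continuous_iff_continuousAt]
  intro t
  have hre : 0 < (pt t / 2).re := by simp
  have han : AnalyticAt ℂ Complex.Gamma (pt t / 2) := by
    rw [Complex.analyticAt_iff_eventually_differentiableAt]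
    have ho : IsOpen {z : ℂ | 0 < z.re} := isOpen_lt continuous_const continuous_re
    filter_upwards [ho.mem_nhds hre] with z hz
    refine differentiableAt_Gamma _ fun m h => ?_
    have h0 : (0:ℝ) < z.re := hz
    rw [h] at h0
    simp at h0
    have : (0:ℝ) ≤ m := by positivity
    linarith
  have h1 := continuousAt_logDeriv han (Complex.Gamma_ne_zero_of_re_pos hre)
  have h2 : ContinuousAt (fun t : ℝ => pt t / 2) t := (continuous_pt.div_const 2).continuousAt
  exact continuous_re.continuousAt.comp (ContinuousAt.comp (f := fun t : ℝ => pt t / 2) h1 h2)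

/-- The elementary part. -/
noncomputable def Et (t : ℝ) : ℝ :=
  (logDeriv riemannZeta (pt t)).re + (1 / pt t).re + (1 / (pt t - 1)).re

/-- Its primitive. -/
noncomputable def Lt (t : ℝ) : ℝ :=
  (Complex.log (riemannZeta (pt t))).im + (Complex.log (pt t)).im + (Complex.log (pt t - 1)).im

lemma hasDerivAt_Lt (t : ℝ) : HasDerivAt Lt (Et t) t :=
  ((primitive_zeta t).add (primitive_pt t)).add (primitive_pt_sub t)

lemma abs_Lt_le (t : ℝ) : |Lt t| ≤ 3 * Real.pi := by
  unfold Lt
  rw [Complex.log_im, Complex.log_im, Complex.log_im]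
  have h1 := Complex.abs_arg_le_pi (riemannZeta (pt t))
  have h2 := Complex.abs_arg_le_pi (pt t)
  have h3 := Complex.abs_arg_le_pi (pt t - 1)
  rw [abs_le] at h1 h2 h3 ⊢
  constructor <;> linarith [h1.1, h2.1, h3.1, h1.2, h2.2, h3.2]

lemma continuous_Et : Continuous Et := by
  unfold Et
  have h1 : Continuous fun t : ℝ => (logDeriv riemannZeta (pt t)).re := by
    rw [continuous_iff_continuousAt]
    intro t
    have h1 := continuousAt_logDeriv (zeta_analyticAt (pt_ne_one t)) (zeta_pt_ne t)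
    exact continuous_re.continuousAt.comp (ContinuousAt.comp (f := pt) h1 continuous_pt.continuousAt)
  have h2 : Continuous fun t : ℝ => (1 / pt t).re := by
    refine continuous_re.comp (Continuous.div continuous_const continuous_pt fun t h => ?_)
    have : (pt t).re = 0 := by rw [h]; simp
    simp at this
  have h3 : Continuous fun t : ℝ => (1 / (pt t - 1)).re := by
    refine continuous_re.comp (Continuous.div continuous_const (continuous_pt.sub continuous_const)
      fun t h => ?_)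
    exact pt_ne_one t (sub_eq_zero.mp h)
  exact (h1.add h2).add h3

lemma Rt_eq (t : ℝ) : Rt t = Et t - Real.log Real.pi / 2 + Dt t / 2 := by
  unfold Rt Et Dt
  rw [logDeriv_xiF_pt]
  simp only [add_re, sub_re]
  have e1 : ((Real.log Real.pi : ℂ) / 2).re = Real.log Real.pi / 2 := by
    rw [show ((Real.log Real.pi : ℂ) / 2) = ((Real.log Real.pi / 2 : ℝ) : ℂ) by push_cast; ring]
    exact ofReal_re _
  have e2 : (logDeriv Complex.Gamma (pt t / 2) / 2).re =
      (logDeriv Complex.Gamma (pt t / 2)).re / 2 := by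
    rw [show (logDeriv Complex.Gamma (pt t / 2) / 2) =
      logDeriv Complex.Gamma (pt t / 2) / ((2:ℝ) : ℂ) by push_cast; ring, Complex.div_ofReal_re]
  rw [e1, e2]
  ring

lemma continuous_Rt : Continuous Rt := by
  have : Rt = fun t => Et t - Real.log Real.pi / 2 + Dt t / 2 := funext Rt_eq
  rw [this]
  exact (continuous_Et.sub continuous_const).add (continuous_Dt.div_const 2)

lemma integral_Dt_bound : ∃ C : ℝ, 0 < C ∧ ∀ T : ℝ, 1 ≤ T →
    |(∫ t in (0:ℝ)..T, Dt t) - (T * Real.log (T / 2) - T)| ≤ C * (1 + Real.log T) := by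
  obtain ⟨B, hB, h⟩ := re_digamma_half
  refine ⟨B + 20, by positivity, fun T hT => ?_⟩
  have hint : ∀ a b : ℝ, IntervalIntegrable Dt volume a b := fun a b =>
    continuous_Dt.intervalIntegrable a b
  have hsplit : ∫ t in (0:ℝ)..T, Dt t = (∫ t in (0:ℝ)..1, Dt t) + ∫ t in (1:ℝ)..T, Dt t :=
    (intervalIntegral.integral_add_adjacent_intervals (hint 0 1) (hint 1 T)).symm
  have h1 : |∫ t in (0:ℝ)..1, Dt t| ≤ 6 := by
    have := intervalIntegral.norm_integral_le_of_norm_le_const (a := 0) (b := 1) (C := 6)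
      (f := Dt) (fun t ht => by
        rw [Set.uIoc_of_le zero_le_one] at ht
        rw [Real.norm_eq_abs]
        refine ((digamma_bounds t).1).trans ?_
        have h2 : |t| ≤ 1 := by rw [abs_of_pos ht.1]; exact ht.2
        have h3 : Real.log (|t| + 2) ≤ |t| + 2 - 1 :=
          Real.log_le_sub_one_of_pos (by linarith [abs_nonneg t])
        linarith)
    simpa using this
  -- main integral
  have hF : ∀ t ∈ Set.uIcc (1:ℝ) T, HasDerivAt (fun t => t * Real.log (t / 2) - t)
      (Real.log (t / 2)) t := by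
    intro t ht
    rw [Set.uIcc_of_le hT] at ht
    have ht0 : (0:ℝ) < t := by linarith [ht.1]
    have h2 : HasDerivAt (fun t : ℝ => Real.log (t / 2)) (1 / t) t := by
      have h2a : HasDerivAt (fun t : ℝ => t / 2) (1 / 2) t := (hasDerivAt_id t).div_const 2
      have := h2a.log (by positivity)
      convert this using 1
      field_simp
    have h3a : HasDerivAt (fun t : ℝ => t * Real.log (t / 2))
        (1 * Real.log (t / 2) + t * (1 / t)) t := (hasDerivAt_id t).mul h2
    have h3 : HasDerivAt (fun t : ℝ => t * Real.log (t / 2) - t)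
        (1 * Real.log (t / 2) + t * (1 / t) - 1) t := h3a.sub (hasDerivAt_id t)
    have h3b : 1 * Real.log (t / 2) + t * (1 / t) - 1 = Real.log (t / 2) := by
      field_simp
      ring
    rw [h3b] at h3
    exact h3
  have hlogint : IntervalIntegrable (fun t : ℝ => Real.log (t / 2)) volume 1 T := by
    refine ContinuousOn.intervalIntegrable ?_
    intro t ht
    rw [Set.uIcc_of_le hT] at ht
    have ht0 : (0:ℝ) < t := by linarith [ht.1]
    refine ContinuousAt.continuousWithinAt ?_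
    refine ContinuousAt.log (by fun_prop) (by positivity)
  have h4 : ∫ t in (1:ℝ)..T, Real.log (t / 2) = (T * Real.log (T / 2) - T) -
      (1 * Real.log (1 / 2) - 1) :=
    intervalIntegral.integral_eq_sub_of_hasDerivAt hF hlogint
  have hinvint : IntervalIntegrable (fun t : ℝ => B / t) volume 1 T := by
    refine ContinuousOn.intervalIntegrable ?_
    intro t ht
    rw [Set.uIcc_of_le hT] at ht
    have ht0 : (0:ℝ) < t := by linarith [ht.1]
    refine ContinuousAt.continuousWithinAt ?_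
    exact ContinuousAt.div continuousAt_const continuousAt_id ht0.ne'
  have h5 : |∫ t in (1:ℝ)..T, (Dt t - Real.log (t / 2))| ≤ B * Real.log T := by
    have h6 := intervalIntegral.norm_integral_le_of_norm_le (a := 1) (b := T) (μ := volume)
      (f := fun t => Dt t - Real.log (t / 2)) (g := fun t => B / t) hT
      (Eventually.of_forall fun t ht => by
        have ht0 : (0:ℝ) < t := by linarith [ht.1]
        have h7 := h 2 t (by norm_num) (by norm_num) (by rw [abs_of_pos ht0]; exact ht.1.le)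
        rw [abs_of_pos ht0] at h7
        rw [Real.norm_eq_abs]
        have h8 : (((2:ℝ) : ℂ) + t * I) / 2 = pt t / 2 := by unfold pt; push_cast; ring
        rw [h8] at h7
        exact h7) hinvint
    rw [Real.norm_eq_abs] at h6
    refine h6.trans (le_of_eq ?_)
    have h9 : (fun t : ℝ => B / t) = fun t : ℝ => B * (1 / t) := by funext t; ring
    rw [h9, intervalIntegral.integral_const_mul, integral_one_div (by
      rw [Set.uIcc_of_le hT]; intro h; linarith [h.1]), div_one]
  have h10 : ∫ t in (1:ℝ)..T, Dt t = (∫ t in (1:ℝ)..T, (Dt t - Real.log (t / 2))) +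
      ∫ t in (1:ℝ)..T, Real.log (t / 2) := by
    rw [← intervalIntegral.integral_add ((hint 1 T).sub hlogint) hlogint]
    congr 1
    funext t
    ring
  have h11 : |Real.log (1 / 2)| ≤ 1 := by
    rw [one_div, Real.log_inv, abs_neg, abs_of_nonneg (Real.log_nonneg (by norm_num))]
    linarith [Real.log_two_lt_d9]
  have hlogT : 0 ≤ Real.log T := Real.log_nonneg hT
  rw [hsplit, h10, h4]
  rw [abs_le] at h1 h5 h11 ⊢
  constructor <;> nlinarith [h1.1, h1.2, h5.1, h5.2, h11.1, h11.2]

/-- **Main term.** -/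
theorem integral_Rt_bound : ∃ C : ℝ, 0 < C ∧ ∀ T : ℝ, 1 ≤ T →
    |(∫ t in (0:ℝ)..T, Rt t) - (T / 2 * Real.log (T / (2 * Real.pi)) - T / 2)| ≤
      C * (1 + Real.log T) := by
  obtain ⟨B, hB, h⟩ := integral_Dt_bound
  refine ⟨B + 6 * Real.pi, by positivity, fun T hT => ?_⟩
  have hlogT : 0 ≤ Real.log T := Real.log_nonneg hT
  have h1 : ∫ t in (0:ℝ)..T, Rt t = (∫ t in (0:ℝ)..T, Et t) - T * (Real.log Real.pi / 2) +
      (∫ t in (0:ℝ)..T, Dt t) / 2 := by
    have hc1 : IntervalIntegrable (fun t => Et t - Real.log Real.pi / 2) volume 0 T :=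
      (continuous_Et.sub continuous_const).intervalIntegrable _ _
    have hc2 : IntervalIntegrable (fun t => Dt t / 2) volume 0 T :=
      (continuous_Dt.div_const 2).intervalIntegrable _ _
    have hc3 : IntervalIntegrable (fun _ : ℝ => Real.log Real.pi / 2) volume 0 T :=
      intervalIntegrable_const
    calc ∫ t in (0:ℝ)..T, Rt t = ∫ t in (0:ℝ)..T, ((Et t - Real.log Real.pi / 2) + Dt t / 2) := by
          congr 1; funext t; exact Rt_eq t
      _ = (∫ t in (0:ℝ)..T, (Et t - Real.log Real.pi / 2)) + ∫ t in (0:ℝ)..T, Dt t / 2 :=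
          intervalIntegral.integral_add hc1 hc2
      _ = ((∫ t in (0:ℝ)..T, Et t) - ∫ _t in (0:ℝ)..T, Real.log Real.pi / 2) +
          ∫ t in (0:ℝ)..T, Dt t / 2 := by
          rw [intervalIntegral.integral_sub (continuous_Et.intervalIntegrable _ _) hc3]
      _ = _ := by
          rw [intervalIntegral.integral_const, intervalIntegral.integral_div]
          simp
  have h3 : ∫ t in (0:ℝ)..T, Et t = Lt T - Lt 0 :=
    intervalIntegral.integral_eq_sub_of_hasDerivAt (fun t _ => hasDerivAt_Lt t)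
      (continuous_Et.intervalIntegrable _ _)
  have h4 := abs_Lt_le T
  have h5 := abs_Lt_le 0
  have h6 := h T hT
  have h7 : T / 2 * Real.log (T / (2 * Real.pi)) - T / 2 =
      (T * Real.log (T / 2) - T) / 2 - T * (Real.log Real.pi / 2) := by
    have hpi := Real.pi_pos
    rw [show T / (2 * Real.pi) = (T / 2) / Real.pi by field_simp,
      Real.log_div (by positivity) hpi.ne']
    ring
  rw [h1, h3, h7]
  have hpi := Real.pi_pos
  have h8 : 0 ≤ Real.pi * Real.log T := by positivity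
  rw [abs_le] at h4 h5 h6 ⊢
  constructor <;> nlinarith [h4.1, h4.2, h5.1, h5.2, h6.1, h6.2]

end Pool.Agent.Hadamard
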