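import Pool.Agent.Lib.Hadamard.Conj
import Pool.Agent.Lib.Hadamard.Digamma

/-!
# Sums over the nontrivial zeros on the line `Re s = 2`
-/

open Complex Filter Topology

namespace Pool.Agent.Hadamard

/-- The point `2 + it`. -/
noncomputable def pt (t : ℝ) : ℂ := 2 + t * I

@[simp] lemma pt_re (t : ℝ) : (pt t).re = 2 := by simp [pt]
@[simp] lemma pt_im (t : ℝ) : (pt t).im = t := by simp [pt]

lemma pt_ne_one (t : ℝ) : pt t ≠ 1 := by
  intro h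
  have : (pt t).re = (1:ℂ).re := by rw [h]
  simp at this

lemma norm_logDeriv_zeta_two : ∃ C : ℝ, 0 < C ∧ ∀ t : ℝ, ‖logDeriv riemannZeta (pt t)‖ ≤ C := by
  have hsum : ∀ t : ℝ, LSeriesSummable (fun n => (ArithmeticFunction.vonMangoldt n : ℂ)) (pt t) :=
    fun t => ArithmeticFunction.LSeriesSummable_vonMangoldt (by simp)
  set B : ℝ := ∑' n, ‖LSeries.term (fun n => (ArithmeticFunction.vonMangoldt n : ℂ)) (pt 0) n‖
  have hB0 : 0 ≤ B := tsum_nonneg fun n => norm_nonneg _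
  refine ⟨B + 1, by linarith, fun t => ?_⟩
  have h1 : logDeriv riemannZeta (pt t) =
      -LSeries (fun n => (ArithmeticFunction.vonMangoldt n : ℂ)) (pt t) := by
    rw [ArithmeticFunction.LSeries_vonMangoldt_eq_deriv_riemannZeta_div (by simp), logDeriv_apply]
    ring
  rw [h1, norm_neg]
  unfold LSeries
  have h2 : ‖∑' n, LSeries.term (fun n => (ArithmeticFunction.vonMangoldt n : ℂ)) (pt t) n‖ ≤
      ∑' n, ‖LSeries.term (fun n => (ArithmeticFunction.vonMangoldt n : ℂ)) (pt t) n‖ :=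
    norm_tsum_le_tsum_norm (hsum t).norm
  refine h2.trans ?_
  have h3 : ∑' n, ‖LSeries.term (fun n => (ArithmeticFunction.vonMangoldt n : ℂ)) (pt t) n‖ ≤ B :=
    (hsum t).norm.tsum_le_tsum
      (fun n => LSeries.norm_term_le_of_re_le_re _ (by simp) n) (hsum 0).norm
  linarith

lemma norm_zeta_two_sub_one (t : ℝ) : ‖riemannZeta (pt t) - 1‖ < 1 := by
  have h1 : riemannZeta (pt t) = ∑' n : ℕ, 1 / (n + 1 : ℂ) ^ (pt t) :=
    zeta_eq_tsum_one_div_nat_add_one_cpow (by simp)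
  have hs2 := hasSum_zeta_two
  have hnorm : ∀ n : ℕ, ‖(1 : ℂ) / (n + 1 : ℂ) ^ (pt t)‖ = 1 / ((n:ℝ) + 1) ^ 2 := by
    intro n
    rw [norm_div, norm_one]
    have : (n + 1 : ℂ) = (((n + 1 : ℕ) : ℝ) : ℂ) := by push_cast; ring
    rw [this, Complex.norm_cpow_eq_rpow_re_of_pos (by positivity), pt_re]
    push_cast
    norm_num
  have hs3 : Summable (fun n : ℕ => 1 / ((n:ℝ) + 1) ^ 2) := by
    have := (summable_nat_add_iff 1).mpr hs2.summable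
    simpa using this
  have hs4 : Summable (fun n : ℕ => (1 : ℂ) / (n + 1 : ℂ) ^ (pt t)) := by
    refine Summable.of_norm ?_
    exact hs3.congr fun n => (hnorm n).symm
  have h5 : riemannZeta (pt t) - 1 = ∑' n : ℕ, 1 / ((n + 1 : ℕ) + 1 : ℂ) ^ (pt t) := by
    rw [h1, hs4.tsum_eq_zero_add]
    simp
  rw [h5]
  have hs6 : Summable (fun n : ℕ => 1 / (((n + 1 : ℕ):ℝ) + 1) ^ 2) :=
    (summable_nat_add_iff 1).mpr hs3
  have h7 : ‖∑' n : ℕ, 1 / ((n + 1 : ℕ) + 1 : ℂ) ^ (pt t)‖ ≤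
      ∑' n : ℕ, 1 / (((n + 1 : ℕ):ℝ) + 1) ^ 2 := by
    refine tsum_of_norm_bounded hs6.hasSum fun n => ?_
    rw [hnorm (n + 1)]
  refine h7.trans_lt ?_
  have h8 : ∑' n : ℕ, 1 / ((n:ℝ)) ^ 2 = Real.pi ^ 2 / 6 := hs2.tsum_eq
  have h9 : ∑' n : ℕ, 1 / ((n:ℝ)) ^ 2 = 0 + ∑' n : ℕ, 1 / ((n:ℝ) + 1) ^ 2 := by
    rw [hs2.summable.tsum_eq_zero_add]; simp
  have h10 : ∑' n : ℕ, 1 / ((n:ℝ) + 1) ^ 2 = 1 + ∑' n : ℕ, 1 / (((n + 1 : ℕ):ℝ) + 1) ^ 2 := by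
    rw [hs3.tsum_eq_zero_add]; simp
  have h11 : Real.pi ^ 2 < 12 := by
    have := Real.pi_lt_d2
    nlinarith [Real.pi_pos]
  linarith

lemma zeta_two_slit (t : ℝ) : riemannZeta (pt t) ∈ slitPlane := by
  have h := norm_zeta_two_sub_one t
  rw [mem_slitPlane_iff]
  left
  have h1 : |(riemannZeta (pt t) - 1).re| < 1 := (abs_re_le_norm _).trans_lt h
  rw [sub_re, one_re, abs_lt] at h1
  linarith [h1.1]

lemma digamma_bounds (t : ℝ) :
    |(logDeriv Complex.Gamma (pt t / 2)).re| ≤ Real.log (|t| + 2) + 4 ∧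
    |(logDeriv Complex.Gamma (pt t / 2)).im| ≤ 8 := by
  set z := pt t / 2 with hz
  have hre : z.re = 1 := by simp [hz]
  have him : z.im = t / 2 := by simp [hz]
  have h1 := norm_digamma_sub_log_le (z := z) (by rw [hre]; norm_num)
  have hn1 : 1 ≤ ‖z‖ := by
    have := abs_re_le_norm z
    rw [hre] at this
    simpa using this
  have hn2 : ‖z‖ ≤ |t| + 2 := by
    have := Complex.norm_le_abs_re_add_abs_im z
    rw [hre, him, abs_one, abs_div, abs_two] at this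
    have h0 := abs_nonneg t
    linarith
  have h2 : 2 / ‖z‖ ^ 2 + 2 / ‖z‖ ≤ 4 := by
    have e1 : 2 / ‖z‖ ^ 2 ≤ 2 := by
      rw [div_le_iff₀ (by positivity)]
      nlinarith
    have e2 : 2 / ‖z‖ ≤ 2 := by
      rw [div_le_iff₀ (by positivity)]; linarith
    linarith
  have h3 := h1.trans h2
  constructor
  · have h4 := (abs_re_le_norm _).trans h3
    rw [sub_re, Complex.log_re] at h4
    have h5 : 0 ≤ Real.log ‖z‖ := Real.log_nonneg hn1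
    have h6 : Real.log ‖z‖ ≤ Real.log (|t| + 2) := Real.log_le_log (by linarith) hn2
    rw [abs_le] at h4 ⊢
    constructor <;> linarith [h4.1, h4.2]
  · have h4 := (abs_im_le_norm _).trans h3
    rw [sub_im, Complex.log_im] at h4
    have h5 := Complex.neg_pi_lt_arg z
    have h6 := Complex.arg_le_pi z
    have h7 := Real.pi_lt_d2
    rw [abs_le] at h4 ⊢
    constructor <;> linarith [h4.1, h4.2]

/-- The real part of `ξ'/ξ(2+it)`. -/
noncomputable def Rt (t : ℝ) : ℝ := (logDeriv xiF (pt t)).re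

lemma logDeriv_xiF_pt (t : ℝ) : logDeriv xiF (pt t) = 1 / pt t + 1 / (pt t - 1) -
    (Real.log Real.pi : ℂ) / 2 + logDeriv Complex.Gamma (pt t / 2) / 2 +
      logDeriv riemannZeta (pt t) :=
  logDeriv_xiF (by simp) (pt_ne_one t)

lemma norm_one_div_pt (t : ℝ) : ‖1 / pt t‖ ≤ 1 := by
  rw [norm_div, norm_one]
  have := abs_re_le_norm (pt t)
  rw [pt_re] at this
  rw [div_le_one (by linarith [abs_two (α := ℝ)])]
  rw [abs_two] at this
  linarith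

lemma norm_one_div_pt_sub (t : ℝ) : ‖1 / (pt t - 1)‖ ≤ 1 := by
  rw [norm_div, norm_one]
  have := abs_re_le_norm (pt t - 1)
  rw [sub_re, pt_re, one_re] at this
  norm_num at this
  rw [div_le_one (by linarith)]
  exact this

lemma log_pi_div_two_bound : 0 ≤ Real.log Real.pi / 2 ∧ Real.log Real.pi / 2 ≤ 1 := by
  have h1 := Real.pi_gt_three
  have h2 := Real.pi_lt_d2
  constructor
  · have := Real.log_nonneg (show 1 ≤ Real.pi by linarith)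
    linarith
  · have h3 := Real.log_le_sub_one_of_pos (show 0 < Real.pi / 2 by linarith)
    rw [Real.log_div (by linarith) (by norm_num)] at h3
    linarith [Real.log_two_lt_d9]

lemma one_half_le_log (t : ℝ) : 1 / 2 ≤ Real.log (|t| + 2) := by
  have h1 : Real.log 2 ≤ Real.log (|t| + 2) :=
    Real.log_le_log (by norm_num) (by linarith [abs_nonneg t])
  linarith [Real.log_two_gt_d9]

lemma Rt_le : ∃ C : ℝ, 0 < C ∧ ∀ t : ℝ, Rt t ≤ C * Real.log (|t| + 2) := by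
  obtain ⟨B, hB, h⟩ := norm_logDeriv_zeta_two
  refine ⟨1 + 2 * (4 + B), by positivity, fun t => ?_⟩
  unfold Rt
  rw [logDeriv_xiF_pt]
  simp only [add_re, sub_re]
  have e1 : ((Real.log Real.pi : ℂ) / 2).re = Real.log Real.pi / 2 := by
    rw [show ((Real.log Real.pi : ℂ) / 2) = ((Real.log Real.pi / 2 : ℝ) : ℂ) by push_cast; ring]
    exact ofReal_re _
  have e2 : (logDeriv Complex.Gamma (pt t / 2) / 2).re =
      (logDeriv Complex.Gamma (pt t / 2)).re / 2 := by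
    rw [show (logDeriv Complex.Gamma (pt t / 2) / 2) =
      logDeriv Complex.Gamma (pt t / 2) / ((2:ℝ) : ℂ) by push_cast; ring, Complex.div_ofReal_re]
  rw [e1, e2]
  have h1 := (abs_re_le_norm _).trans (norm_one_div_pt t)
  have h2 := (abs_re_le_norm _).trans (norm_one_div_pt_sub t)
  have h3 := (abs_re_le_norm _).trans (h t)
  have h4 := (digamma_bounds t).1
  have h5 := log_pi_div_two_bound
  have h6 := one_half_le_log t
  rw [abs_le] at h1 h2 h3 h4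
  have h7 : 4 + B ≤ 2 * (4 + B) * Real.log (|t| + 2) := by nlinarith
  nlinarith [h1.2, h2.2, h3.2, h4.2, h5.1]

lemma re_one_div_pt (t : ℝ) (ρ : ℂ) : (1 / (pt t - ρ)).re =
    (2 - ρ.re) / ((2 - ρ.re) ^ 2 + (t - ρ.im) ^ 2) := by
  rw [one_div, inv_re, normSq_apply]
  simp only [sub_re, sub_im, pt_re, pt_im]
  ring

lemma im_one_div_pt (t : ℝ) (ρ : ℂ) : (1 / (pt t - ρ)).im =
    -((t - ρ.im) / ((2 - ρ.re) ^ 2 + (t - ρ.im) ^ 2)) := by
  rw [one_div, inv_im, normSq_apply]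
  simp only [sub_re, sub_im, pt_re, pt_im]
  ring

lemma hasSum_Rt (t : ℝ) : HasSum (fun ρ : ntz => (mult ρ : ℝ) *
    ((2 - (ρ:ℂ).re) / ((2 - (ρ:ℂ).re) ^ 2 + (t - (ρ:ℂ).im) ^ 2))) (Rt t) := by
  have h := hasSum_re_zeros_xi (s := pt t) (by simp)
  simp only [re_one_div_pt] at h
  exact h

lemma weight_le (t : ℝ) (ρ : ntz) : (mult ρ : ℝ) / (1 + (t - (ρ:ℂ).im) ^ 2) ≤
    4 * ((mult ρ : ℝ) * ((2 - (ρ:ℂ).re) / ((2 - (ρ:ℂ).re) ^ 2 + (t - (ρ:ℂ).im) ^ 2))) := by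
  have h1 := ρ.2.2.1
  have h2 := ρ.2.2.2
  have hm : (0:ℝ) ≤ mult ρ := Nat.cast_nonneg _
  have h3 : 1 / (1 + (t - (ρ:ℂ).im) ^ 2) ≤
      4 * ((2 - (ρ:ℂ).re) / ((2 - (ρ:ℂ).re) ^ 2 + (t - (ρ:ℂ).im) ^ 2)) := by
    rw [← mul_div_assoc, div_le_div_iff₀ (by positivity) (by nlinarith [sq_nonneg (t - (ρ:ℂ).im)])]
    nlinarith [sq_nonneg (t - (ρ:ℂ).im), sq_nonneg ((ρ:ℂ).re)]
  calc (mult ρ : ℝ) / (1 + (t - (ρ:ℂ).im) ^ 2) = mult ρ * (1 / (1 + (t - (ρ:ℂ).im) ^ 2)) := by ring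
    _ ≤ mult ρ * (4 * ((2 - (ρ:ℂ).re) / ((2 - (ρ:ℂ).re) ^ 2 + (t - (ρ:ℂ).im) ^ 2))) :=
      mul_le_mul_of_nonneg_left h3 hm
    _ = _ := by ring

lemma summable_weight (t : ℝ) :
    Summable (fun ρ : ntz => (mult ρ : ℝ) / (1 + (t - (ρ:ℂ).im) ^ 2)) := by
  refine Summable.of_nonneg_of_le (fun ρ => by positivity) (weight_le t) ?_
  exact (hasSum_Rt t).summable.mul_left 4

/-- `∑ m(ρ)/(1+(t-γ)²) ≤ C log (|t|+2)`. -/
theorem tsum_weight_le : ∃ C : ℝ, 0 < C ∧ ∀ t : ℝ,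
    ∑' ρ : ntz, (mult ρ : ℝ) / (1 + (t - (ρ:ℂ).im) ^ 2) ≤ C * Real.log (|t| + 2) := by
  obtain ⟨C, hC, h⟩ := Rt_le
  refine ⟨4 * C, by positivity, fun t => ?_⟩
  have h1 := (summable_weight t).tsum_le_tsum (weight_le t) ((hasSum_Rt t).summable.mul_left 4)
  rw [tsum_mul_left, (hasSum_Rt t).tsum_eq] at h1
  nlinarith [h t]

/-- The imaginary part sum. -/
lemma hasSum_im (t : ℝ) : HasSum (fun ρ : ntz => (mult ρ : ℝ) *
    ((t - (ρ:ℂ).im) / ((2 - (ρ:ℂ).re) ^ 2 + (t - (ρ:ℂ).im) ^ 2) +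
      (ρ:ℂ).im / ((2 - (ρ:ℂ).re) ^ 2 + (ρ:ℂ).im ^ 2)))
    ((logDeriv xiF (pt 0)).im - (logDeriv xiF (pt t)).im) := by
  have hnot : ∀ t : ℝ, pt t ∉ ntz := fun t h => by
    have := h.2.2
    rw [pt_re] at this
    norm_num at this
  have h := hasSum_complex_zeros (hnot t) (hnot 0)
  have h2 := ((Complex.hasSum_iff _ _).mp h |>.2).neg
  rw [sub_im, neg_sub] at h2
  have heq : (fun ρ : ntz => (mult ρ : ℝ) *
    ((t - (ρ:ℂ).im) / ((2 - (ρ:ℂ).re) ^ 2 + (t - (ρ:ℂ).im) ^ 2) +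
      (ρ:ℂ).im / ((2 - (ρ:ℂ).re) ^ 2 + (ρ:ℂ).im ^ 2))) =
      fun ρ : ntz => -((mult ρ : ℂ) * (1 / (pt t - ρ) - 1 / (pt 0 - ρ))).im := by
    funext ρ
    have e1 : ((mult ρ : ℂ) * (1 / (pt t - ρ) - 1 / (pt 0 - ρ))).im =
        (mult ρ : ℝ) * ((1 / (pt t - ρ)).im - (1 / (pt 0 - ρ)).im) := by
      rw [show ((mult ρ : ℕ) : ℂ) = (((mult ρ : ℕ) : ℝ) : ℂ) by push_cast; rfl,
        Complex.im_ofReal_mul, sub_im]
    rw [e1, im_one_div_pt, im_one_div_pt]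
    have e2 : (0 - (ρ:ℂ).im) / ((2 - (ρ:ℂ).re) ^ 2 + (0 - (ρ:ℂ).im) ^ 2) =
        -((ρ:ℂ).im / ((2 - (ρ:ℂ).re) ^ 2 + (ρ:ℂ).im ^ 2)) := by
      rw [zero_sub, neg_sq, neg_div]
    rw [e2]
    ring
  rw [heq]
  exact h2

lemma im_logDeriv_xiF_bound : ∃ C : ℝ, 0 < C ∧ ∀ t : ℝ, |(logDeriv xiF (pt t)).im| ≤ C := by
  obtain ⟨B, hB, h⟩ := norm_logDeriv_zeta_two
  refine ⟨6 + B, by positivity, fun t => ?_⟩
  rw [logDeriv_xiF_pt]
  simp only [add_im, sub_im]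
  have e1 : ((Real.log Real.pi : ℂ) / 2).im = 0 := by
    rw [show ((Real.log Real.pi : ℂ) / 2) = ((Real.log Real.pi / 2 : ℝ) : ℂ) by push_cast; ring]
    exact ofReal_im _
  have e2 : (logDeriv Complex.Gamma (pt t / 2) / 2).im =
      (logDeriv Complex.Gamma (pt t / 2)).im / 2 := by
    rw [show (logDeriv Complex.Gamma (pt t / 2) / 2) =
      logDeriv Complex.Gamma (pt t / 2) / ((2:ℝ) : ℂ) by push_cast; ring, Complex.div_ofReal_im]
  rw [e1, e2]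
  have h1 := (abs_im_le_norm _).trans (norm_one_div_pt t)
  have h2 := (abs_im_le_norm _).trans (norm_one_div_pt_sub t)
  have h3 := (abs_im_le_norm _).trans (h t)
  have h4 := (digamma_bounds t).2
  rw [abs_le] at h1 h2 h3 h4 ⊢
  constructor <;> linarith [h1.1, h2.1, h3.1, h4.1, h1.2, h2.2, h3.2, h4.2]

/-- Count of zeros in a unit window. -/
theorem window_count : ∃ C : ℝ, 0 < C ∧ ∀ t : ℝ, ∀ S : Finset ntz,
    (∀ ρ ∈ S, |(ρ:ℂ).im - t| ≤ 1) → ∑ ρ ∈ S, (mult ρ : ℝ) ≤ C * Real.log (|t| + 2) := by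
  obtain ⟨C, hC, h⟩ := tsum_weight_le
  refine ⟨2 * C, by positivity, fun t S hS => ?_⟩
  have h1 : ∑ ρ ∈ S, (mult ρ : ℝ) ≤ ∑ ρ ∈ S, 2 * ((mult ρ : ℝ) / (1 + (t - (ρ:ℂ).im) ^ 2)) := by
    refine Finset.sum_le_sum fun ρ hρ => ?_
    have h2 := hS ρ hρ
    have h3 : (t - (ρ:ℂ).im) ^ 2 ≤ 1 := by
      have : (t - (ρ:ℂ).im) ^ 2 = |(ρ:ℂ).im - t| ^ 2 := by rw [sq_abs]; ring
      rw [this]
      exact pow_le_one₀ (abs_nonneg _) h2
    have hm : (0:ℝ) ≤ mult ρ := Nat.cast_nonneg _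
    rw [← mul_div_assoc, le_div_iff₀ (by positivity)]
    nlinarith
  have h4 : ∑ ρ ∈ S, ((mult ρ : ℝ) / (1 + (t - (ρ:ℂ).im) ^ 2)) ≤
      ∑' ρ : ntz, (mult ρ : ℝ) / (1 + (t - (ρ:ℂ).im) ^ 2) :=
    (summable_weight t).sum_le_tsum S fun ρ _ => by positivity
  rw [← Finset.mul_sum] at h1
  nlinarith [h t]

end Pool.Agent.Hadamard
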