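import Mathlib

/-!
# Growth of the Riemann xi function
-/

open Complex Metric Set Filter Topology MeasureTheory

namespace Pool.Agent.Hadamard

/-- A Mellin transform that converges at two real abscissae is bounded in the strip between. -/
lemma exists_norm_mellin_le {f : ℝ → ℂ} {a b : ℝ} (ha : MellinConvergent f a)
    (hb : MellinConvergent f b) :
    ∃ K : ℝ, 0 ≤ K ∧ ∀ s : ℂ, a ≤ s.re → s.re ≤ b → ‖mellin f s‖ ≤ K := by
  have hna : IntegrableOn (fun t : ℝ => t ^ (a - 1) * ‖f t‖) (Ioi 0) := by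
    refine (IntegrableOn.congr_fun ha.norm (fun t ht => ?_) measurableSet_Ioi)
    have ht' : 0 < t := ht
    rw [norm_smul, Complex.norm_cpow_eq_rpow_re_of_pos ht']
    simp
  have hnb : IntegrableOn (fun t : ℝ => t ^ (b - 1) * ‖f t‖) (Ioi 0) := by
    refine (IntegrableOn.congr_fun hb.norm (fun t ht => ?_) measurableSet_Ioi)
    have ht' : 0 < t := ht
    rw [norm_smul, Complex.norm_cpow_eq_rpow_re_of_pos ht']
    simp
  refine ⟨∫ t in Ioi (0:ℝ), (t ^ (a - 1) * ‖f t‖ + t ^ (b - 1) * ‖f t‖), ?_, ?_⟩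
  · refine setIntegral_nonneg measurableSet_Ioi fun t ht => ?_
    have ht' : 0 < t := ht
    positivity
  · intro s hs1 hs2
    unfold mellin
    refine norm_integral_le_of_norm_le (hna.add hnb) ?_
    refine (ae_restrict_iff' measurableSet_Ioi).mpr (Eventually.of_forall fun t ht => ?_)
    have ht' : 0 < t := ht
    rw [norm_smul, Complex.norm_cpow_eq_rpow_re_of_pos ht', ← add_mul]
    refine mul_le_mul_of_nonneg_right ?_ (norm_nonneg _)
    simp only [sub_re, one_re]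
    rcases le_total t 1 with h | h
    · have : t ^ (s.re - 1) ≤ t ^ (a - 1) :=
        Real.rpow_le_rpow_of_exponent_ge ht' h (by linarith)
      have h2 : 0 ≤ t ^ (b - 1) := by positivity
      linarith
    · have : t ^ (s.re - 1) ≤ t ^ (b - 1) :=
        Real.rpow_le_rpow_of_exponent_le h (by linarith)
      have h2 : 0 ≤ t ^ (a - 1) := by positivity
      linarith

/-- The completed zeta function `Λ₀` is bounded in vertical strips. -/
lemma exists_norm_completedZeta₀_le (a b : ℝ) :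
    ∃ K : ℝ, 0 ≤ K ∧ ∀ s : ℂ, a ≤ s.re → s.re ≤ b → ‖completedRiemannZeta₀ s‖ ≤ K := by
  set P := HurwitzZeta.hurwitzEvenFEPair 0 with hP
  have hconv : ∀ s : ℂ, MellinConvergent P.f_modif s := fun s =>
    (P.isStrongFEPair_toStrongFEPair.hasMellin s).1
  obtain ⟨K, hK, hb⟩ := exists_norm_mellin_le (a := a / 2) (b := b / 2)
    (hconv ((a / 2 : ℝ) : ℂ)) (hconv ((b / 2 : ℝ) : ℂ))
  refine ⟨K, hK, fun s hs1 hs2 => ?_⟩
  have h1 : completedRiemannZeta₀ s = mellin P.f_modif (s / 2) / 2 := rfl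
  rw [h1, norm_div]
  have h2 : ‖mellin P.f_modif (s / 2)‖ ≤ K := by
    apply hb
    · simp; linarith
    · simp; linarith
  have h3 : ‖(2:ℂ)‖ = 2 := by simp
  rw [h3]
  linarith

/-- `ξ(s)` normalised to be `1` at `0` and `1`: `F(s) = s (s-1) Λ(s)`. -/
noncomputable def xiF (s : ℂ) : ℂ := s * (s - 1) * completedRiemannZeta₀ s + 1

lemma xiF_differentiable : Differentiable ℂ xiF := by
  have hdef : xiF = fun s => s * (s - 1) * completedRiemannZeta₀ s + 1 := rfl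
  rw [hdef]
  have := differentiable_completedZeta₀
  fun_prop

lemma xiF_one_sub (s : ℂ) : xiF (1 - s) = xiF s := by
  unfold xiF
  rw [completedRiemannZeta₀_one_sub]
  ring

lemma xiF_zero : xiF 0 = 1 := by simp [xiF]

lemma xiF_one : xiF 1 = 1 := by simp [xiF]

lemma xiF_eq_completed {s : ℂ} (hs0 : s ≠ 0) (hs1 : s ≠ 1) :
    xiF s = s * (s - 1) * completedRiemannZeta s := by
  rw [completedRiemannZeta_eq, xiF]
  have h1 : (1:ℂ) - s ≠ 0 := sub_ne_zero.mpr hs1.symm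
  field_simp
  ring

lemma xiF_eq_zeta {s : ℂ} (hs0 : 0 < s.re) (hs1 : s ≠ 1) :
    xiF s = s * (s - 1) * Gammaℝ s * riemannZeta s := by
  have h0 : s ≠ 0 := by rintro rfl; simp at hs0
  have hG : Gammaℝ s ≠ 0 := Gammaℝ_ne_zero_of_re_pos hs0
  rw [xiF_eq_completed h0 hs1, riemannZeta_def_of_ne_zero h0]
  field_simp

lemma norm_Gamma_le {s : ℂ} (hs : 0 < s.re) : ‖Complex.Gamma s‖ ≤ Real.Gamma s.re := by
  rw [Complex.Gamma_eq_integral hs, Real.Gamma_eq_integral hs, Complex.GammaIntegral]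
  refine norm_integral_le_of_norm_le (Real.GammaIntegral_convergent hs) ?_
  refine (ae_restrict_iff' measurableSet_Ioi).mpr (Eventually.of_forall fun t ht => ?_)
  have ht' : 0 < t := ht
  rw [norm_mul, Complex.norm_cpow_eq_rpow_re_of_pos ht', Complex.norm_real,
    Real.norm_eq_abs, abs_of_pos (Real.exp_pos _)]
  simp

lemma Real_Gamma_le {x : ℝ} (hx : 2 ≤ x) : Real.Gamma x ≤ Real.exp (2 * (1 + x) ^ (3/2 : ℝ)) := by
  have hx1 : x ≤ (⌈x⌉₊ : ℝ) + 1 := by linarith [Nat.le_ceil x]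
  have h1 : Real.Gamma x ≤ Real.Gamma ((⌈x⌉₊ : ℝ) + 1) :=
    Real.Gamma_strictMonoOn_Ici.monotoneOn (by simpa using hx) (by simp; linarith [hx1]) hx1
  rw [Real.Gamma_nat_eq_factorial] at h1
  have h2 : ((⌈x⌉₊).factorial : ℝ) ≤ (⌈x⌉₊ : ℝ) ^ ⌈x⌉₊ := by
    exact_mod_cast Nat.factorial_le_pow _
  have h3 : (⌈x⌉₊ : ℝ) ≤ 1 + x := by
    have := Nat.ceil_lt_add_one (show 0 ≤ x by linarith)
    linarith
  have h4 : (⌈x⌉₊ : ℝ) ^ ⌈x⌉₊ ≤ (1 + x) ^ (1 + x) := by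
    calc (⌈x⌉₊ : ℝ) ^ ⌈x⌉₊ ≤ (1 + x) ^ ⌈x⌉₊ := pow_le_pow_left₀ (by positivity) h3 _
      _ = (1 + x) ^ (⌈x⌉₊ : ℝ) := (Real.rpow_natCast _ _).symm
      _ ≤ (1 + x) ^ (1 + x) := Real.rpow_le_rpow_of_exponent_le (by linarith) h3
  have h5 : (1 + x) ^ (1 + x) = Real.exp ((1 + x) * Real.log (1 + x)) := by
    rw [Real.rpow_def_of_pos (by linarith)]
    ring_nf
  have h6 : Real.log (1 + x) ≤ (1 + x) ^ (1/2 : ℝ) / (1/2 : ℝ) :=
    Real.log_le_rpow_div (by linarith) (by norm_num)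
  have h7 : (1 + x) * Real.log (1 + x) ≤ 2 * (1 + x) ^ (3/2 : ℝ) := by
    have h8 : (1 + x) ^ (3/2 : ℝ) = (1 + x) * (1 + x) ^ (1/2 : ℝ) := by
      rw [← Real.rpow_one_add' (by linarith) (by norm_num)]
      norm_num
    rw [h8]
    have := mul_le_mul_of_nonneg_left h6 (show (0:ℝ) ≤ 1 + x by linarith)
    nlinarith
  calc Real.Gamma x ≤ _ := h1
    _ ≤ _ := h2
    _ ≤ _ := h4
    _ = _ := h5
    _ ≤ _ := Real.exp_le_exp.mpr h7

lemma norm_zeta_le_of_two_le {s : ℂ} (hs : 2 ≤ s.re) : ‖riemannZeta s‖ ≤ Real.pi ^ 2 / 6 := by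
  rw [zeta_eq_tsum_one_div_nat_cpow (by linarith)]
  refine tsum_of_norm_bounded hasSum_zeta_two fun n => ?_
  rcases Nat.eq_zero_or_pos n with rfl | hn
  · have hs0 : s ≠ 0 := by rintro rfl; simp at hs; linarith
    rw [Nat.cast_zero, Complex.zero_cpow hs0]
    simp
  · rw [norm_div, norm_one, Complex.norm_natCast_cpow_of_pos hn]
    have hn1 : (1:ℝ) ≤ n := by exact_mod_cast hn
    refine one_div_le_one_div_of_le (by positivity) ?_
    calc (n:ℝ) ^ 2 = (n:ℝ) ^ (2:ℝ) := by norm_num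
      _ ≤ _ := Real.rpow_le_rpow_of_exponent_le hn1 hs

lemma growth_aux {x : ℝ} (hx : 1 ≤ x) : x ≤ x ^ (3/2:ℝ) := by
  calc x = x ^ (1:ℝ) := by simp
    _ ≤ _ := Real.rpow_le_rpow_of_exponent_le hx (by norm_num)

/-- Growth in the half-plane `Re s ≥ 4`. -/
lemma norm_xiF_le_right {s : ℂ} (hs : 4 ≤ s.re) :
    ‖xiF s‖ ≤ Real.exp (5 * (1 + ‖s‖) ^ (3/2 : ℝ)) := by
  have hs1 : s ≠ 1 := by
    intro h
    rw [h, one_re] at hs
    linarith
  rw [xiF_eq_zeta (by linarith) hs1, norm_mul, norm_mul, norm_mul]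
  have hn : s.re ≤ ‖s‖ := (le_abs_self _).trans (abs_re_le_norm s)
  have h1 : ‖s - 1‖ ≤ 1 + ‖s‖ := by
    have := norm_sub_le s 1
    simp at this; linarith
  have h2 : ‖Gammaℝ s‖ ≤ Real.exp (2 * (1 + ‖s‖) ^ (3/2 : ℝ)) := by
    rw [Gammaℝ_def, norm_mul]
    have h3 : ‖(Real.pi : ℂ) ^ (-s / 2)‖ ≤ 1 := by
      rw [Complex.norm_cpow_eq_rpow_re_of_pos Real.pi_pos]
      refine Real.rpow_le_one_of_one_le_of_nonpos (by linarith [Real.pi_gt_three]) ?_
      simp; linarith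
    have h4 : ‖Complex.Gamma (s / 2)‖ ≤ Real.exp (2 * (1 + ‖s‖) ^ (3/2 : ℝ)) := by
      have hre : (s / 2).re = s.re / 2 := by simp
      have h5 := norm_Gamma_le (s := s / 2) (by rw [hre]; linarith)
      rw [hre] at h5
      refine h5.trans ((Real_Gamma_le (by linarith)).trans ?_)
      gcongr
      linarith
    calc _ ≤ 1 * Real.exp (2 * (1 + ‖s‖) ^ (3/2 : ℝ)) :=
        mul_le_mul h3 h4 (norm_nonneg _) zero_le_one
      _ = _ := one_mul _
  have h3 : ‖riemannZeta s‖ ≤ Real.exp 1 := by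
    refine (norm_zeta_le_of_two_le (by linarith)).trans ?_
    have h5 := Real.exp_one_gt_d9
    have h6 := Real.pi_lt_d2
    have h7 := Real.pi_pos
    nlinarith
  have h4 : 1 + ‖s‖ ≤ Real.exp (‖s‖) := by linarith [Real.add_one_le_exp ‖s‖]
  have hpos : 0 ≤ ‖s‖ := norm_nonneg s
  have hg := growth_aux (x := 1 + ‖s‖) (by linarith)
  calc ‖s‖ * ‖s - 1‖ * ‖Gammaℝ s‖ * ‖riemannZeta s‖
      ≤ Real.exp ‖s‖ * Real.exp ‖s‖ * Real.exp (2 * (1 + ‖s‖) ^ (3/2 : ℝ)) * Real.exp 1 := by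
        gcongr
        · linarith
        · linarith
    _ = Real.exp (2 * ‖s‖ + 1 + 2 * (1 + ‖s‖) ^ (3/2 : ℝ)) := by
        rw [← Real.exp_add, ← Real.exp_add, ← Real.exp_add]; ring_nf
    _ ≤ _ := Real.exp_le_exp.mpr (by linarith)

/-- Growth of `xiF`. -/
lemma exists_norm_xiF_le : ∃ C : ℝ, 0 < C ∧ ∀ s : ℂ,
    ‖xiF s‖ ≤ Real.exp (C * (1 + ‖s‖) ^ (3/2 : ℝ)) := by
  obtain ⟨K, hK, hb⟩ := exists_norm_completedZeta₀_le (-3) 4
  refine ⟨15 + 2 + K, by positivity, fun s => ?_⟩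
  have hpos : 0 ≤ ‖s‖ := norm_nonneg s
  have hg := growth_aux (x := 1 + ‖s‖) (by linarith)
  have hg1 : (1:ℝ) ≤ (1 + ‖s‖) ^ (3/2:ℝ) := by linarith
  rcases le_or_gt 4 s.re with h | h
  · refine (norm_xiF_le_right h).trans (Real.exp_le_exp.mpr ?_)
    nlinarith
  rcases le_or_gt s.re (-3) with h' | h'
  · rw [← xiF_one_sub]
    have h4 : 4 ≤ (1 - s).re := by simp; linarith
    refine (norm_xiF_le_right h4).trans (Real.exp_le_exp.mpr ?_)
    have h5 : 1 + ‖1 - s‖ ≤ 2 * (1 + ‖s‖) := by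
      have := norm_sub_le 1 s
      simp at this; linarith
    have h6 : (1 + ‖1 - s‖) ^ (3/2:ℝ) ≤ 3 * (1 + ‖s‖) ^ (3/2:ℝ) := by
      calc (1 + ‖1 - s‖) ^ (3/2:ℝ) ≤ (2 * (1 + ‖s‖)) ^ (3/2:ℝ) := by gcongr
        _ = 2 ^ (3/2:ℝ) * (1 + ‖s‖) ^ (3/2:ℝ) := Real.mul_rpow (by norm_num) (by linarith)
        _ ≤ 3 * (1 + ‖s‖) ^ (3/2:ℝ) := by
            gcongr
            have h7 : ((2:ℝ) ^ (3/2:ℝ)) ^ 2 = 8 := by
              rw [← Real.rpow_natCast, ← Real.rpow_mul (by norm_num)]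
              norm_num
            have h8 : (0:ℝ) ≤ 2 ^ (3/2:ℝ) := by positivity
            nlinarith
    nlinarith
  · have h1 : ‖s - 1‖ ≤ 1 + ‖s‖ := by
      have := norm_sub_le s 1
      simp at this; linarith
    have h2 := hb s (by linarith) h.le
    have h3 : ‖xiF s‖ ≤ (1 + ‖s‖) * (1 + ‖s‖) * (K + 1) := by
      unfold xiF
      refine (norm_add_le _ _).trans ?_
      rw [norm_mul, norm_mul, norm_one]
      have h4 : ‖s‖ * ‖s - 1‖ * ‖completedRiemannZeta₀ s‖ ≤ (1 + ‖s‖) * (1 + ‖s‖) * K := by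
        gcongr
        linarith
      nlinarith
    have h4 : 1 + ‖s‖ ≤ Real.exp (‖s‖) := by linarith [Real.add_one_le_exp ‖s‖]
    have h5 : K + 1 ≤ Real.exp K := Real.add_one_le_exp K
    calc ‖xiF s‖ ≤ _ := h3
      _ ≤ Real.exp ‖s‖ * Real.exp ‖s‖ * Real.exp K := by gcongr
      _ = Real.exp (2 * ‖s‖ + K) := by rw [← Real.exp_add, ← Real.exp_add]; ring_nf
      _ ≤ _ := Real.exp_le_exp.mpr (by nlinarith)

end Pool.Agent.Hadamard
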