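import Pool.Agent.Lib.Hadamard.PartialFrac
import Pool.Agent.Lib.Hadamard.XiGrowth

/-!
# Partial fractions of the logarithmic derivative of the Riemann zeta function

Main statements: `hasSum_re_zeros` (positive form, `Re s > 1`), `hasSum_complex_zeros`
(difference form), `summable_mult`.
-/

open Complex Metric Set Filter Topology

namespace Pool.Agent.Hadamard

/-- The nontrivial zeros of zeta. -/
def ntz : Set ℂ := {ρ : ℂ | riemannZeta ρ = 0 ∧ 0 < ρ.re ∧ ρ.re < 1}

/-- Multiplicity of a zero of zeta. -/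
noncomputable def mult (ρ : ℂ) : ℕ := analyticOrderNatAt riemannZeta ρ

lemma xiF_ne_zero_of_one_le {s : ℂ} (hs : 1 ≤ s.re) : xiF s ≠ 0 := by
  by_cases h1 : s = 1
  · rw [h1, xiF_one]; exact one_ne_zero
  · rw [xiF_eq_zeta (by linarith) h1]
    have h0 : s ≠ 0 := by rintro rfl; simp at hs; linarith
    exact mul_ne_zero (mul_ne_zero (mul_ne_zero h0 (sub_ne_zero.mpr h1))
      (Gammaℝ_ne_zero_of_re_pos (by linarith))) (riemannZeta_ne_zero_of_one_le_re hs)

lemma xiF_eq_zero_iff {s : ℂ} : xiF s = 0 ↔ s ∈ ntz := by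
  constructor
  · intro h
    have h1 : s.re < 1 := by
      by_contra hlt
      exact xiF_ne_zero_of_one_le (not_lt.mp hlt) h
    have h0 : 0 < s.re := by
      by_contra hlt
      rw [← xiF_one_sub] at h
      exact xiF_ne_zero_of_one_le (by simp; linarith [not_lt.mp hlt]) h
    refine ⟨?_, h0, h1⟩
    have hs1 : s ≠ 1 := by rintro rfl; simp at h1
    have hs0 : s ≠ 0 := by rintro rfl; simp at h0
    rw [xiF_eq_zeta h0 hs1] at h
    rcases mul_eq_zero.mp h with h | h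
    · exfalso
      exact (mul_ne_zero (mul_ne_zero hs0 (sub_ne_zero.mpr hs1))
        (Gammaℝ_ne_zero_of_re_pos h0)) h
    · exact h
  · rintro ⟨h, h0, h1⟩
    have hs1 : s ≠ 1 := by rintro rfl; simp at h1
    rw [xiF_eq_zeta h0 hs1, h, mul_zero]

lemma ntz_one_sub {s : ℂ} : 1 - s ∈ ntz ↔ s ∈ ntz := by
  rw [← xiF_eq_zero_iff, ← xiF_eq_zero_iff, xiF_one_sub]

lemma gammaFactor_analyticAt {s : ℂ} (hs : 0 < s.re) :
    AnalyticAt ℂ (fun s => s * (s - 1) * Gammaℝ s) s := by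
  have hG : AnalyticAt ℂ Gammaℝ s := by
    have h1 : AnalyticAt ℂ (fun s => (Gammaℝ s)⁻¹) s := differentiable_Gammaℝ_inv.analyticAt s
    have h2 := h1.inv (inv_ne_zero (Gammaℝ_ne_zero_of_re_pos hs))
    refine h2.congr (Eventually.of_forall fun z => ?_)
    simp
  exact ((analyticAt_id).mul ((analyticAt_id).sub analyticAt_const)).mul hG

lemma zeta_analyticAt {s : ℂ} (hs : s ≠ 1) : AnalyticAt ℂ riemannZeta s :=
  analyticOn_riemannZeta s hs

/-- Near a point of the strip, orders of `xiF` and `ζ` agree. -/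
lemma order_xiF_eq {s : ℂ} (hs0 : 0 < s.re) (hs1 : s ≠ 1) :
    analyticOrderAt xiF s = analyticOrderAt riemannZeta s := by
  have h0 : s ≠ 0 := by rintro rfl; simp at hs0
  have hev : xiF =ᶠ[𝓝 s] (fun s => s * (s - 1) * Gammaℝ s) * riemannZeta := by
    have ho : IsOpen {z : ℂ | 0 < z.re ∧ z ≠ 1} :=
      (isOpen_lt continuous_const continuous_re).inter isOpen_ne
    filter_upwards [ho.mem_nhds ⟨hs0, hs1⟩] with z hz
    simp only [Pi.mul_apply]
    exact xiF_eq_zeta hz.1 hz.2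
  rw [analyticOrderAt_congr hev, analyticOrderAt_mul (gammaFactor_analyticAt hs0)
    (zeta_analyticAt hs1), (gammaFactor_analyticAt hs0).analyticOrderAt_eq_zero.mpr
      (mul_ne_zero (mul_ne_zero h0 (sub_ne_zero.mpr hs1)) (Gammaℝ_ne_zero_of_re_pos hs0)),
    zero_add]

lemma mult_eq {ρ : ℂ} (h : ρ ∈ ntz) : analyticOrderNatAt xiF ρ = mult ρ := by
  unfold mult analyticOrderNatAt
  rw [order_xiF_eq h.2.1 (by rintro rfl; simpa using h.2.2)]

lemma mult_pos {ρ : ℂ} (h : ρ ∈ ntz) : 0 < mult ρ := by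
  rw [← mult_eq h]
  rw [Nat.pos_iff_ne_zero]
  intro h0
  have hft := order_ne_top xiF_differentiable (w := 0) (by rw [xiF_zero]; exact one_ne_zero) ρ
  have h1 : analyticOrderAt xiF ρ = 0 := by
    rw [← Nat.cast_analyticOrderNatAt hft, h0]; rfl
  exact ((xiF_differentiable.analyticAt ρ).analyticOrderAt_eq_zero.mp h1) (xiF_eq_zero_iff.mpr h)

lemma order_xiF_one_sub (s : ℂ) : analyticOrderNatAt xiF (1 - s) = analyticOrderNatAt xiF s := by
  unfold analyticOrderNatAt
  have h1 : xiF = xiF ∘ (fun z => 1 - z) := by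
    funext z; simp [xiF_one_sub]
  have hg : AnalyticAt ℂ (fun z : ℂ => 1 - z) s := by fun_prop
  have hd : deriv (fun z : ℂ => 1 - z) s ≠ 0 := by
    simp
  have h2 := analyticOrderAt_comp_of_deriv_ne_zero (f := xiF) hg hd
  rw [← h1] at h2
  rw [h2]

lemma mult_one_sub {ρ : ℂ} (h : ρ ∈ ntz) : mult (1 - ρ) = mult ρ := by
  rw [← mult_eq h, ← mult_eq (ntz_one_sub.mpr h), order_xiF_one_sub]

/-- Equivalence of the index types. -/
noncomputable def zeroEquiv : ntz ≃ {a : ℂ // xiF a = 0} :=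
  Equiv.subtypeEquivRight fun _ => xiF_eq_zero_iff.symm

lemma growth_hyp : ∃ C : ℝ, 0 < C ∧ ∀ z, ‖xiF z‖ ≤ ‖xiF 0‖ * Real.exp (C * (1 + ‖z‖) ^ (3/2:ℝ)) := by
  obtain ⟨C, hC, h⟩ := exists_norm_xiF_le
  exact ⟨C, hC, fun z => by rw [xiF_zero, norm_one, one_mul]; exact h z⟩

/-- `∑ m(ρ)/(1+|ρ|²) < ∞`. -/
theorem summable_mult : Summable (fun ρ : ntz => (mult ρ : ℝ) / (1 + ‖(ρ:ℂ)‖ ^ 2)) := by
  obtain ⟨C, hC, h⟩ := growth_hyp
  have h1 := summable_zeros xiF_differentiable (by rw [xiF_zero]; exact one_ne_zero) hC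
    (by norm_num) (by norm_num) h
  refine (zeroEquiv.summable_iff.mpr h1).congr fun ρ => ?_
  simp only [Function.comp_apply, zeroEquiv, Equiv.subtypeEquivRight_apply_coe]
  rw [mult_eq ρ.2]

/-- **Partial fractions**, difference form: for all `z, w` that are not nontrivial zeros. -/
theorem hasSum_complex_zeros {z w : ℂ} (hz : z ∉ ntz) (hw : w ∉ ntz) :
    HasSum (fun ρ : ntz => (mult ρ : ℂ) * (1 / (z - ρ) - 1 / (w - ρ)))
      (logDeriv xiF z - logDeriv xiF w) := by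
  obtain ⟨C, hC, h⟩ := growth_hyp
  have h1 := hasSum_logDeriv_sub xiF_differentiable (by rw [xiF_zero]; exact one_ne_zero) hC
    (by norm_num) (by norm_num) h (z := z) (w := w) (fun h => hz (xiF_eq_zero_iff.mp h))
    (fun h => hw (xiF_eq_zero_iff.mp h))
  have h2 := zeroEquiv.hasSum_iff.mpr h1
  have heq : (fun a : {a : ℂ // xiF a = 0} =>
      (analyticOrderNatAt xiF a : ℂ) * (1 / (z - a) - 1 / (w - a))) ∘ zeroEquiv =
      fun ρ : ntz => (mult ρ : ℂ) * (1 / (z - ρ) - 1 / (w - ρ)) := by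
    funext ρ
    simp only [Function.comp_apply, zeroEquiv, Equiv.subtypeEquivRight_apply_coe]
    rw [mult_eq ρ.2]
  rwa [heq] at h2

lemma Gammaℝ_differentiableAt {s : ℂ} (hs : 0 < s.re) : DifferentiableAt ℂ Gammaℝ s := by
  have h1 : DifferentiableAt ℂ (fun s => (Gammaℝ s)⁻¹) s := differentiable_Gammaℝ_inv s
  have h2 := h1.inv (inv_ne_zero (Gammaℝ_ne_zero_of_re_pos hs))
  have h3 : (fun s => ((Gammaℝ s)⁻¹)⁻¹) = Gammaℝ := by funext z; simp
  rw [← h3]; exact h2

lemma logDeriv_Gammaℝ {s : ℂ} (hs : 0 < s.re) :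
    logDeriv Gammaℝ s = -(Real.log Real.pi : ℂ) / 2 + logDeriv Complex.Gamma (s / 2) / 2 := by
  have hpi : (Real.pi : ℂ) ≠ 0 := by exact_mod_cast Real.pi_ne_zero
  have hG : Gammaℝ = fun s : ℂ => (Real.pi : ℂ) ^ (-s / 2) * Complex.Gamma (s / 2) :=
    funext Gammaℝ_def
  have hGd : DifferentiableAt ℂ Complex.Gamma (s / 2) := by
    refine differentiableAt_Gamma _ fun m h => ?_
    have : (s / 2).re = (-(m:ℂ)).re := by rw [h]
    simp at this
    have : (0:ℝ) ≤ m := by positivity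
    linarith
  have h1 : HasDerivAt (fun s : ℂ => (Real.pi : ℂ) ^ (-s / 2))
      ((Real.pi : ℂ) ^ (-s / 2) * Complex.log Real.pi * (-1 / 2)) s := by
    have hin : HasDerivAt (fun s : ℂ => -s / 2) (-1 / 2) s := by
      have := ((hasDerivAt_id s).neg).div_const (2:ℂ)
      simpa using this
    exact hin.const_cpow (Or.inl hpi)
  have h2 : HasDerivAt (fun s : ℂ => Complex.Gamma (s / 2))
      (deriv Complex.Gamma (s / 2) * (1 / 2)) s := by
    have hin : HasDerivAt (fun s : ℂ => s / 2) (1 / 2) s := by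
      simpa using (hasDerivAt_id s).div_const (2:ℂ)
    exact hGd.hasDerivAt.comp s hin
  have hne1 : (Real.pi : ℂ) ^ (-s / 2) ≠ 0 := by
    rw [Complex.cpow_def_of_ne_zero hpi]; exact exp_ne_zero _
  have hne2 : Complex.Gamma (s / 2) ≠ 0 :=
    Complex.Gamma_ne_zero_of_re_pos (by simpa using hs)
  rw [hG, logDeriv_mul (f := fun s : ℂ => (Real.pi : ℂ) ^ (-s / 2)) s hne1 hne2
    h1.differentiableAt h2.differentiableAt]
  rw [logDeriv_apply, logDeriv_apply, logDeriv_apply, h1.deriv, h2.deriv,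
    ← Complex.ofReal_log Real.pi_pos.le]
  field_simp

/-- The logarithmic derivative of `xiF` to the right of the critical strip. -/
lemma logDeriv_xiF {s : ℂ} (hs : 1 ≤ s.re) (hs1 : s ≠ 1) :
    logDeriv xiF s = 1 / s + 1 / (s - 1) - (Real.log Real.pi : ℂ) / 2 +
      logDeriv Complex.Gamma (s / 2) / 2 + logDeriv riemannZeta s := by
  have hs0 : 0 < s.re := by linarith
  have h0 : s ≠ 0 := by rintro rfl; simp at hs0
  have hs1' : s - 1 ≠ 0 := sub_ne_zero.mpr hs1
  have hG := Gammaℝ_ne_zero_of_re_pos hs0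
  have hz := riemannZeta_ne_zero_of_one_le_re hs
  have hev : xiF =ᶠ[𝓝 s] fun s => s * (s - 1) * Gammaℝ s * riemannZeta s := by
    have ho : IsOpen {z : ℂ | 0 < z.re ∧ z ≠ 1} :=
      (isOpen_lt continuous_const continuous_re).inter isOpen_ne
    filter_upwards [ho.mem_nhds ⟨hs0, hs1⟩] with z hz
    exact xiF_eq_zeta hz.1 hz.2
  have hcongr : logDeriv xiF s = logDeriv (fun s => s * (s - 1) * Gammaℝ s * riemannZeta s) s := by
    rw [logDeriv_apply, logDeriv_apply, hev.deriv_eq, hev.eq_of_nhds]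
  have d1 : DifferentiableAt ℂ (fun s : ℂ => s * (s - 1)) s := by fun_prop
  have d2 := Gammaℝ_differentiableAt hs0
  have d3 : DifferentiableAt ℂ riemannZeta s := differentiableAt_riemannZeta hs1
  rw [hcongr, logDeriv_mul (f := fun s => s * (s - 1) * Gammaℝ s) s
      (mul_ne_zero (mul_ne_zero h0 hs1') hG) hz (d1.mul d2) d3,
    logDeriv_mul (f := fun s => s * (s - 1)) s (mul_ne_zero h0 hs1') hG d1 d2,
    logDeriv_mul (f := fun s : ℂ => s) (g := fun s : ℂ => s - 1) s h0 hs1' (by fun_prop)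
      (by fun_prop), logDeriv_Gammaℝ hs0]
  have e1 : logDeriv (fun s : ℂ => s) s = 1 / s := by
    rw [logDeriv_apply]; simp
  have e2 : logDeriv (fun s : ℂ => s - 1) s = 1 / (s - 1) := by
    rw [logDeriv_apply]; simp
  rw [e1, e2]
  ring

lemma logDeriv_xiF_one_sub (s : ℂ) : logDeriv xiF (1 - s) = - logDeriv xiF s := by
  have h1 : HasDerivAt (fun z => xiF (1 - z)) (deriv xiF (1 - s) * (-1)) s := by
    have hin : HasDerivAt (fun z : ℂ => 1 - z) (-1) s := by
      simpa using (hasDerivAt_id s).const_sub (1:ℂ)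
    exact (xiF_differentiable (1 - s)).hasDerivAt.comp s hin
  have h2 : (fun z => xiF (1 - z)) = xiF := by funext z; exact xiF_one_sub z
  rw [h2] at h1
  rw [logDeriv_apply, logDeriv_apply, h1.deriv, xiF_one_sub]
  ring

/-- The involution `ρ ↦ 1 - ρ` of the set of nontrivial zeros. -/
def ntzInv : ntz ≃ ntz where
  toFun ρ := ⟨1 - ρ, ntz_one_sub.mpr ρ.2⟩
  invFun ρ := ⟨1 - ρ, ntz_one_sub.mpr ρ.2⟩
  left_inv ρ := by simp
  right_inv ρ := by simp

lemma re_one_div_pos {s ρ : ℂ} (h : ρ.re < s.re) : 0 < (1 / (s - ρ)).re := by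
  rw [one_div, Complex.inv_re]
  have hne : s - ρ ≠ 0 := by
    intro h0
    have : (s - ρ).re = 0 := by rw [h0]; simp
    simp at this; linarith
  exact div_pos (by simp; linarith) (Complex.normSq_pos.mpr hne)

/-- **Partial fractions in positive form**, in terms of `xiF`. -/
theorem hasSum_re_zeros_xi {s : ℂ} (hs : 1 ≤ s.re) :
    HasSum (fun ρ : ntz => (mult ρ : ℝ) * (1 / (s - ρ)).re) (logDeriv xiF s).re := by
  have hz : s ∉ ntz := fun h => by have := h.2.2; linarith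
  have hw : 1 - s ∉ ntz := fun h => hz (ntz_one_sub.mp h)
  have h1 := hasSum_complex_zeros hz hw
  rw [logDeriv_xiF_one_sub, sub_neg_eq_add] at h1
  have h2 := (Complex.hasSum_iff _ _).mp h1 |>.1
  set u : ntz → ℝ := fun ρ => (mult ρ : ℝ) * (1 / (s - ρ)).re with hu
  have hterm : ∀ ρ : ntz, ((mult ρ : ℂ) * (1 / (s - ρ) - 1 / (1 - s - ρ))).re =
      u ρ + u (ntzInv ρ) := by
    intro ρ
    have e1 : 1 / (1 - s - (ρ:ℂ)) = - (1 / (s - (1 - ρ))) := by
      rw [← one_div_neg_eq_neg_one_div]; congr 1; ring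
    rw [e1, sub_neg_eq_add, ← Complex.ofReal_natCast, Complex.re_ofReal_mul, add_re]
    simp only [hu, ntzInv, Equiv.coe_fn_mk]
    rw [mult_one_sub ρ.2]
    ring
  have hupos : ∀ ρ, 0 ≤ u ρ := by
    intro ρ
    exact mul_nonneg (Nat.cast_nonneg _) (re_one_div_pos (by have := ρ.2.2.2; linarith)).le
  have h3 : HasSum (fun ρ => u ρ + u (ntzInv ρ)) ((logDeriv xiF s + logDeriv xiF s).re) := by
    have heq : (fun ρ : ntz => ((mult ρ : ℂ) * (1 / (s - ρ) - 1 / (1 - s - ρ))).re) =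
        fun ρ => u ρ + u (ntzInv ρ) := funext hterm
    rwa [heq] at h2
  have hus : Summable u := Summable.of_nonneg_of_le hupos
    (fun ρ => by linarith [hupos (ntzInv ρ)]) h3.summable
  have h4 : HasSum u (∑' ρ, u ρ) := hus.hasSum
  have h5 : HasSum (fun ρ => u (ntzInv ρ)) (∑' ρ, u ρ) := (ntzInv.hasSum_iff (f := u)).mpr h4
  have h6 := (h4.add h5).unique h3
  have h7 : (∑' ρ, u ρ) = (logDeriv xiF s).re := by
    rw [add_re] at h6; linarith
  rw [h7] at h4
  exact h4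

/-- **Partial fractions in positive form** (R1): for `Re s ≥ 1`, `s ≠ 1`. -/
theorem hasSum_re_zeros {s : ℂ} (hs : 1 ≤ s.re) (hs1 : s ≠ 1) :
    HasSum (fun ρ : ntz => (mult ρ : ℝ) * (1 / (s - ρ)).re)
      ((logDeriv riemannZeta s).re + (1 / (s - 1)).re + (1 / s).re - Real.log Real.pi / 2
        + (logDeriv Complex.Gamma (s / 2)).re / 2) := by
  have h := hasSum_re_zeros_xi hs
  rw [logDeriv_xiF hs hs1] at h
  convert h using 1
  simp only [add_re, sub_re]
  have e1 : ((Real.log Real.pi : ℂ) / 2).re = Real.log Real.pi / 2 := by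
    rw [show ((Real.log Real.pi : ℂ) / 2) = ((Real.log Real.pi / 2 : ℝ) : ℂ) by push_cast; ring]
    exact Complex.ofReal_re _
  have e2 : (logDeriv Complex.Gamma (s / 2) / 2).re = (logDeriv Complex.Gamma (s / 2)).re / 2 := by
    have : logDeriv Complex.Gamma (s / 2) / 2 =
        ((1 / 2 : ℝ) : ℂ) * logDeriv Complex.Gamma (s / 2) := by push_cast; ring
    rw [this, Complex.re_ofReal_mul]; ring
  rw [e1, e2]
  ring

end Pool.Agent.Hadamard
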